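import Pool.Agent.Q283.T3.LA

/-! The linear algebra: the law of the coranks of several Laplacians with a common random part,
continued -/

set_option autoImplicit false
set_option linter.unusedSectionVars false

open scoped Classical

namespace Q283.T3

open Finset Module
open Pool.Agent.Y703.XK (prs)

section main
variable {U J : Type} [Fintype U] [Fintype J] {e e' : U → ZMod 3} {A : U → U → ZMod 3} {B : U → J → ZMod 3}

/-- the fixed part of the form of a mask -/
noncomputable def B0 (e : U → ZMod 3) (A : U → U → ZMod 3) (B : U → J → ZMod 3) (j₀ : J) :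
    LinearMap.BilinForm (ZMod 3) (U ⊕ J → ZMod 3) :=
  Lp (cc e A B 0) (dg (Sk J e) (Sum.inr j₀))

theorem row_inr (e : U → ZMod 3) (A : U → U → ZMod 3) (B : U → J → ZMod 3) (x : U ⊕ J → ZMod 3) (j : J) :
    ∑ i, cc e A B 0 (Sum.inr j) i * (x i - x (Sum.inr j)) =
      ∑ u, e u * B u j * (x (Sum.inl u) - x (Sum.inr j)) := by
  rw [Fintype.sum_sum_type]
  have h : ∑ l : J, cc e A B 0 (Sum.inr j) (Sum.inr l) * (x (Sum.inr l) - x (Sum.inr j)) = 0 :=
    sum_eq_zero fun l _ => by simp only [cc, Pi.zero_apply, zero_mul]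
  rw [h, add_zero]
  rfl

theorem nd_B0 (hB : ∀ w : U → ZMod 3, w ≠ 0 → 2 ≤ (univ.filter fun j => ∑ u, w u * B u j ≠ 0).card)
    (j₀ : J) : Nd (B0 e A B j₀) (W0 U J) := by
  intro w hw h0
  have h1 := mem_kerLp.1 (LinearMap.mem_ker.2 h0)
  have h2 : ∀ j : J, ∑ u, e u * (w (Sum.inl u) - w (Sum.inr j₀)) * B u j +
      (if j = j₀ then 1 else 0) * w (Sum.inr j₀) = 0 := by
    intro j
    have h3 := h1 (Sum.inr j)
    rw [row_inr, hw j j₀] at h3
    have h4 : dg (Sk J e) (Sum.inr j₀) (Sum.inr j : U ⊕ J) = if j = j₀ then 1 else 0 := by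
      unfold dg
      by_cases h : j = j₀
      · rw [if_pos (Or.inr (by rw [h])), if_pos h]
      · rw [if_neg, if_neg h]
        rintro (h5 | h5)
        · exact h5 mem_Sk_inr
        · exact h (Sum.inr_injective h5)
    rw [h4] at h3
    refine Eq.trans ?_ h3
    congr 1
    exact sum_congr rfl fun u _ => by ring
  have h3 : (fun u => e u * (w (Sum.inl u) - w (Sum.inr j₀))) = 0 := by
    by_contra hne
    have h4 := hB _ hne
    have h5 : (univ.filter fun j => ∑ u, (fun u => e u * (w (Sum.inl u) - w (Sum.inr j₀))) u * B u j ≠ 0) ⊆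
        {j₀} := by
      intro j hj
      rw [mem_filter] at hj
      rw [mem_singleton]
      by_contra hjj
      have h6 := h2 j
      rw [if_neg hjj, zero_mul, add_zero] at h6
      exact hj.2 h6
    have h6 := card_le_card h5
    rw [card_singleton] at h6
    exact absurd (h4.trans h6) (by norm_num)
  have h4 : w (Sum.inr j₀) = 0 := by
    have h5 := h2 j₀
    rw [if_pos rfl, one_mul, sum_eq_zero, zero_add] at h5
    · exact h5
    · intro u _
      have h6 : e u * (w (Sum.inl u) - w (Sum.inr j₀)) = 0 := congrFun h3 u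
      rw [h6, zero_mul]
  funext i
  rw [Pi.zero_apply]
  rcases i with u | j
  · by_cases he : e u = 0
    · have h5 := h1 (Sum.inl u)
      have h6 : (Sum.inl u : U ⊕ J) ∉ Sk J e := by rw [mem_Sk_inl, not_not]; exact he
      rw [sum_eq_zero fun i _ => by rw [cc_zero _ _ h6, zero_mul], zero_add] at h5
      unfold dg at h5
      rw [if_pos (Or.inl h6), one_mul] at h5
      exact h5
    · have h6 : e u * (w (Sum.inl u) - w (Sum.inr j₀)) = 0 := congrFun h3 u
      rw [h4, sub_zero] at h6
      exact (mul_eq_zero.1 h6).resolve_left he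
  · rw [hw j j₀, h4]

/-- the space of the functions on which the forms of two masks agree -/
def NN (e e' : U → ZMod 3) (B : U → J → ZMod 3) : Submodule (ZMod 3) (U ⊕ J → ZMod 3) where
  carrier := {x | ∀ j, ∑ u, (e u - e' u) * B u j * (x (Sum.inl u) - x (Sum.inr j)) = 0}
  add_mem' := by
    intro x y hx hy j
    have h5 : ∑ u, (e u - e' u) * B u j * ((x + y) (Sum.inl u) - (x + y) (Sum.inr j)) =
        ∑ u, (e u - e' u) * B u j * (x (Sum.inl u) - x (Sum.inr j)) +
        ∑ u, (e u - e' u) * B u j * (y (Sum.inl u) - y (Sum.inr j)) := by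
      rw [← sum_add_distrib]
      exact sum_congr rfl fun j _ => by simp only [Pi.add_apply]; ring
    rw [h5, hx j, hy j, add_zero]
  zero_mem' := fun j => by simp
  smul_mem' := by
    intro a x hx j
    have h5 : ∑ u, (e u - e' u) * B u j * ((a • x) (Sum.inl u) - (a • x) (Sum.inr j)) =
        a * ∑ u, (e u - e' u) * B u j * (x (Sum.inl u) - x (Sum.inr j)) := by
      rw [mul_sum]
      exact sum_congr rfl fun j _ => by simp only [Pi.smul_apply, smul_eq_mul]; ring
    rw [h5, hx j, mul_zero]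

theorem finrank_NN (e e' : U → ZMod 3) (B : U → J → ZMod 3) : finrank (ZMod 3) (NN e e' B) ≤
    Fintype.card U + (univ.filter fun j => ∑ u, (e u - e' u) * B u j = 0).card := by
  set S : Finset J := univ.filter fun j => ∑ u, (e u - e' u) * B u j = 0 with hS
  let g : NN e e' B →ₗ[ZMod 3] (U → ZMod 3) × (S → ZMod 3) :=
    { toFun := fun x => (fun u => (x : U ⊕ J → ZMod 3) (Sum.inl u), fun j => (x : U ⊕ J → ZMod 3) (Sum.inr j))
      map_add' := fun x y => rfl
      map_smul' := fun a x => rfl }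
  have hg : Function.Injective g := by
    rw [← LinearMap.ker_eq_bot, LinearMap.ker_eq_bot']
    rintro ⟨x, hx⟩ h
    apply Subtype.ext
    have h1 : ∀ u, x (Sum.inl u) = 0 := fun u => congrFun (congrArg Prod.fst h) u
    have h2 : ∀ j : S, x (Sum.inr j) = 0 := fun j => congrFun (congrArg Prod.snd h) j
    funext i
    rcases i with u | j
    · exact h1 u
    · show x (Sum.inr j) = 0
      by_cases hj : j ∈ S
      · exact h2 ⟨j, hj⟩
      · have h3 := hx j
        have h4 : ∑ u, (e u - e' u) * B u j * (x (Sum.inl u) - x (Sum.inr j)) =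
            -(x (Sum.inr j)) * ∑ u, (e u - e' u) * B u j := by
          rw [mul_sum]
          exact sum_congr rfl fun u _ => by rw [h1]; ring
        rw [h4] at h3
        rw [hS, mem_filter] at hj
        push Not at hj
        have h5 := (mul_eq_zero.1 h3).resolve_right (hj (mem_univ _))
        exact neg_eq_zero.1 h5
  have h1 := LinearMap.finrank_le_finrank_of_injective hg
  rwa [finrank_prod, finrank_fintype_fun_eq_card, finrank_fintype_fun_eq_card,
    Fintype.card_coe] at h1

theorem finrank_JJ0 (j₀ : J) : finrank (ZMod 3) (JJ (B0 e A B j₀) (B0 e' A B j₀) (W0 U J)) ≤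
    Fintype.card U + 1 + (Fintype.card U +
      (univ.filter fun j => ∑ u, (e u - e' u) * B u j = 0).card) := by
  set J' := JJ (B0 e A B j₀) (B0 e' A B j₀) (W0 U J) with hJ'
  let g : J' →ₗ[ZMod 3] W0 U J :=
    { toFun := fun p => ⟨(p : (U ⊕ J → ZMod 3) × (U ⊕ J → ZMod 3)).1 - (p : (U ⊕ J → ZMod 3) × (U ⊕ J → ZMod 3)).2, p.2.1⟩
      map_add' := fun p q => by
        apply Subtype.ext
        show (p : (U ⊕ J → ZMod 3) × (U ⊕ J → ZMod 3)).1 + (q : (U ⊕ J → ZMod 3) × (U ⊕ J → ZMod 3)).1 -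
          ((p : (U ⊕ J → ZMod 3) × (U ⊕ J → ZMod 3)).2 + (q : (U ⊕ J → ZMod 3) × (U ⊕ J → ZMod 3)).2) =
          ((p : (U ⊕ J → ZMod 3) × (U ⊕ J → ZMod 3)).1 - (p : (U ⊕ J → ZMod 3) × (U ⊕ J → ZMod 3)).2) +
          ((q : (U ⊕ J → ZMod 3) × (U ⊕ J → ZMod 3)).1 - (q : (U ⊕ J → ZMod 3) × (U ⊕ J → ZMod 3)).2)
        abel
      map_smul' := fun a p => by
        apply Subtype.ext
        show a • (p : (U ⊕ J → ZMod 3) × (U ⊕ J → ZMod 3)).1 - a • (p : (U ⊕ J → ZMod 3) × (U ⊕ J → ZMod 3)).2 =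
          a • ((p : (U ⊕ J → ZMod 3) × (U ⊕ J → ZMod 3)).1 - (p : (U ⊕ J → ZMod 3) × (U ⊕ J → ZMod 3)).2)
        rw [smul_sub] }
  have h1 := LinearMap.finrank_range_add_finrank_ker g
  have h2 : finrank (ZMod 3) (LinearMap.range g) ≤ Fintype.card U + 1 :=
    (Submodule.finrank_le _).trans (finrank_W0 j₀)
  have h3 : finrank (ZMod 3) (LinearMap.ker g) ≤ finrank (ZMod 3) (NN e e' B) := by
    have h4 : ∀ z : LinearMap.ker g, (((z : J') : (U ⊕ J → ZMod 3) × (U ⊕ J → ZMod 3))).1 ∈ NN e e' B := by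
      rintro ⟨⟨p, hp⟩, hz⟩ j
      have h5 : p.1 = p.2 := by
        have h6 := congrArg Subtype.val (LinearMap.mem_ker.1 hz)
        exact sub_eq_zero.1 h6
      have h6 := hp.2.1
      rw [← h5] at h6
      show ∑ u, (e u - e' u) * B u j * (p.1 (Sum.inl u) - p.1 (Sum.inr j)) = 0
      have h7 := LinearMap.congr_fun h6 (Pi.single (Sum.inr j) 1)
      unfold B0 at h7
      have key : ∀ (c : U ⊕ J → U ⊕ J → ZMod 3) (δ : U ⊕ J → ZMod 3) (x : U ⊕ J → ZMod 3) (i : U ⊕ J),
          Lp c δ x (Pi.single i 1) = ∑ j, c i j * (x j - x i) + δ i * x i := by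
        intro c δ x i
        rw [Lp_apply, sum_eq_single i]
        · rw [Pi.single_eq_same, mul_one]
        · intro j _ hj
          rw [Pi.single_eq_of_ne hj, mul_zero]
        · intro h
          exact absurd (mem_univ _) h
      rw [key, key, row_inr, row_inr] at h7
      have h8 : ∀ e : U → ZMod 3, dg (Sk J e) (Sum.inr j₀) (Sum.inr j : U ⊕ J) =
          if j = j₀ then 1 else 0 := by
        intro e
        unfold dg
        by_cases h : j = j₀
        · rw [if_pos (Or.inr (by rw [h])), if_pos h]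
        · rw [if_neg, if_neg h]
          rintro (h5 | h5)
          · exact h5 mem_Sk_inr
          · exact h (Sum.inr_injective h5)
      rw [h8, h8] at h7
      have h9 := add_right_cancel h7
      rw [← sub_eq_zero, ← sum_sub_distrib] at h9
      rw [← h9]
      exact sum_congr rfl fun u _ => by ring
    refine LinearMap.finrank_le_finrank_of_injective
      (f := LinearMap.codRestrict (NN e e' B) ((LinearMap.fst (ZMod 3) (U ⊕ J → ZMod 3) (U ⊕ J → ZMod 3)).comp
        (J'.subtype.comp (LinearMap.ker g).subtype)) h4) ?_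
    rintro ⟨⟨p, hp⟩, hz⟩ ⟨⟨q, hq⟩, hz'⟩ h
    have h5 : p.1 = q.1 := congrArg Subtype.val h
    have h6 : p.1 = p.2 := sub_eq_zero.1 (congrArg Subtype.val (LinearMap.mem_ker.1 hz))
    have h7 : q.1 = q.2 := sub_eq_zero.1 (congrArg Subtype.val (LinearMap.mem_ker.1 hz'))
    apply Subtype.ext
    apply Subtype.ext
    exact Prod.ext h5 (by rw [← h6, ← h7, h5])
  have h4 := finrank_NN e e' B
  omega

end main

theorem fcc2 {α : Type} {s : Finset α} {p : α → Prop} (i1 i2 : DecidablePred p) :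
    (@Finset.filter α p i1 s).card = (@Finset.filter α p i2 s).card := by
  have h : i1 = i2 := Subsingleton.elim _ _
  subst h
  rfl

/-- **LA** -/
theorem t_LA (M : ℕ) (r : Fin M → ℕ) (ε : ℝ) (hε : 0 < ε) : ∃ R : ℕ,
    ∀ (U J : Type) [Fintype U] [Fintype J] [LinearOrder J]
    (e : Fin M → U → ZMod 3) (A : U → U → ZMod 3) (B : U → J → ZMod 3),
    (∀ u v, A u v = A v u) →
    (∀ w : U → ZMod 3, w ≠ 0 → 2 * Fintype.card U + R ≤
      (univ.filter fun j => ∑ u, w u * B u j ≠ 0).card) →
    2 * Fintype.card U + R ≤ Fintype.card J → (∀ k l, k ≠ l → e k ≠ e l) →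
    |((univ.filter fun α : prs J → ZMod 3 => ∀ k,
        finrank (ZMod 3) (KS (cc (e k) A B (Pool.Agent.Y703.XK.ext α)) (Sk J (e k))) = r k + 1).card : ℝ) /
        3 ^ (prs J).card - ∏ k, gi * cf (r k)| ≤ ε := by
  obtain ⟨R, hR⟩ := thmR M r ε hε
  refine ⟨R + 2, ?_⟩
  intro U J _ _ _ e A B hA hB hJ he
  have hJ0 : 0 < Fintype.card J := by omega
  obtain ⟨j₀⟩ := Fintype.card_pos_iff.1 hJ0
  have hV : finrank (ZMod 3) (U ⊕ J → ZMod 3) = Fintype.card U + Fintype.card J := by
    rw [finrank_fintype_fun_eq_card, Fintype.card_sum]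
  have hW := finrank_W0 (U := U) j₀
  have hWle : finrank (ZMod 3) (W0 U J) ≤ finrank (ZMod 3) (U ⊕ J → ZMod 3) := Submodule.finrank_le _
  have key := hR (U ⊕ J → ZMod 3) (W0 U J) (fun k => B0 (e k) A B j₀)
    (Fintype.card J - 1 - R) (finrank (ZMod 3) (U ⊕ J → ZMod 3) - finrank (ZMod 3) (W0 U J))
    (fun k => Lp_symm (cc_symm hA fun _ _ => rfl) _)
    (fun k => nd_B0 (fun w hw => by have := hB w hw; omega) j₀)
    (fun k l hkl => by
      have h1 := finrank_JJ0 (e := e k) (e' := e l) (A := A) (B := B) j₀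
      have h2 := hB (e k - e l) (sub_ne_zero.2 (he k l hkl))
      have h3 := Finset.card_filter_add_card_filter_not (s := (univ : Finset J))
        (fun j => ∑ u, (e k u - e l u) * B u j = 0)
      have h4 : (univ.filter fun j => ∑ u, (e k - e l) u * B u j ≠ 0).card =
          (univ.filter fun j => ¬ ∑ u, (e k u - e l u) * B u j = 0).card := rfl
      rw [h4] at h2
      rw [card_univ] at h3
      omega) (by omega) (by omega) (by rw [hV]; omega)
  have hpos : (0 : ℝ) < 3 ^ (prs J).card := by positivity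
  rw [card_YYW] at key
  push_cast at key
  have h1 : ((YY (W0 U J)).filter fun Y => ∀ k,
      finrank (ZMod 3) (LinearMap.ker (B0 (e k) A B j₀ + Y)) = r k).card =
      (univ.filter fun α : prs J → ZMod 3 => ∀ k,
        finrank (ZMod 3) (KS (cc (e k) A B (Pool.Agent.Y703.XK.ext α)) (Sk J (e k))) = r k + 1).card := by
    have hf := card_fill (U := U) (J := J)
      (fun Y => ∀ k, finrank (ZMod 3) (LinearMap.ker (B0 (e k) A B j₀ + Y)) = r k)
    refine Eq.trans (fcc2 _ _) (hf.symm.trans ?_)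
    congr 1
    ext α
    simp only [mem_filter, mem_univ, true_and]
    refine forall_congr' fun k => ?_
    have h2 : B0 (e k) A B j₀ + YA U α =
        Lp (cc (e k) A B (Pool.Agent.Y703.XK.ext α)) (dg (Sk J (e k)) (Sum.inr j₀)) := by
      unfold B0 YA
      rw [Lp_add, cc_add]
    rw [h2, finrank_KS (cc_symm hA (ext_symm α)) (fun i j h => cc_zero i j h)
      (j₀ := Sum.inr j₀) mem_Sk_inr]
    omega
  rw [h1] at key
  rw [div_sub' hpos.ne', abs_div, abs_of_pos hpos, div_le_iff₀ hpos, mul_comm _ (∏ k, gi * cf (r k))]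
  exact key

end Q283.T3
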