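import Mathlib

/-! The law of large numbers from the laws of pairs -/

set_option autoImplicit false
set_option linter.unusedSectionVars false

open scoped Classical

namespace Q283.T3N

open Finset Filter

/-- **The law of large numbers.** -/
theorem lln {α : Type} (S : ℕ → Finset α) (P : ℕ → α → Prop) (p : ℝ)
    (hne : ∀ᶠ X in atTop, (S X).Nonempty)
    (h1 : ∀ k, Tendsto (fun X => (((S X).filter fun a => P k a).card : ℝ) / ((S X).card : ℝ))
      atTop (nhds p))
    (h2 : ∀ k l, k ≠ l → Tendsto (fun X => (((S X).filter fun a => P k a ∧ P l a).card : ℝ) /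
      ((S X).card : ℝ)) atTop (nhds (p * p)))
    (n : ℕ) (hn : 0 < n) (ε : ℝ) (hε : 0 < ε) (δ : ℝ) (hδ : 0 < δ) :
    ∀ᶠ X in atTop, (((S X).filter fun a =>
        ε ≤ |(((range n).filter fun k => P k a).card : ℝ) / n - p|).card : ℝ) /
      ((S X).card : ℝ) ≤ p * (1 - p) / (ε ^ 2 * n) + δ := by
  set f : ℕ → α → ℝ := fun k a => if P k a then 1 else 0 with hf
  have hn' : (0 : ℝ) < n := by exact_mod_cast hn
  have hsum : ∀ (T : Finset α) (Q : α → Prop),
      ∑ a ∈ T, (if Q a then (1 : ℝ) else 0) = ((T.filter fun a => Q a).card : ℝ) := by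
    intro T Q
    rw [sum_boole]
  have hcov : ∀ k l, Tendsto (fun X => (∑ a ∈ S X, (f k a - p) * (f l a - p)) / ((S X).card : ℝ))
      atTop (nhds (if k = l then p * (1 - p) else 0)) := by
    intro k l
    have hpair : Tendsto (fun X => (((S X).filter fun a => P k a ∧ P l a).card : ℝ) /
        ((S X).card : ℝ)) atTop (nhds (if k = l then p else p * p)) := by
      by_cases hkl : k = l
      · subst hkl
        rw [if_pos rfl]
        simp only [and_self]
        exact h1 k
      · rw [if_neg hkl]
        exact h2 k l hkl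
    have h3 := ((hpair.sub ((h1 k).const_mul p)).sub ((h1 l).const_mul p)).add_const (p * p)
    have h4 : (if k = l then p else p * p) - p * p - p * p + p * p =
        if k = l then p * (1 - p) else 0 := by
      split_ifs <;> ring
    rw [h4] at h3
    refine h3.congr' ?_
    filter_upwards [hne] with X hX
    have hpos : (0 : ℝ) < (S X).card := by exact_mod_cast hX.card_pos
    have e1 : ∀ a, (f k a - p) * (f l a - p) = (if P k a ∧ P l a then (1 : ℝ) else 0) -
        p * (if P k a then (1 : ℝ) else 0) - p * (if P l a then (1 : ℝ) else 0) + p * p := by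
      intro a
      rw [hf]
      by_cases u : P k a <;> by_cases v : P l a <;> simp [u, v] <;> ring
    have e2 : ∑ a ∈ S X, (f k a - p) * (f l a - p) =
        (((S X).filter fun a => P k a ∧ P l a).card : ℝ) -
          p * (((S X).filter fun a => P k a).card : ℝ) -
          p * (((S X).filter fun a => P l a).card : ℝ) + p * p * (S X).card := by
      rw [sum_congr rfl fun a _ => e1 a, sum_add_distrib, sum_sub_distrib, sum_sub_distrib,
        ← mul_sum, ← mul_sum, sum_boole, hsum, hsum, sum_const, nsmul_eq_mul]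
      ring
    rw [e2]
    field_simp
  have htot : Tendsto (fun X => (∑ a ∈ S X, (∑ k ∈ range n, (f k a - p)) ^ 2) / ((S X).card : ℝ))
      atTop (nhds (n * (p * (1 - p)))) := by
    have h3 : Tendsto (fun X => ∑ k ∈ range n, ∑ l ∈ range n,
        (∑ a ∈ S X, (f k a - p) * (f l a - p)) / ((S X).card : ℝ)) atTop
        (nhds (∑ k ∈ range n, ∑ l ∈ range n, if k = l then p * (1 - p) else 0)) :=
      tendsto_finsetSum _ fun k _ => tendsto_finsetSum _ fun l _ => hcov k l
    have h4 : ∑ k ∈ range n, ∑ l ∈ range n, (if k = l then p * (1 - p) else 0) =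
        n * (p * (1 - p)) := by
      have : ∀ k ∈ range n, ∑ l ∈ range n, (if k = l then p * (1 - p) else 0) = p * (1 - p) := by
        intro k hk
        rw [sum_ite_eq, if_pos hk]
      rw [sum_congr rfl this, sum_const, card_range, nsmul_eq_mul]
    rw [h4] at h3
    refine h3.congr fun X => ?_
    have e1 : ∑ a ∈ S X, (∑ k ∈ range n, (f k a - p)) ^ 2 =
        ∑ k ∈ range n, ∑ l ∈ range n, ∑ a ∈ S X, (f k a - p) * (f l a - p) := by
      simp only [pow_two, sum_mul_sum]
      rw [sum_comm]
      refine sum_congr rfl fun k _ => ?_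
      rw [sum_comm]
    rw [e1, sum_div]
    exact sum_congr rfl fun k _ => by rw [sum_div]
  have h5 : 0 < ε ^ 2 * (n : ℝ) ^ 2 := by positivity
  have h6 := (tendsto_order.1 (htot.div_const (ε ^ 2 * (n : ℝ) ^ 2))).2
    (p * (1 - p) / (ε ^ 2 * n) + δ) (by
      have : n * (p * (1 - p)) / (ε ^ 2 * (n : ℝ) ^ 2) = p * (1 - p) / (ε ^ 2 * n) := by
        field_simp
      rw [this]
      linarith)
  filter_upwards [h6] with X hX
  refine le_trans ?_ hX.le
  rw [div_right_comm]
  refine div_le_div_of_nonneg_right ?_ (Nat.cast_nonneg _)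
  rw [le_div_iff₀ h5]
  have e3 : ∀ a, ∑ k ∈ range n, (f k a - p) =
      n * ((((range n).filter fun k => P k a).card : ℝ) / n - p) := by
    intro a
    rw [sum_sub_distrib, sum_const, card_range, nsmul_eq_mul]
    have : ∑ k ∈ range n, f k a = (((range n).filter fun k => P k a).card : ℝ) := by
      rw [hf]
      exact sum_boole _ _
    rw [this]
    field_simp
  calc (((S X).filter fun a => ε ≤ |(((range n).filter fun k => P k a).card : ℝ) / n - p|).card : ℝ)
        * (ε ^ 2 * (n : ℝ) ^ 2)
      = ∑ a ∈ (S X).filter fun a => ε ≤ |(((range n).filter fun k => P k a).card : ℝ) / n - p|,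
          ε ^ 2 * (n : ℝ) ^ 2 := by rw [sum_const, nsmul_eq_mul]
    _ ≤ ∑ a ∈ (S X).filter fun a => ε ≤ |(((range n).filter fun k => P k a).card : ℝ) / n - p|,
          (∑ k ∈ range n, (f k a - p)) ^ 2 := by
        refine sum_le_sum fun a ha => ?_
        rw [e3 a, mul_pow, mul_comm]
        refine mul_le_mul_of_nonneg_left ?_ (by positivity)
        rw [← sq_abs ((((range n).filter fun k => P k a).card : ℝ) / n - p)]
        exact pow_le_pow_left₀ hε.le (mem_filter.1 ha).2 2
    _ ≤ ∑ a ∈ S X, (∑ k ∈ range n, (f k a - p)) ^ 2 :=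
        sum_le_sum_of_subset_of_nonneg (filter_subset _ _) fun a _ _ => sq_nonneg _

/-- for almost all `a` at least `N` of the events occur -/
theorem many {α : Type} (S : ℕ → Finset α) (P : ℕ → α → Prop) (p : ℝ) (hp : 0 < p)
    (hne : ∀ᶠ X in atTop, (S X).Nonempty)
    (h1 : ∀ k, Tendsto (fun X => (((S X).filter fun a => P k a).card : ℝ) / ((S X).card : ℝ))
      atTop (nhds p))
    (h2 : ∀ k l, k ≠ l → Tendsto (fun X => (((S X).filter fun a => P k a ∧ P l a).card : ℝ) /
      ((S X).card : ℝ)) atTop (nhds (p * p))) (N : ℕ) :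
    Tendsto (fun X => (((S X).filter fun a =>
        ∃ F : Finset ℕ, F.card = N ∧ ∀ k ∈ F, P k a).card : ℝ) / ((S X).card : ℝ))
      atTop (nhds 1) := by
  rw [tendsto_order]
  constructor
  · intro b hb
    obtain ⟨n, hn⟩ := exists_nat_gt (max (2 * N / p) (8 * |p * (1 - p)| / (p ^ 2 * (1 - b))))
    have hn1 : 2 * N / p < n := (le_max_left _ _).trans_lt hn
    have hn2 : 8 * |p * (1 - p)| / (p ^ 2 * (1 - b)) < n := (le_max_right _ _).trans_lt hn
    have hn0 : (0 : ℝ) < n := lt_of_le_of_lt (by positivity) hn1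
    have hn0' : 0 < n := by exact_mod_cast hn0
    have hb' : 0 < 1 - b := by linarith
    filter_upwards [lln S P p hne h1 h2 n hn0' (p / 2) (by positivity) ((1 - b) / 4)
      (by positivity), hne] with X hX hX'
    have hpos : (0 : ℝ) < (S X).card := by exact_mod_cast hX'.card_pos
    have h3 : p * (1 - p) / ((p / 2) ^ 2 * n) ≤ (1 - b) / 2 := by
      rw [div_le_iff₀ (by positivity)]
      rw [div_lt_iff₀ (by positivity)] at hn2
      have := le_abs_self (p * (1 - p))
      nlinarith
    have h4 : (((S X).filter fun a => ¬ ∃ F : Finset ℕ, F.card = N ∧ ∀ k ∈ F, P k a).card : ℝ) /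
        ((S X).card : ℝ) ≤ (1 - b) / 2 + (1 - b) / 4 := by
      refine le_trans ?_ (hX.trans (by linarith))
      refine div_le_div_of_nonneg_right ?_ (Nat.cast_nonneg _)
      rw [Nat.cast_le]
      refine card_le_card fun a ha => ?_
      rw [mem_filter] at ha ⊢
      refine ⟨ha.1, ?_⟩
      by_contra hlt
      rw [not_le, abs_lt] at hlt
      apply ha.2
      have h5 : (N : ℝ) ≤ (((range n).filter fun k => P k a).card : ℝ) := by
        have h6 : p / 2 < (((range n).filter fun k => P k a).card : ℝ) / n := by linarith [hlt.1]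
        rw [lt_div_iff₀ hn0] at h6
        rw [div_lt_iff₀ hp] at hn1
        nlinarith
      obtain ⟨F, hF, hFc⟩ := exists_subset_card_eq (by exact_mod_cast h5 :
        N ≤ ((range n).filter fun k => P k a).card)
      exact ⟨F, hFc, fun k hk => (mem_filter.1 (hF hk)).2⟩
    have h7 : (((S X).filter fun a => ∃ F : Finset ℕ, F.card = N ∧ ∀ k ∈ F, P k a).card : ℝ) /
          ((S X).card : ℝ) +
        (((S X).filter fun a => ¬ ∃ F : Finset ℕ, F.card = N ∧ ∀ k ∈ F, P k a).card : ℝ) /
          ((S X).card : ℝ) = 1 := by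
      rw [← add_div, div_eq_one_iff_eq hpos.ne']
      exact_mod_cast card_filter_add_card_filter_not (s := S X)
        (fun a => ∃ F : Finset ℕ, F.card = N ∧ ∀ k ∈ F, P k a)
    linarith
  · intro b hb
    refine Eventually.of_forall fun X => lt_of_le_of_lt ?_ hb
    refine div_le_one_of_le₀ ?_ (Nat.cast_nonneg _)
    exact_mod_cast card_filter_le _ _

end Q283.T3N
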