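import Pool.Agent.Q283.T3.LawK

/-! The joint law over `K`, for all sets of vectors, and for the sets of the trivial twists -/

set_option autoImplicit false
set_option linter.unusedSectionVars false

open scoped Classical

namespace Q283.T3B

open Finset Module NumberField Filter
open Pool.Agent.Y692.QS (Ei nr w)
open Pool.Agent.Y703.CT (ClsE)
open Pool.Agent.Y703.XK (SS c9)
open Pool.Agent.XL6 (SelK)
open Pool.Agent.Y696.CTK (ED Tri Parts parts ClsK)
open Pool.Agent.Y696.XK (cls_iff img_ncard)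
open Pool.Agent.Y703.XL (cr)
open Q283.T3 (ex KT GG gi cf c_eq)
open Q283.T3A (AV t_ASYV)

/-- the sum of the law -/
theorem sum_cr : HasSum cr 1 := Pool.Agent.Y703.XL.t_SUM'

theorem cr_nonneg (r : ℕ) : 0 ≤ cr r := by
  have h := Q283.T3A.c_bounds (M := 1) (fun _ => r)
  rw [Fin.prod_univ_one, c_eq Pool.Agent.Y703.XL.t_LIM] at h
  exact h.1

theorem hasSum_pi : ∀ {M : ℕ} (g : Fin M → ℕ → ℝ) (s : Fin M → ℝ), (∀ k r, 0 ≤ g k r) →
    (∀ k, HasSum (g k) (s k)) → HasSum (fun r : Fin M → ℕ => ∏ k, g k (r k)) (∏ k, s k)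
  | 0, g, s, _, _ => by
    have h := hasSum_unique (fun r : Fin 0 → ℕ => ∏ k, g k (r k))
    simp
  | M + 1, g, s, h0, hs => by
    have ih := hasSum_pi (fun k : Fin M => g k.succ) (fun k => s k.succ) (fun k => h0 k.succ)
      (fun k => hs k.succ)
    have h1 : HasSum (fun p : ℕ × (Fin M → ℕ) => g 0 p.1 * ∏ k, g k.succ (p.2 k))
        (s 0 * ∏ k : Fin M, s k.succ) :=
      (hs 0).mul ih ((hs 0).summable.mul_of_nonneg ih.summable (fun r => h0 0 r)
        fun r => prod_nonneg fun k _ => h0 _ _)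
    rw [Fin.prod_univ_succ]
    rw [← (Fin.consEquiv (fun _ : Fin (M + 1) => ℕ)).hasSum_iff]
    refine h1.congr_fun ?_
    intro p
    show ∏ k, g k (Fin.cons (α := fun _ => ℕ) p.1 p.2 k) = _
    rw [Fin.prod_univ_succ]
    simp

theorem sum_pi (M : ℕ) : HasSum (fun r : Fin M → ℕ => ∏ k, cr (r k)) 1 := by
  have h := hasSum_pi (M := M) (fun _ => cr) (fun _ => 1) (fun _ => cr_nonneg) (fun _ => sum_cr)
  rwa [prod_const_one] at h

/-- pointwise convergence to a law implies the convergence for all sets -/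
theorem scheffe {α ι : Type} (S : ℕ → Finset α) (f : α → ι) (p : ι → ℝ) (hs : HasSum p 1)
    (hne : ∀ᶠ X in atTop, (S X).Nonempty)
    (h : ∀ i, Tendsto (fun X => (((S X).filter fun a => f a = i).card : ℝ) / ((S X).card : ℝ))
      atTop (nhds (p i))) (T : Set ι) :
    Tendsto (fun X => (((S X).filter fun a => f a ∈ T).card : ℝ) / ((S X).card : ℝ))
      atTop (nhds (∑' i : T, p i)) := by
  have key : ∀ T : Set ι, ∀ ε : ℝ, 0 < ε → ∀ᶠ X in atTop,
      ∑' i : T, p i - ε < (((S X).filter fun a => f a ∈ T).card : ℝ) / ((S X).card : ℝ) := by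
    intro T ε hε
    have h1 : HasSum (fun i : T => p i) (∑' i : T, p i) := (hs.summable.subtype T).hasSum
    have h2 := (tendsto_order.1 h1).1 (∑' i : T, p i - ε / 2) (by linarith)
    obtain ⟨F, hF⟩ := (eventually_atTop.1 h2)
    have hF := hF F le_rfl
    have h3 : Tendsto (fun X => ∑ i ∈ F, (((S X).filter fun a => f a = (i : ι)).card : ℝ) /
        ((S X).card : ℝ)) atTop (nhds (∑ i ∈ F, p i)) :=
      tendsto_finsetSum _ fun i _ => h i
    have h4 := (tendsto_order.1 h3).1 (∑ i ∈ F, p i - ε / 2) (by linarith)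
    filter_upwards [h4] with X hX
    refine lt_of_lt_of_le (by linarith) (hX.le.trans ?_)
    rw [← sum_div]
    refine div_le_div_of_nonneg_right ?_ (Nat.cast_nonneg _)
    rw [← Nat.cast_sum, Nat.cast_le]
    rw [← card_biUnion]
    · refine card_le_card ?_
      intro a ha
      obtain ⟨i, hi, ha⟩ := mem_biUnion.1 ha
      rw [mem_filter] at ha ⊢
      refine ⟨ha.1, ?_⟩
      rw [ha.2]
      exact i.2
    · intro i _ l _ hil
      refine disjoint_filter.2 fun a _ h1 h2 => hil (Subtype.ext (h1.symm.trans h2))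
  have hc : ∑' i : T, p i + ∑' i : (Tᶜ : Set ι), p i = 1 := by
    rw [(hs.summable.subtype T).tsum_add_tsum_compl (hs.summable.subtype _), hs.tsum_eq]
  rw [tendsto_order]
  constructor
  · intro a ha
    filter_upwards [key T (∑' i : T, p i - a) (by linarith)] with X hX
    linarith
  · intro a ha
    filter_upwards [key Tᶜ (a - ∑' i : T, p i) (by linarith), hne] with X hX hn
    have hpos : (0 : ℝ) < (S X).card := by exact_mod_cast hn.card_pos
    have h1 : (((S X).filter fun a => f a ∈ T).card : ℝ) / ((S X).card : ℝ) +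
        (((S X).filter fun a => ¬ f a ∈ T).card : ℝ) / ((S X).card : ℝ) = 1 := by
      rw [← add_div, div_eq_one_iff_eq hpos.ne']
      exact_mod_cast card_filter_add_card_filter_not (s := S X) (fun a => f a ∈ T)
    have h2 := lt_of_lt_of_eq hX (congrArg (fun n : ℕ => (n : ℝ) / ((S X).card : ℝ))
      (Pool.Agent.XLK.fcc (q := fun a => ¬ f a ∈ T) (i2 := inferInstance) fun a _ => Iff.rfl))
    linarith

variable {K : Type} [Field K] [NumberField K]

/-- the class has positive density -/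
theorem low_K (K : Type) [Field K] [NumberField K] [IsCyclotomicExtension {3} ℚ K] (B : 𝓞 K)
    (hB : B ≠ 0) : ∃ c : ℝ, 0 < c ∧ ∃ X₀ : ℕ, ∀ X : ℕ, X₀ ≤ X →
      c * X ≤ ({D : 𝓞 K | Algebra.norm ℤ D ≤ X ∧ ClsK D ∧ NC D B}.ncard : ℝ) := by
  obtain ⟨⟨j, hj⟩, -⟩ := Pool.Agent.Y455.CTK.jex K
  obtain ⟨b, rfl⟩ := j.surjective B
  have hb : b ≠ 0 := fun h => hB (by rw [h, map_zero])
  obtain ⟨c, X₀, hc, h⟩ := Q283.T3A.low_V (Pool.Agent.Y699.E.PD b)
  refine ⟨c, hc, X₀, fun X hX => (h X hX).trans (le_of_eq ?_)⟩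
  congr 1
  rw [← Pool.Agent.Y550.XK.NS.card_eq X (AV (Pool.Agent.Y699.E.PD b))]
  refine (img_ncard j hj X (fun D => ClsE D ∧ AV (Pool.Agent.Y699.E.PD b) (Pool.Agent.Y699.E.PD D))
    _ fun D => ?_).symm
  rw [cls_iff j hj D]
  refine and_congr_right fun hD => ?_
  rw [nc_iff j hD.1 hb]

theorem fin_K (K : Type) [Field K] [NumberField K] [IsCyclotomicExtension {3} ℚ K] (B : 𝓞 K)
    (hB : B ≠ 0) (X : ℕ) : {D : 𝓞 K | Algebra.norm ℤ D ≤ X ∧ ClsK D ∧ NC D B}.Finite := by
  obtain ⟨c, hc, X₀, h⟩ := low_K K B hB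
  have h1 := h (X + X₀ + 1) (by omega)
  have h2 : (0 : ℝ) < ({D : 𝓞 K | Algebra.norm ℤ D ≤ ((X + X₀ + 1 : ℕ) : ℤ) ∧ ClsK D ∧
      NC D B}.ncard : ℝ) := lt_of_lt_of_le (by positivity) h1
  have h3 := Set.finite_of_ncard_pos (by exact_mod_cast h2 :
    0 < {D : 𝓞 K | Algebra.norm ℤ D ≤ ((X + X₀ + 1 : ℕ) : ℤ) ∧ ClsK D ∧ NC D B}.ncard)
  refine h3.subset ?_
  rintro D ⟨h4, h5, h6⟩
  exact ⟨h4.trans (by exact_mod_cast (by omega : X ≤ X + X₀ + 1)), h5, h6⟩

/-- the vector of the coranks -/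
noncomputable def rv {M : ℕ} (m : Fin M → 𝓞 K) (D : 𝓞 K) : Fin M → ℕ :=
  fun k => Nat.log 3 (SelK ((D * m k : 𝓞 K) : K)).ncard - 1

theorem rv_iff [IsCyclotomicExtension {3} ℚ K] {M : ℕ} {m : Fin M → 𝓞 K} (hm : Msk m) {D : 𝓞 K}
    (hD : ClsK D) (r : Fin M → ℕ) :
    (∀ k, (SelK ((D * m k : 𝓞 K) : K)).ncard = 3 ^ (r k + 1)) ↔ rv m D = r := by
  constructor
  · intro h
    funext k
    unfold rv
    rw [h k, Nat.log_pow (by norm_num), Nat.add_sub_cancel]
  · rintro rfl k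
    obtain ⟨s, hs, -, -⟩ := one_D hD (hm.three k) (hm.nine k)
    have h1 : rv m D k = s := by
      unfold rv
      rw [hs, Nat.log_pow (by norm_num), Nat.add_sub_cancel]
    rw [h1, hs]

theorem ncard_coe {α : Type} {s : Set α} (hs : s.Finite) (p : α → Prop) :
    {a | a ∈ s ∧ p a}.ncard = (hs.toFinset.filter p).card := by
  rw [← Set.ncard_coe_finset]
  congr 1
  ext a
  simp

/-- **The joint law, for all sets of vectors** -/
theorem law_T (K : Type) [Field K] [NumberField K] [IsCyclotomicExtension {3} ℚ K] {M : ℕ}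
    (m : Fin M → 𝓞 K) (hm : Msk m) (B : 𝓞 K) (hB : B ≠ 0) (T : Set (Fin M → ℕ)) :
    Tendsto (fun X : ℕ =>
      ({D : 𝓞 K | Algebra.norm ℤ D ≤ X ∧ ClsK D ∧ NC D B ∧
        ∃ r ∈ T, ∀ k, (SelK ((D * m k : 𝓞 K) : K)).ncard = 3 ^ (r k + 1)}.ncard : ℝ) /
        ({D : 𝓞 K | Algebra.norm ℤ D ≤ X ∧ ClsK D ∧ NC D B}.ncard : ℝ)) atTop
      (nhds (∑' r : T, ∏ k, cr (r.1 k))) := by
  obtain ⟨c, hc, X₀, hlow⟩ := low_K K B hB
  have key : ∀ (p : 𝓞 K → Prop) (X : ℕ),
      {D : 𝓞 K | Algebra.norm ℤ D ≤ X ∧ ClsK D ∧ NC D B ∧ p D}.ncard =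
        ((fin_K K B hB X).toFinset.filter p).card := by
    intro p X
    rw [← ncard_coe]
    congr 1
    ext D
    simp only [Set.mem_setOf_eq]
    tauto
  have key0 : ∀ X : ℕ, {D : 𝓞 K | Algebra.norm ℤ D ≤ X ∧ ClsK D ∧ NC D B}.ncard =
      (fin_K K B hB X).toFinset.card := fun X => Set.ncard_eq_toFinset_card _ _
  have hne : ∀ᶠ X : ℕ in atTop, ((fin_K K B hB X).toFinset).Nonempty := by
    filter_upwards [eventually_ge_atTop (X₀ + 1)] with X hX
    rw [← Finset.card_pos, ← key0]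
    have h1 := hlow X (by omega)
    have h2 : (0 : ℝ) < c * X := mul_pos hc (by exact_mod_cast (by omega : 0 < X))
    exact_mod_cast lt_of_lt_of_le h2 h1
  have h := scheffe (fun X : ℕ => (fin_K K B hB X).toFinset) (rv m)
    (fun r => ∏ k, cr (r k)) (sum_pi M) hne (fun r => ?_) T
  · refine h.congr fun X => ?_
    rw [key0, key]
    congr 2
    refine Pool.Agent.XLK.fcc fun D hD => ?_
    have hD' := ((fin_K K B hB X).mem_toFinset.1 hD).2.1
    constructor
    · intro h1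
      exact ⟨_, h1, (rv_iff hm hD' _).2 rfl⟩
    · rintro ⟨r, h1, h2⟩
      rwa [(rv_iff hm hD' r).1 h2]
  · refine (law K m hm B hB r).congr fun X => ?_
    rw [key0, key]
    congr 2
    refine Pool.Agent.XLK.fcc fun D hD => ?_
    exact rv_iff hm ((fin_K K B hB X).mem_toFinset.1 hD).2.1 r

/-- the set of the trivial twists -/
theorem law_A (K : Type) [Field K] [NumberField K] [IsCyclotomicExtension {3} ℚ K] {M : ℕ}
    (m : Fin M → 𝓞 K) (hm : Msk m) (B : 𝓞 K) (hB : B ≠ 0) (A : Finset (Fin M)) :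
    Tendsto (fun X : ℕ =>
      ({D : 𝓞 K | Algebra.norm ℤ D ≤ X ∧ ClsK D ∧ NC D B ∧
        ∀ k, (Tri (D * m k) ↔ k ∈ A)}.ncard : ℝ) /
        ({D : 𝓞 K | Algebra.norm ℤ D ≤ X ∧ ClsK D ∧ NC D B}.ncard : ℝ)) atTop
      (nhds (c9 ^ A.card * (1 - c9) ^ (M - A.card))) := by
  have h := law_T K m hm B hB {r | ∀ k, (r k = 0 ↔ k ∈ A)}
  have hs : ∑' r : {r : Fin M → ℕ | ∀ k, (r k = 0 ↔ k ∈ A)}, ∏ k, cr (r.1 k) =
      c9 ^ A.card * (1 - c9) ^ (M - A.card) := by
    have h0 : cr 0 = c9 := by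
      unfold Pool.Agent.Y703.XL.cr
      rw [range_zero, prod_empty, div_one]
    have h1 : ∀ k : Fin M, HasSum (fun r : ℕ => if (r = 0 ↔ k ∈ A) then cr r else 0)
        (if k ∈ A then c9 else 1 - c9) := by
      intro k
      by_cases hk : k ∈ A
      · rw [if_pos hk, ← h0]
        have : (fun r : ℕ => if (r = 0 ↔ k ∈ A) then cr r else 0) =
            fun r => if r = 0 then cr 0 else 0 := by
          funext r
          by_cases hr : r = 0
          · subst hr
            simp [hk]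
          · simp [hk, hr]
        rw [this]
        exact hasSum_ite_eq 0 (cr 0)
      · rw [if_neg hk, ← h0]
        have h2 : HasSum (fun r : ℕ => if r = 0 then cr 0 else 0) (cr 0) := hasSum_ite_eq 0 (cr 0)
        refine (sum_cr.sub h2).congr_fun ?_
        intro r
        by_cases hr : r = 0
        · subst hr
          simp [hk]
        · simp [hk, hr]
    have h2 := hasSum_pi (M := M) (fun k r => if (r = 0 ↔ k ∈ A) then cr r else 0) _
      (fun k r => by
        show 0 ≤ if (r = 0 ↔ k ∈ A) then cr r else 0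
        split_ifs
        · exact cr_nonneg r
        · exact le_rfl) h1
    rw [tsum_subtype {r : Fin M → ℕ | ∀ k, (r k = 0 ↔ k ∈ A)} fun r => ∏ k, cr (r k)]
    have h3 : (fun r : Fin M → ℕ => ({r : Fin M → ℕ | ∀ k, (r k = 0 ↔ k ∈ A)}.indicator
        fun r => ∏ k, cr (r k)) r) =
        fun r => ∏ k, if (r k = 0 ↔ k ∈ A) then cr (r k) else 0 := by
      funext r
      by_cases hr : ∀ k, (r k = 0 ↔ k ∈ A)
      · rw [Set.indicator_of_mem (show r ∈ {r : Fin M → ℕ | ∀ k, (r k = 0 ↔ k ∈ A)} from hr)]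
        exact prod_congr rfl fun k _ => (if_pos (hr k)).symm
      · rw [Set.indicator_of_notMem (show r ∉ {r : Fin M → ℕ | ∀ k, (r k = 0 ↔ k ∈ A)} from hr)]
        obtain ⟨k, hk⟩ := not_forall.1 hr
        exact (prod_eq_zero (mem_univ k) (if_neg hk)).symm
    rw [h3, h2.tsum_eq, prod_ite, prod_const, prod_const]
    congr 2
    · congr 1
      ext k
      simp
    · have e : (univ.filter fun k : Fin M => k ∉ A) = univ \ A := by
        ext k
        simp
      rw [e, card_sdiff_of_subset (subset_univ A), card_univ, Fintype.card_fin]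
  rw [hs] at h
  refine h.congr fun X => ?_
  congr 3
  ext D
  refine and_congr_right fun _ => and_congr_right fun hD => and_congr_right fun _ => ?_
  have ho : ∀ k, ∃ r : ℕ, (SelK ((D * m k : 𝓞 K) : K)).ncard = 3 ^ (r + 1) ∧
      (r = 0 ↔ Tri (D * m k)) := fun k => by
    obtain ⟨r, h1, -, h2⟩ := one_D hD (hm.three k) (hm.nine k)
    exact ⟨r, h1, h2⟩
  constructor
  · rintro ⟨r, h1, h2⟩ k
    obtain ⟨s, h3, h4⟩ := ho k
    have h5 : r k = s := by
      have := Nat.pow_right_injective (by norm_num : 2 ≤ 3) ((h2 k).symm.trans h3)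
      omega
    rw [← h4, ← h5]
    exact h1 k
  · intro h1
    choose r h2 h3 using ho
    exact ⟨r, fun k => (h3 k).trans (h1 k), h2⟩

end Q283.T3B
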