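import Pool.Agent.Q283.T3.Gen

/-! The sets with few separating primes -/

set_option autoImplicit false

open scoped Classical

namespace Q283.T3

open Finset Filter
open Pool.Agent.Y692.QS (Ei)
open Pool.Agent.Y715.T.Rec (cs)
open Pool.Agent.Y715.T.RecG (Pq)
open Pool.Agent.Y699.E
open Pool.Agent.Y703.CX (eL zz kk)
open Pool.Agent.Y703.XK
open Pool.Agent.Y433.XK (M_le eulerE pN pN_pos small_sum fiber_le)

/-- the labels of the large primes separate the functions on the small primes -/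
def NdF (R : ℕ) (W S₀ S₁ : Finset Ei) : Prop :=
  (∀ v : Ei → ZMod 3, (∃ u ∈ S₀ ∪ W, v u ≠ 0) →
    2 * (S₀ ∪ W).card + R ≤ (S₁.filter fun π => ∑ u ∈ S₀ ∪ W, v u * cs u π ≠ 0).card) ∧
  2 * (S₀ ∪ W).card + R ≤ S₁.card

theorem few2 (V : ℕ) (X : ℕ) (S₀ : Finset Ei) (hS₀ : ∀ u ∈ S₀, Pq u ∧ nrm u ≤ zz X)
    (F : Finset (Finset Ei))
    (hF : ∀ S ∈ F, S ∈ SS X ∧ (S.card ≤ kk X ∧ (la (zz X) S).card ≤ 2 * (sm (zz X) S).card + V) ∧
      sm (zz X) S = S₀) : (F.card : ℝ) ≤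
        441 * (3 / 2) ^ V * (9 / 4) ^ S₀.card * lg (pN S₀) * (((X / pN S₀ : ℕ) : ℝ) *
          (lg (X / pN S₀)) ^ (-(1 / 3) : ℝ)) := by
  have h := fiber_le X (zz X) S₀ (fun u hu => (hS₀ u hu).1)
    F (fun S hS => ⟨(hF S hS).1, (hF S hS).2.2⟩) (fun _ => 2 / 3) (fun _ => by norm_num)
    ((2 / 3) ^ (2 * S₀.card + V)) (fun S hS => by
        replace hS := hF S hS
        rw [prod_const]
        refine pow_le_pow_of_le_one (by norm_num) (by norm_num) ?_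
        have := hS.2.1.2
        rw [hS.2.2] at this
        exact this)
  have h2 := h.trans (hall0 (X / pN S₀))
  have hlg := one_le_lg (pN S₀)
  have h3 : (3 / 2 : ℝ) ^ (2 * S₀.card + V) * (2 / 3) ^ (2 * S₀.card + V) = 1 := by
    rw [← mul_pow]
    norm_num
  set c := (F.card : ℝ) with hcdef
  have hTl : 0 ≤ ((X / pN S₀ : ℕ) : ℝ) * (lg (X / pN S₀)) ^ (-(1 / 3) : ℝ) :=
    mul_nonneg (Nat.cast_nonneg _) (Real.rpow_nonneg (zero_le_one.trans (one_le_lg _)) _)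
  have e : (3 / 2 : ℝ) ^ (2 * S₀.card + V) = (3 / 2) ^ V * (9 / 4) ^ S₀.card := by
    rw [pow_add, pow_mul, mul_comm]
    norm_num
  calc c = (3 / 2 : ℝ) ^ (2 * S₀.card + V) * (c * (2 / 3) ^ (2 * S₀.card + V)) := by
        linear_combination (-c) * h3
    _ ≤ (3 / 2 : ℝ) ^ (2 * S₀.card + V) * (441 * (((X / pN S₀ : ℕ) : ℝ) *
          (lg (X / pN S₀)) ^ (-(1 / 3) : ℝ))) := mul_le_mul_of_nonneg_left h2 (by positivity)
    _ = (441 * (3 / 2) ^ V * (9 / 4) ^ S₀.card) * 1 * (((X / pN S₀ : ℕ) : ℝ) *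
          (lg (X / pN S₀)) ^ (-(1 / 3) : ℝ)) := by rw [e]; ring
    _ ≤ (441 * (3 / 2) ^ V * (9 / 4) ^ S₀.card) * lg (pN S₀) * (((X / pN S₀ : ℕ) : ℝ) *
          (lg (X / pN S₀)) ^ (-(1 / 3) : ℝ)) := by gcongr

theorem t_FEW2 (R : ℕ) (W : Finset Ei) (ε : ℝ) (hε : 0 < ε) : ∃ X₀ : ℕ, ∀ X : ℕ, X₀ ≤ X →
    (((SS X).filter fun S => S.card ≤ kk X ∧
      ¬ 2 * (sm (zz X) S ∪ W).card + R ≤ (la (zz X) S).card).card : ℝ) ≤ ε * X := by
  obtain ⟨X₀, hX₀⟩ := Pool.Agent.Y433.XK.gen (9 / 4) (441 * (3 / 2) ^ (2 * W.card + R)) (by norm_num)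
    (by positivity) (fun X S => (la (zz X) S).card ≤ 2 * (sm (zz X) S).card + (2 * W.card + R))
    (fun X S₀ hS₀ _ F hF => few2 (2 * W.card + R) X S₀ hS₀ F hF) ε hε
  refine ⟨X₀, fun X hX => hX₀ X hX _ fun S hS => ?_⟩
  rw [mem_filter] at hS
  refine ⟨hS.1, hS.2.1, ?_⟩
  have h1 := card_union_le (sm (zz X) S) W
  have h2 := hS.2.2
  omega

/-- the separating primes of two sets -/
noncomputable def sp (A B T : Finset Ei) : Finset Ei :=
  T.filter fun π => ∑ u ∈ A, cs u π - ∑ u ∈ B, cs u π ≠ 0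

theorem notNdF {R : ℕ} {U T : Finset Ei} (h : ¬ ∀ v : Ei → ZMod 3, (∃ u ∈ U, v u ≠ 0) →
    2 * U.card + R ≤ (T.filter fun π => ∑ u ∈ U, v u * cs u π ≠ 0).card) :
    ∃ A B : Finset Ei, A ⊆ U ∧ B ⊆ U ∧ Disjoint A B ∧ A ≠ B ∧ (sp A B T).card ≤ 2 * U.card + R := by
  push Not at h
  obtain ⟨v, ⟨u, hu, hu0⟩, h2⟩ := h
  refine ⟨U.filter fun u => v u = 1, U.filter fun u => v u = 2, filter_subset _ _,
    filter_subset _ _, ?_, ?_, ?_⟩
  · rw [Finset.disjoint_left]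
    intro x hx hx2
    rw [mem_filter] at hx hx2
    rw [hx.2] at hx2
    exact absurd hx2.2 (by decide)
  · intro heq
    have key : ∀ c : ZMod 3, c ≠ 0 → c = 1 ∨ c = 2 := by decide
    rcases key (v u) hu0 with h1 | h1
    · have : u ∈ U.filter fun u => v u = 2 := by
        rw [← heq, mem_filter]
        exact ⟨hu, h1⟩
      rw [mem_filter, h1] at this
      exact absurd this.2 (by decide)
    · have : u ∈ U.filter fun u => v u = 1 := by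
        rw [heq, mem_filter]
        exact ⟨hu, h1⟩
      rw [mem_filter, h1] at this
      exact absurd this.2 (by decide)
  · refine le_trans (card_le_card ?_) h2.le
    intro π hπ
    unfold sp at hπ
    rw [mem_filter] at hπ ⊢
    refine ⟨hπ.1, fun h0 => hπ.2 ?_⟩
    rw [← h0, sum_filter, sum_filter, ← sum_sub_distrib]
    refine sum_congr rfl fun u _ => ?_
    have key : ∀ a b : ZMod 3, (if a = 1 then b else 0) - (if a = 2 then b else 0) = a * b := by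
      decide
    exact key (v u) (cs u π)

theorem lg_mul (x y : ℕ) : lg (x * y) ≤ 2 * lg x * lg y := by
  have h1 : lg (x * y) ≤ lg x + lg y := by
    unfold lg
    rcases Nat.eq_zero_or_pos x with hx | hx
    · subst hx; simp; positivity
    rcases Nat.eq_zero_or_pos y with hy | hy
    · subst hy; simp; positivity
    have h2 : Nat.log 2 (x * y) < Nat.log 2 x + Nat.log 2 y + 2 := by
      apply Nat.log_lt_of_lt_pow (by positivity)
      have h3 := Nat.lt_pow_succ_log_self (b := 2) (by norm_num) x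
      have h4 := Nat.lt_pow_succ_log_self (b := 2) (by norm_num) y
      calc x * y < 2 ^ (Nat.log 2 x + 1) * 2 ^ (Nat.log 2 y + 1) := Nat.mul_lt_mul'' h3 h4
        _ = _ := by rw [← pow_add]; congr 1; ring
    have h5 : (Nat.log 2 (x * y) : ℝ) + 1 ≤ Nat.log 2 x + Nat.log 2 y + 2 := by exact_mod_cast h2
    linarith
  have h2 := one_le_lg x
  have h3 := one_le_lg y
  nlinarith

theorem pair2 {K : ℝ} (hK1 : 1 ≤ K) (hK : ∀ A B : Ei, PS A → PS B → A ≠ B → ∀ T : ℕ,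
      ∑ n ∈ SB T, mf (wt A B) n ≤ K * lg (nrm A * nrm B) * (T * (lg T) ^ (-(1 / 4) : ℝ)))
    (X z : ℕ) (W S₀ : Finset Ei) (hS₀ : ∀ u ∈ S₀, Pq u ∧ nrm u ≤ z)
    (hW : ∀ u ∈ W, Pq u ∧ nrm u ≤ z) (A B : Finset Ei) (hA : A ⊆ S₀ ∪ W) (hB : B ⊆ S₀ ∪ W)
    (hd : Disjoint A B) (hAB : A ≠ B) (c : ℕ) (F : Finset (Finset Ei))
    (hF : ∀ S ∈ F, (S ∈ SS X ∧ sm z S = S₀) ∧ (sp A B (la z S)).card ≤ c) :
    (F.card : ℝ) ≤ 32 ^ c * (2 * K * lg (pN W)) * lg (pN S₀) * (((X / pN S₀ : ℕ) : ℝ) *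
          (lg (X / pN S₀)) ^ (-(1 / 4) : ℝ)) := by
  have hU : ∀ u ∈ S₀ ∪ W, Pq u ∧ nrm u ≤ z := fun u hu =>
    (mem_union.1 hu).elim (hS₀ u) (hW u)
  obtain ⟨a1, a2⟩ := PS_prod (S := A) fun π hπ => (hU π (hA hπ)).1
  obtain ⟨b1, b2⟩ := PS_prod (S := B) fun π hπ => (hU π (hB hπ)).1
  set a := ∏ π ∈ A, π with ha
  set b := ∏ π ∈ B, π with hb
  have hab : a ≠ b := by
    intro h
    apply hAB
    rw [← a2, ← b2, h]
  have hval : ∀ S ∈ F, ∀ π ∈ la z S, xab a b π = ez (∑ u ∈ A, cs u π - ∑ u ∈ B, cs u π) := by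
    intro S hS π hπ
    obtain ⟨⟨h1, h2⟩, h3⟩ := hF S hS
    have hπq : Pq π ∧ ¬ nrm π ≤ z := by
      unfold la at hπ
      rw [mem_filter] at hπ
      unfold SS at h1
      rw [mem_filter] at h1
      exact ⟨h1.2.1.1 π hπ.1, hπ.2⟩
    have hchi : ∀ u ∈ S₀ ∪ W, chi u π = ez (cs u π) := by
      intro u hu
      refine chi_of fun hdv => ?_
      have := eq_of_dvd (hU u hu).1 hπq.1 hdv
      subst this
      exact hπq.2 (hU u hu).2
    unfold xab jac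
    rw [a2, b2, prod_congr rfl fun u hu => hchi u (hA hu), prod_congr rfl fun u hu => hchi u (hB hu),
      ← ez_sum, ← ez_sum, conj_ez, ← ez_add, ← sub_eq_add_neg]
  have hwt1 : ∀ x : ZMod 3, (31 / 32) * ((1 + 2 * (ez x).re) / 3) + 1 / 32 =
      if x ≠ 0 then (1 / 32 : ℝ) else 1 := by
    intro x
    by_cases hx : x = 0
    · rw [if_neg (not_not.2 hx), hx, ez_zero]
      norm_num
    · rw [if_pos hx, CH.root_re (ez_root hx)]
      norm_num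
  have h := fiber_le X z S₀ (fun u hu => (hS₀ u hu).1) F (fun S hS => (hF S hS).1)
    (wt a b) (wt_nonneg a1 b1) ((1 / 32) ^ c) (fun S hS => by
      have e1 : ∏ π ∈ la z S, wt a b π = ∏ π ∈ la z S,
          if ∑ u ∈ A, cs u π - ∑ u ∈ B, cs u π ≠ 0 then (1 / 32 : ℝ) else 1 := by
        refine prod_congr rfl fun π hπ => ?_
        unfold wt
        rw [hval S hS π hπ, hwt1]
      rw [e1, prod_ite, prod_const, prod_const_one, mul_one]
      exact pow_le_pow_of_le_one (by norm_num) (by norm_num) (hF S hS).2)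
  have h2 := h.trans (hK a b a1 b1 hab (X / pN S₀))
  have hnn : nrm a * nrm b ≤ pN S₀ * pN W := by
    rw [ha, hb, nrm_prod, nrm_prod, ← prod_union hd]
    unfold pN
    have g1 : ∏ π ∈ A ∪ B, nrm π ≤ ∏ π ∈ S₀ ∪ W, nrm π :=
      prod_le_prod_of_subset_of_one_le' (union_subset hA hB) fun u hu _ =>
        nrm_pos' (pq_ne (hU u hu).1)
    refine g1.trans ?_
    rw [← prod_union_inter]
    exact Nat.le_mul_of_pos_right _ (prod_pos fun u hu =>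
      nrm_pos' (pq_ne (hS₀ u (mem_inter.1 hu).1).1))
  have h4 : lg (nrm a * nrm b) ≤ 2 * lg (pN W) * lg (pN S₀) := by
    refine (lg_mono hnn).trans ((lg_mul _ _).trans (le_of_eq ?_))
    ring
  have hTl : 0 ≤ ((X / pN S₀ : ℕ) : ℝ) * (lg (X / pN S₀)) ^ (-(1 / 4) : ℝ) :=
    mul_nonneg (Nat.cast_nonneg _) (Real.rpow_nonneg (zero_le_one.trans (one_le_lg _)) _)
  have h5 : (F.card : ℝ) = 32 ^ c * (F.card * (1 / 32) ^ c) := by
    rw [mul_left_comm, ← mul_pow]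
    norm_num
  rw [h5]
  calc (32 : ℝ) ^ c * (F.card * (1 / 32) ^ c) ≤ 32 ^ c * (K * lg (nrm a * nrm b) *
        (((X / pN S₀ : ℕ) : ℝ) * (lg (X / pN S₀)) ^ (-(1 / 4) : ℝ))) := by gcongr
    _ ≤ 32 ^ c * (K * (2 * lg (pN W) * lg (pN S₀)) *
        (((X / pN S₀ : ℕ) : ℝ) * (lg (X / pN S₀)) ^ (-(1 / 4) : ℝ))) := by gcongr
    _ = _ := by ring

theorem bad2 {K : ℝ} (hK1 : 1 ≤ K) (hK : ∀ A B : Ei, PS A → PS B → A ≠ B → ∀ T : ℕ,
      ∑ n ∈ SB T, mf (wt A B) n ≤ K * lg (nrm A * nrm B) * (T * (lg T) ^ (-(1 / 4) : ℝ)))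
    (R X : ℕ) (W S₀ : Finset Ei) (hS₀ : ∀ u ∈ S₀, Pq u ∧ nrm u ≤ zz X)
    (hW : ∀ u ∈ W, Pq u ∧ nrm u ≤ zz X) (G : Finset (Finset Ei))
    (hG : ∀ S ∈ G, S ∈ SS X ∧ (S.card ≤ kk X ∧ ¬ ∀ v : Ei → ZMod 3,
      (∃ u ∈ sm (zz X) S ∪ W, v u ≠ 0) → 2 * (sm (zz X) S ∪ W).card + R ≤
        ((la (zz X) S).filter fun π => ∑ u ∈ sm (zz X) S ∪ W, v u * cs u π ≠ 0).card) ∧
      sm (zz X) S = S₀) : (G.card : ℝ) ≤
        (4 ^ W.card * 32 ^ (2 * W.card + R) * (2 * K * lg (pN W))) * 4096 ^ S₀.card *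
          lg (pN S₀) * (((X / pN S₀ : ℕ) : ℝ) * (lg (X / pN S₀)) ^ (-(1 / 4) : ℝ)) := by
  set U := S₀ ∪ W with hU
  set P := (U.powerset ×ˢ U.powerset).filter fun p => Disjoint p.1 p.2 ∧ p.1 ≠ p.2 with hP
  have hUc : U.card ≤ S₀.card + W.card := card_union_le _ _
  have hsub : G ⊆ P.biUnion fun p => G.filter fun S =>
      (sp p.1 p.2 (la (zz X) S)).card ≤ 2 * U.card + R := by
    intro S hS
    obtain ⟨h1, ⟨h2, h3⟩, h4⟩ := hG S hS
    rw [h4, ← hU] at h3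
    obtain ⟨A, B, hA, hB, hd, hAB, hDg⟩ := notNdF h3
    rw [mem_biUnion]
    refine ⟨(A, B), ?_, ?_⟩
    · rw [hP, mem_filter, mem_product, mem_powerset, mem_powerset]
      exact ⟨⟨hA, hB⟩, hd, hAB⟩
    · rw [mem_filter]
      exact ⟨hS, hDg⟩
  have h1 : (G.card : ℝ) ≤ ∑ p ∈ P, ((G.filter fun S =>
      (sp p.1 p.2 (la (zz X) S)).card ≤ 2 * U.card + R).card : ℝ) := by
    exact_mod_cast (card_le_card hsub).trans card_biUnion_le
  have h2 : ∀ p ∈ P, ((G.filter fun S =>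
      (sp p.1 p.2 (la (zz X) S)).card ≤ 2 * U.card + R).card : ℝ) ≤
      32 ^ (2 * U.card + R) * (2 * K * lg (pN W)) * lg (pN S₀) * (((X / pN S₀ : ℕ) : ℝ) *
        (lg (X / pN S₀)) ^ (-(1 / 4) : ℝ)) := by
    intro p hp
    rw [hP, mem_filter, mem_product, mem_powerset, mem_powerset] at hp
    refine pair2 hK1 hK X (zz X) W S₀ hS₀ hW p.1 p.2 hp.1.1 hp.1.2 hp.2.1 hp.2.2 _ _ ?_
    intro S hS
    rw [mem_filter] at hS
    have h := hG S hS.1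
    exact ⟨⟨h.1, h.2.2⟩, hS.2⟩
  have h3 : (P.card : ℝ) ≤ 4 ^ U.card := by
    have : P.card ≤ 4 ^ U.card := by
      refine (card_filter_le _ _).trans (le_of_eq ?_)
      rw [card_product, card_powerset, ← mul_pow]
      norm_num
    exact_mod_cast this
  have hTl : 0 ≤ ((X / pN S₀ : ℕ) : ℝ) * (lg (X / pN S₀)) ^ (-(1 / 4) : ℝ) :=
    mul_nonneg (Nat.cast_nonneg _) (Real.rpow_nonneg (zero_le_one.trans (one_le_lg _)) _)
  have hlg := lg_pos (pN S₀)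
  have hlgW := lg_pos (pN W)
  have h4 : (4 : ℝ) ^ U.card ≤ 4 ^ W.card * 4 ^ S₀.card := by
    rw [← pow_add]
    exact pow_le_pow_right₀ (by norm_num) (by omega)
  have h5 : (32 : ℝ) ^ (2 * U.card + R) ≤ 32 ^ (2 * W.card + R) * 1024 ^ S₀.card := by
    have : (1024 : ℝ) ^ S₀.card = 32 ^ (2 * S₀.card) := by rw [pow_mul]; norm_num
    rw [this, ← pow_add]
    exact pow_le_pow_right₀ (by norm_num) (by omega)
  calc (G.card : ℝ) ≤ ∑ p ∈ P, 32 ^ (2 * U.card + R) * (2 * K * lg (pN W)) * lg (pN S₀) *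
        (((X / pN S₀ : ℕ) : ℝ) * (lg (X / pN S₀)) ^ (-(1 / 4) : ℝ)) := h1.trans (sum_le_sum h2)
    _ = P.card * (32 ^ (2 * U.card + R) * (2 * K * lg (pN W)) * lg (pN S₀) *
        (((X / pN S₀ : ℕ) : ℝ) * (lg (X / pN S₀)) ^ (-(1 / 4) : ℝ))) := by
          rw [sum_const, nsmul_eq_mul]
    _ ≤ (4 ^ W.card * 4 ^ S₀.card) * ((32 ^ (2 * W.card + R) * 1024 ^ S₀.card) *
        (2 * K * lg (pN W)) * lg (pN S₀) *
        (((X / pN S₀ : ℕ) : ℝ) * (lg (X / pN S₀)) ^ (-(1 / 4) : ℝ))) := by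
          have := h3.trans h4
          gcongr
    _ = _ := by
        have : (4096 : ℝ) ^ S₀.card = 4 ^ S₀.card * 1024 ^ S₀.card := by
          rw [← mul_pow]; norm_num
        rw [this]; ring

theorem zz_ev (n : ℕ) : ∃ X₁ : ℕ, ∀ X, X₁ ≤ X → n ≤ zz X := by
  have h1 : Tendsto (fun X : ℕ => zz X) atTop atTop := by
    unfold zz
    refine tendsto_nat_floor_atTop.comp (Real.tendsto_exp_atTop.comp ?_)
    exact (tendsto_pow_atTop (by norm_num)).comp Pool.Agent.Y495.CX.Few.eL_tendsto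
  obtain ⟨X₁, h⟩ := eventually_atTop.1 (h1.eventually (eventually_ge_atTop n))
  exact ⟨X₁, h⟩

/-- **few sets are bad** -/
theorem t_BAD2 (R : ℕ) (W : Finset Ei) (hWq : ∀ u ∈ W, Pq u) (ε : ℝ) (hε : 0 < ε) :
    ∃ X₀ : ℕ, ∀ X : ℕ, X₀ ≤ X →
    (((SS X).filter fun S => S.card ≤ kk X ∧
      ¬ NdF R W (sm (zz X) S) (la (zz X) S)).card : ℝ) ≤ ε * X := by
  obtain ⟨K, hK1, hK⟩ := hallW
  obtain ⟨X₁, hX₁⟩ := zz_ev (W.sup nrm)
  obtain ⟨X₂, hX₂⟩ := gen4 X₁ 4096 (4 ^ W.card * 32 ^ (2 * W.card + R) * (2 * K * lg (pN W)))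
    (by norm_num) (by have := lg_pos (pN W); positivity)
    (fun X S => ¬ ∀ v : Ei → ZMod 3,
      (∃ u ∈ sm (zz X) S ∪ W, v u ≠ 0) → 2 * (sm (zz X) S ∪ W).card + R ≤
        ((la (zz X) S).filter fun π => ∑ u ∈ sm (zz X) S ∪ W, v u * cs u π ≠ 0).card)
    (fun X hX S₀ hS₀ _ F hF => bad2 hK1 hK R X W S₀ hS₀
      (fun u hu => ⟨hWq u hu, (le_sup (f := nrm) hu).trans (hX₁ X hX)⟩) F hF) (ε / 2) (by linarith)
  obtain ⟨X₃, hX₃⟩ := t_FEW2 R W (ε / 2) (by linarith)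
  refine ⟨max X₂ X₃, fun X hX => ?_⟩
  have g1 := hX₂ X ((le_max_left _ _).trans hX) ((SS X).filter fun S => S.card ≤ kk X ∧
    ¬ ∀ v : Ei → ZMod 3,
      (∃ u ∈ sm (zz X) S ∪ W, v u ≠ 0) → 2 * (sm (zz X) S ∪ W).card + R ≤
        ((la (zz X) S).filter fun π => ∑ u ∈ sm (zz X) S ∪ W, v u * cs u π ≠ 0).card)
    (fun S hS => by rw [mem_filter] at hS; exact hS)
  have g2 := hX₃ X ((le_max_right _ _).trans hX)
  have hsub : (SS X).filter (fun S => S.card ≤ kk X ∧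
      ¬ NdF R W (sm (zz X) S) (la (zz X) S)) ⊆
      ((SS X).filter fun S => S.card ≤ kk X ∧ ¬ ∀ v : Ei → ZMod 3,
      (∃ u ∈ sm (zz X) S ∪ W, v u ≠ 0) → 2 * (sm (zz X) S ∪ W).card + R ≤
        ((la (zz X) S).filter fun π => ∑ u ∈ sm (zz X) S ∪ W, v u * cs u π ≠ 0).card) ∪
      (SS X).filter fun S => S.card ≤ kk X ∧
        ¬ 2 * (sm (zz X) S ∪ W).card + R ≤ (la (zz X) S).card := by
    intro S hS
    rw [mem_filter] at hS
    rw [mem_union, mem_filter, mem_filter]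
    by_contra hc
    push Not at hc
    exact hS.2.2 ⟨hc.1 hS.1 hS.2.1, hc.2 hS.1 hS.2.1⟩
  have g3 := (card_le_card hsub).trans (card_union_le _ _)
  refine (Nat.cast_le (α := ℝ).2 g3).trans ?_
  push_cast
  linarith

end Q283.T3
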