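import Pool.Agent.Q283.T3.LB
import Pool.Agent.Q283.T3.Cnt
import Pool.Agent.Y688.XK.BOX

/-! The count in a box for several masks -/

set_option autoImplicit false

open scoped Classical

namespace Q283.T3

open Finset Module
open Pool.Agent.Y692.QS (Ei)
open Pool.Agent.Y715.T.Rec (cs)
open Pool.Agent.Y715.T.RecG (Pq)
open Pool.Agent.Y699.E (ez)
open Pool.Agent.Y703.XK
open Pool.Agent.Y688.XK (lb cs_symm HB_sub)

/-- the exponents of the product of the primes of `S` and of a mask -/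
noncomputable def ex (m : Ei → ZMod 3) (S : Finset Ei) (π : Ei) : ZMod 3 :=
  (if π ∈ S then 1 else 0) + m π

/-- the solutions of the Laplacian system with the exponents `e` on the set `T` -/
def KT (T : Finset Ei) (e : Ei → ZMod 3) : Submodule (ZMod 3) (T → ZMod 3) where
  carrier := {x | (∀ π : T, e π = 0 → x π = 0) ∧
    ∀ π : T, ∑ ρ : T, e π * e ρ * cs π ρ * (x ρ - x π) = 0}
  add_mem' := by
    rintro x y ⟨h1, h2⟩ ⟨h3, h4⟩
    refine ⟨fun i hi => by rw [Pi.add_apply, h1 i hi, h3 i hi, add_zero], fun i => ?_⟩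
    have h5 : ∑ ρ : T, e i * e ρ * cs i ρ * ((x + y) ρ - (x + y) i) =
        ∑ ρ : T, e i * e ρ * cs i ρ * (x ρ - x i) + ∑ ρ : T, e i * e ρ * cs i ρ * (y ρ - y i) := by
      rw [← sum_add_distrib]
      exact sum_congr rfl fun j _ => by simp only [Pi.add_apply]; ring
    rw [h5, h2, h4, add_zero]
  zero_mem' := ⟨fun _ _ => rfl, fun i => by simp⟩
  smul_mem' := by
    rintro a x ⟨h1, h2⟩
    refine ⟨fun i hi => by rw [Pi.smul_apply, h1 i hi, smul_zero], fun i => ?_⟩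
    have h5 : ∑ ρ : T, e i * e ρ * cs i ρ * ((a • x) ρ - (a • x) i) =
        a * ∑ ρ : T, e i * e ρ * cs i ρ * (x ρ - x i) := by
      rw [mul_sum]
      exact sum_congr rfl fun j _ => by simp only [Pi.smul_apply, smul_eq_mul]; ring
    rw [h5, h2, mul_zero]

theorem mem_KT {T : Finset Ei} {e : Ei → ZMod 3} {x : T → ZMod 3} :
    x ∈ KT T e ↔ (∀ π : T, e π = 0 → x π = 0) ∧
      ∀ π : T, ∑ ρ : T, e π * e ρ * cs π ρ * (x ρ - x π) = 0 := Iff.rfl

/-- the property of the sets: all the coranks are given -/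
def GG {M : ℕ} (W : Finset Ei) (m : Fin M → Ei → ZMod 3) (r : Fin M → ℕ) (S : Finset Ei) : Prop :=
  ∀ k, finrank (ZMod 3) (KT (S ∪ W) (ex (m k) S)) = r k + 1

/-- the good labels -/
def LNF {ι U : Type} [Fintype ι] [Fintype U] (R : ℕ) (β : ι → U → ZMod 3) : Prop :=
  (∀ w : U → ZMod 3, w ≠ 0 → 2 * Fintype.card U + R ≤ (univ.filter fun i => ∑ u, w u * β i u ≠ 0).card) ∧
  2 * Fintype.card U + R ≤ Fintype.card ι

section one
variable {ι : Type} [Fintype ι] {S₀ W : Finset Ei} {p : ι → Ei}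

open Pool.Agent.Y688.XK (ez0 ez0_coe)

theorem ndF_iff {R : ℕ} (hp : Function.Injective p) :
    NdF R W S₀ (univ.image p) ↔ LNF R (fun i => lb (S₀ ∪ W) (p i)) := by
  have h0 : ∀ v : Ei → ZMod 3, ((univ.image p).filter fun π =>
      ∑ u ∈ S₀ ∪ W, v u * cs u π ≠ 0).card =
      (univ.filter fun i => ∑ u : ↥(S₀ ∪ W), v u * lb (S₀ ∪ W) (p i) u ≠ 0).card := by
    intro v
    rw [filter_image, card_image_of_injective _ hp]
    congr 1
    ext i
    rw [mem_filter, mem_filter, ← Finset.sum_coe_sort (S₀ ∪ W)]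
    rfl
  have h1 : (univ.image p).card = Fintype.card ι := by
    rw [card_image_of_injective _ hp, card_univ]
  unfold NdF LNF
  rw [h1, Fintype.card_coe]
  refine and_congr_left fun _ => ?_
  constructor
  · intro h w hw
    obtain ⟨u, hu⟩ := Function.ne_iff.1 hw
    have h2 := h (ez0 w) ⟨u, u.2, by rw [ez0_coe]; exact hu⟩
    rw [h0] at h2
    simp only [ez0_coe] at h2
    exact h2
  · intro h w hw
    obtain ⟨u, hu0, hu⟩ := hw
    rw [h0]
    exact h (fun u => w u) (Function.ne_iff.2 ⟨⟨u, hu0⟩, hu⟩)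

/-- the enumeration of the primes -/
noncomputable def phi (S₀ W : Finset Ei) (p : ι → Ei) :
    ↥(S₀ ∪ W) ⊕ ι → ↥((S₀ ∪ univ.image p) ∪ W)
  | Sum.inl u => ⟨u.1, by
      have := u.2
      simp only [mem_union] at this ⊢
      tauto⟩
  | Sum.inr i => ⟨p i, by
      simp only [mem_union, mem_image, mem_univ, true_and]
      exact Or.inl (Or.inr ⟨i, rfl⟩)⟩

theorem phi_bij (hp : Function.Injective p) (hd : ∀ i, p i ∉ S₀ ∪ W) :
    Function.Bijective (phi S₀ W p) := by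
  constructor
  · rintro (a | a) (b | b) h
    · have h' := congrArg Subtype.val h
      change a.1 = b.1 at h'
      exact congrArg Sum.inl (Subtype.ext h')
    · have h' := congrArg Subtype.val h
      change a.1 = p b at h'
      exact absurd (h' ▸ a.2) (hd b)
    · have h' := congrArg Subtype.val h
      change p a = b.1 at h'
      exact absurd (h' ▸ b.2) (hd a)
    · have h' := congrArg Subtype.val h
      change p a = p b at h'
      exact congrArg Sum.inr (hp h')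
  · rintro ⟨x, hx⟩
    by_cases h : x ∈ S₀ ∪ W
    · exact ⟨Sum.inl ⟨x, h⟩, rfl⟩
    · simp only [mem_union, mem_image, mem_univ, true_and] at hx h
      obtain ⟨i, hi⟩ : ∃ i, p i = x := by tauto
      exact ⟨Sum.inr i, Subtype.ext hi⟩

variable [LinearOrder ι]

theorem finrank_KT (hp : Function.Injective p) (hd : ∀ i, p i ∉ S₀ ∪ W) (hpr : ∀ i, Pq (p i))
    (hU : ∀ u ∈ S₀ ∪ W, Pq u) {m : Ei → ZMod 3} (hm : ∀ u, u ∉ W → m u = 0) :
    finrank (ZMod 3) (KT ((S₀ ∪ univ.image p) ∪ W) (ex m (S₀ ∪ univ.image p))) =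
      finrank (ZMod 3) (KS (cc (fun u : ↥(S₀ ∪ W) => ex m S₀ u) (fun u v : ↥(S₀ ∪ W) => cs u v)
        (fun (u : ↥(S₀ ∪ W)) l => cs u (p l))
        (Pool.Agent.Y703.XK.ext fun e : prs ι => cs (p e.1.1) (p e.1.2)))
        (Sk ι (fun u : ↥(S₀ ∪ W) => ex m S₀ u))) := by
  obtain ⟨E, hE⟩ : ∃ E : ↥(S₀ ∪ W) ⊕ ι ≃ ↥((S₀ ∪ univ.image p) ∪ W), ∀ i, E i = phi S₀ W p i :=
    ⟨Equiv.ofBijective _ (phi_bij hp hd), fun _ => rfl⟩
  have hE1 : ∀ u, ((E (Sum.inl u) : ↥((S₀ ∪ univ.image p) ∪ W)) : Ei) = u := fun u => by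
    rw [hE]; rfl
  have hE2 : ∀ k, ((E (Sum.inr k) : ↥((S₀ ∪ univ.image p) ∪ W)) : Ei) = p k := fun u => by
    rw [hE]; rfl
  obtain ⟨e, he⟩ : ∃ e, e = ex m (S₀ ∪ univ.image p) := ⟨_, rfl⟩
  obtain ⟨c, hc⟩ : ∃ c, c = cc (fun u : ↥(S₀ ∪ W) => ex m S₀ u) (fun u v : ↥(S₀ ∪ W) => cs u v)
        (fun (u : ↥(S₀ ∪ W)) l => cs u (p l))
        (Pool.Agent.Y703.XK.ext fun e : prs ι => cs (p e.1.1) (p e.1.2)) := ⟨_, rfl⟩
  rw [← he, ← hc]
  have e1 : ∀ u : ↥(S₀ ∪ W), e u = ex m S₀ u := by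
    intro u
    rw [he]
    unfold ex
    congr 1
    by_cases h : u.1 ∈ S₀
    · rw [if_pos h, if_pos (mem_union_left _ h)]
    · rw [if_neg h, if_neg]
      rw [mem_union, mem_image]
      rintro (h1 | ⟨i, -, hi⟩)
      · exact h h1
      · exact hd i (hi ▸ u.2)
  have e2 : ∀ i, e (p i) = 1 := by
    intro i
    rw [he]
    unfold ex
    rw [if_pos (mem_union_right _ (mem_image_of_mem _ (mem_univ _))),
      hm _ fun h => hd i (mem_union_right _ h), add_zero]
  have key : ∀ (x : ↥((S₀ ∪ univ.image p) ∪ W) → ZMod 3) (i j : ↥(S₀ ∪ W) ⊕ ι),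
      e (E i) * e (E j) * cs (E i) (E j) * (x (E j) - x (E i)) = c i j * (x (E j) - x (E i)) := by
    intro x i j
    rcases i with u | k <;> rcases j with v | l
    · rw [hE1, hE1, e1, e1, hc]
      rfl
    · rw [hE1, hE2, e1, e2, mul_one, hc]
      rfl
    · rw [hE1, hE2, e1, e2, one_mul, hc, cs_symm (hpr k) (hU v v.2)]
      rfl
    · rw [hE2, hE2, e2, e2, one_mul, one_mul]
      by_cases hlk : l = k
      · rw [hlk, sub_self, mul_zero, mul_zero]
      congr 1
      rw [hc]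
      show cs (p k) (p l) = Pool.Agent.Y703.XK.ext (fun e : prs ι => cs (p e.1.1) (p e.1.2)) k l
      unfold Pool.Agent.Y703.XK.ext
      by_cases h : (k, l) ∈ prs ι
      · rw [dif_pos h]
      · rw [dif_neg h]
        have h2 : (l, k) ∈ prs ι := by
          rw [mem_prs] at h ⊢
          rcases lt_trichotomy l k with h1 | h1 | h1
          · exact h1
          · exact absurd h1 hlk
          · exact absurd h1 h
        rw [dif_pos h2]
        exact cs_symm (hpr k) (hpr l)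
  have key2 : ∀ i : ↥(S₀ ∪ W) ⊕ ι, e (E i) = 0 ↔ i ∉ Sk ι (fun u : ↥(S₀ ∪ W) => ex m S₀ u) := by
    intro i
    rcases i with u | k
    · rw [mem_Sk_inl, not_not, hE1, e1]
    · rw [hE2, e2]
      exact ⟨fun h => absurd h one_ne_zero, fun h => absurd mem_Sk_inr h⟩
  have h0 := LinearEquiv.finrank_map_eq (LinearEquiv.funCongrLeft (ZMod 3) (ZMod 3) E)
    (KT ((S₀ ∪ univ.image p) ∪ W) e)
  rw [← h0]
  have h1 : (KT ((S₀ ∪ univ.image p) ∪ W) e).map
      (LinearEquiv.funCongrLeft (ZMod 3) (ZMod 3) E : _ →ₗ[ZMod 3] _) =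
      KS c (Sk ι fun u : ↥(S₀ ∪ W) => ex m S₀ u) := by
    ext y
    rw [Submodule.mem_map]
    constructor
    · rintro ⟨x, hx, rfl⟩
      rw [mem_KT] at hx
      rw [mem_KS]
      refine ⟨fun i hi => hx.1 (E i) ((key2 i).2 hi), fun i => ?_⟩
      rw [← hx.2 (E i), ← Equiv.sum_comp E]
      exact sum_congr rfl fun j _ => (key x i j).symm
    · intro hy
      rw [mem_KS] at hy
      refine ⟨fun t => y (E.symm t), ?_, ?_⟩
      · rw [mem_KT]
        constructor
        · intro π hπ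
          obtain ⟨i, rfl⟩ := E.surjective π
          rw [E.symm_apply_apply]
          exact hy.1 i ((key2 i).1 hπ)
        · intro π
          obtain ⟨i, rfl⟩ := E.surjective π
          rw [← hy.2 i, ← Equiv.sum_comp E]
          refine sum_congr rfl fun j _ => ?_
          rw [key (fun t => y (E.symm t)) i j, E.symm_apply_apply, E.symm_apply_apply]
      · funext i
        show y (E.symm (E i)) = y i
        rw [E.symm_apply_apply]
  rw [h1]

end one

/-- the statement for the boxes -/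
def BXM (W : Finset Ei) (R : ℕ) (G : Finset Ei → Prop) (c δ : ℝ) : Prop :=
  ∀ (ι : Type) [Fintype ι] [LinearOrder ι]
  (C : ι → Finset Ei) (X : ι → ℕ) (κ : ℝ) (S₀ : Finset Ei), 0 ≤ κ → (∀ i, (C i).card ≤ X i) →
  HB C X κ → (∀ u ∈ S₀, Pq u) → (∀ i, ∀ π ∈ C i, Pq π ∧ π ∉ S₀ ∪ W) →
  (∀ i l, i ≠ l → Disjoint (C i) (C l)) →
  |(((Fintype.piFinset C).filter fun p => NdF R W S₀ (univ.image p) ∧
      G (S₀ ∪ univ.image p)).card : ℝ) -
      c * (((Fintype.piFinset C).filter fun p => NdF R W S₀ (univ.image p)).card : ℝ)| ≤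
    δ * (((Fintype.piFinset C).filter fun p => NdF R W S₀ (univ.image p)).card : ℝ) +
    3 ^ ((S₀ ∪ W).card * Fintype.card ι + (prs ι).card) * (κ * ∏ j, (X j : ℝ))

/-- **The count in a box.** -/
theorem t_BXM (hEQ : S_EQ) {M : ℕ} (r : Fin M → ℕ) (δ : ℝ) (hδ : 0 < δ) : ∃ R : ℕ,
    ∀ R' : ℕ, R ≤ R' → ∀ (W : Finset Ei) (m : Fin M → Ei → ZMod 3), (∀ u ∈ W, Pq u) →
    (∀ k u, u ∉ W → m k u = 0) → (∀ k l, k ≠ l → m k ≠ m l) →
    BXM W R' (GG W m r) (∏ k, gi * cf (r k)) δ := by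
  obtain ⟨R, hR⟩ := t_LA M r δ hδ
  refine ⟨R, ?_⟩
  intro R' hR' W m hW hm hml ι _ _ C X κ S₀ hκ hCX hHB hS₀ hC hdis
  obtain ⟨c, hc⟩ : ∃ c : ℝ, c = ∏ k, gi * cf (r k) := ⟨_, rfl⟩
  obtain ⟨E, hE⟩ : ∃ E : ℝ, E = 3 ^ (prs ι).card * (κ * ∏ j, (X j : ℝ)) := ⟨_, rfl⟩
  have hE0 : 0 ≤ E := by
    rw [hE]
    exact mul_nonneg (by positivity)
      (mul_nonneg hκ (Finset.prod_nonneg fun j _ => by positivity))
  have hU : ∀ u ∈ S₀ ∪ W, Pq u := fun u hu => (mem_union.1 hu).elim (hS₀ u) (hW u)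
  -- facts on tuples
  have hinj : ∀ p ∈ Fintype.piFinset C, Function.Injective p := by
    intro p hp i j hij
    rw [Fintype.mem_piFinset] at hp
    by_contra hne
    have h1 := Finset.disjoint_left.1 (hdis i j hne) (hp i)
    rw [hij] at h1
    exact h1 (hp j)
  have hd : ∀ p ∈ Fintype.piFinset C, ∀ i, p i ∉ S₀ ∪ W := by
    intro p hp i
    rw [Fintype.mem_piFinset] at hp
    exact (hC i _ (hp i)).2
  have hpr : ∀ p ∈ Fintype.piFinset C, ∀ i, Pq (p i) := by
    intro p hp i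
    rw [Fintype.mem_piFinset] at hp
    exact (hC i _ (hp i)).1
  have hml' : ∀ k l, k ≠ l → (fun u : ↥(S₀ ∪ W) => ex (m k) S₀ u) ≠
      fun u : ↥(S₀ ∪ W) => ex (m l) S₀ u := by
    intro k l hkl h
    apply hml k l hkl
    funext u
    by_cases hu : u ∈ W
    · have h1 := congrFun h ⟨u, mem_union_right _ hu⟩
      unfold ex at h1
      exact add_left_cancel h1
    · rw [hm k u hu, hm l u hu]
  -- the part with given labels
  have h1 : ∀ β : ι → ↥(S₀ ∪ W) → ZMod 3, LNF R' β →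
      |(((Fintype.piFinset C).filter fun p => (fun i => lb (S₀ ∪ W) (p i)) = β ∧
          GG W m r (S₀ ∪ univ.image p)).card : ℝ) -
        c * (((Fintype.piFinset C).filter fun p => (fun i => lb (S₀ ∪ W) (p i)) = β).card : ℝ)| ≤
      δ * (((Fintype.piFinset C).filter fun p => (fun i => lb (S₀ ∪ W) (p i)) = β).card : ℝ) +
        E := by
    intro β hβ
    obtain ⟨C', hC'⟩ : ∃ C' : ι → Finset Ei, C' = fun i => (C i).filter fun q =>
      lb (S₀ ∪ W) q = β i := ⟨_, rfl⟩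
    have hpi : (Fintype.piFinset C).filter (fun p => (fun i => lb (S₀ ∪ W) (p i)) = β) =
        Fintype.piFinset C' := by
      ext p
      simp only [Finset.mem_filter, Fintype.mem_piFinset, hC']
      constructor
      · rintro ⟨h2, h3⟩ i
        exact ⟨h2 i, congrFun h3 i⟩
      · intro h2
        exact ⟨fun i => (h2 i).1, funext fun i => (h2 i).2⟩
    have h2 := hR ↥(S₀ ∪ W) ι (fun k (u : ↥(S₀ ∪ W)) => ex (m k) S₀ u)
      (fun u v => cs u v) (fun u l => β l u)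
      (fun u v => cs_symm (hU u u.2) (hU v v.2))
      (fun w hw => by
        refine le_trans ?_ (hβ.1 w hw)
        omega) (by have := hβ.2; omega) hml'
    obtain ⟨Q, hQ⟩ : ∃ Q : (prs ι → ZMod 3) → Prop, Q = fun α =>
        ∀ k, finrank (ZMod 3) (KS (cc (fun (u : ↥(S₀ ∪ W)) => ex (m k) S₀ u)
          (fun u v : ↥(S₀ ∪ W) => cs u v) (fun (u : ↥(S₀ ∪ W)) l => β l u)
          (Pool.Agent.Y703.XK.ext α)) (Sk ι (fun (u : ↥(S₀ ∪ W)) => ex (m k) S₀ u))) = r k + 1 :=
      ⟨_, rfl⟩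
    have h3 := hEQ ι C' X κ hκ
      (fun i => (Finset.card_le_card (by rw [hC']; exact Finset.filter_subset _ _)).trans (hCX i))
      (by rw [hC']; exact HB_sub hHB fun i q => lb (S₀ ∪ W) q = β i) Q
    have h4 : ((Fintype.piFinset C).filter fun p => (fun i => lb (S₀ ∪ W) (p i)) = β ∧
        GG W m r (S₀ ∪ univ.image p)) = ((Fintype.piFinset C').filter fun p =>
          Q fun e => cs (p e.1.1) (p e.1.2)) := by
      rw [← hpi, Finset.filter_filter]
      refine Finset.filter_congr fun p hp => ?_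
      refine and_congr_right fun hl => ?_
      subst hl
      rw [hQ]
      unfold GG
      refine forall_congr' fun k => ?_
      rw [finrank_KT (hinj p hp) (hd p hp) (hpr p hp) hU (hm k)]
      exact Iff.rfl
    have h5 : (((Fintype.piFinset C').card : ℕ) : ℝ) = ∏ j, ((C' j).card : ℝ) := by
      rw [Fintype.card_piFinset]
      push_cast
      rfl
    rw [h4, hpi, h5]
    rw [← hE] at h3
    obtain ⟨n, hn⟩ : ∃ n : ℝ, n = (((Fintype.piFinset C').filter fun p =>
          Q fun e => cs (p e.1.1) (p e.1.2)).card : ℝ) := ⟨_, rfl⟩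
    obtain ⟨q, hq⟩ : ∃ q : ℝ, q = ((univ.filter Q).card : ℝ) / 3 ^ (prs ι).card := ⟨_, rfl⟩
    obtain ⟨P, hP⟩ : ∃ P : ℝ, P = ∏ j, ((C' j).card : ℝ) := ⟨_, rfl⟩
    have hP0 : 0 ≤ P := by
      rw [hP]
      exact Finset.prod_nonneg fun j _ => by positivity
    have h2' : |q - c| ≤ δ := by
      rw [hq, hQ, hc]
      refine le_trans (le_of_eq ?_) h2
      rw [fcc2]
    rw [← hn, ← hq, ← hP] at h3
    rw [← hn, ← hP]
    have h6 : |n - c * P| ≤ |n - q * P| + |q - c| * P := by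
      have h7 : n - c * P = (n - q * P) + (q - c) * P := by ring
      have h8 : |(q - c) * P| = |q - c| * P := by rw [abs_mul, abs_of_nonneg hP0]
      rw [h7, ← h8]
      exact abs_add_le _ _
    have h7 : |q - c| * P ≤ δ * P := mul_le_mul_of_nonneg_right h2' hP0
    linarith
  -- sum over the labels
  obtain ⟨LL, hLL⟩ : ∃ LL : Finset (ι → ↥(S₀ ∪ W) → ZMod 3),
    LL = univ.filter (fun β => LNF R' β) := ⟨_, rfl⟩
  have hfib : ∀ T : (ι → Ei) → Prop,
      (((Fintype.piFinset C).filter fun p => NdF R' W S₀ (univ.image p) ∧ T p).card : ℝ) =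
      ∑ β ∈ LL, (((Fintype.piFinset C).filter fun p =>
        (fun i => lb (S₀ ∪ W) (p i)) = β ∧ T p).card : ℝ) := by
    intro T
    rw [Finset.card_eq_sum_card_fiberwise (f := fun (p : ι → Ei) (i : ι) => lb (S₀ ∪ W) (p i))
      (t := LL) (by
        intro p hp
        rw [Finset.mem_coe, Finset.mem_filter] at hp
        rw [Finset.mem_coe, hLL, Finset.mem_filter]
        exact ⟨Finset.mem_univ _, (ndF_iff (hinj p hp.1)).1 hp.2.1⟩)]
    push_cast
    refine Finset.sum_congr rfl fun β hβ => ?_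
    rw [hLL, Finset.mem_filter] at hβ
    congr 2
    ext p
    simp only [Finset.mem_filter]
    constructor
    · rintro ⟨⟨h3, h4, h4'⟩, h5⟩
      exact ⟨h3, h5, h4'⟩
    · rintro ⟨h3, h4, h5⟩
      refine ⟨⟨h3, ?_, h5⟩, h4⟩
      rw [ndF_iff (hinj p h3), h4]
      exact hβ.2
  have hf1 := hfib fun p => GG W m r (S₀ ∪ univ.image p)
  have hf2 := hfib fun _ => True
  simp only [and_true] at hf2
  rw [hf1, hf2, Finset.mul_sum, ← Finset.sum_sub_distrib, ← hc]
  refine (Finset.abs_sum_le_sum_abs _ _).trans ?_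
  refine (Finset.sum_le_sum fun β hβ => h1 β (by
    rw [hLL] at hβ
    exact (Finset.mem_filter.1 hβ).2)).trans ?_
  rw [Finset.sum_add_distrib, ← Finset.mul_sum, Finset.sum_const, nsmul_eq_mul]
  have h5 : ((LL.card : ℕ) : ℝ) ≤ 3 ^ ((S₀ ∪ W).card * Fintype.card ι) := by
    have h6 : LL.card ≤ Fintype.card (ι → ↥(S₀ ∪ W) → ZMod 3) :=
      Finset.card_le_univ _
    rw [Fintype.card_fun, Fintype.card_fun, ZMod.card, Fintype.card_coe, ← pow_mul] at h6
    exact_mod_cast h6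
  have h6 := mul_le_mul_of_nonneg_right h5 hE0
  rw [pow_add, mul_assoc, ← hE]
  linarith

end Q283.T3
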