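import Pool.Agent.Q283.T3.Trn

/-! The translation for one curve: Selmer group, rank, triviality -/

set_option autoImplicit false
set_option linter.unusedSectionVars false

open scoped Classical

namespace Q283.T3B

open Finset Module NumberField
open Pool.Agent.Y692.QS (Ei nr w)
open Pool.Agent.Y715.T.Rec (cs)
open Pool.Agent.Y715.T.RecG (Pq)
open Pool.Agent.Y699.E (prm prm_one prm_mul prm_pow prm_prod pq_prm pp_induction PD mem_PD PD_one
  PD_pow_mul notMem_PD PS eq_of_dvd nrm prm_ne_zero pq_ne)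
open Pool.Agent.Y703.CT (Dt pD Ker ClsE Tw Sel1 ShK MwK a_ne descK)
open Pool.Agent.Y715.T.Gi Pool.Agent.Y715.T.Nr Pool.Agent.Y715.T.Df Pool.Agent.Y715.T.Ell
open Pool.Agent.XL6 (KerV SelH SelK sel_card selK_card rk_le rank_le)
open Pool.Agent.Y696.CTK (ED Tri Parts TrfData)
open Pool.Agent.Y155.CT (a_mul a_cont)
open Q283.T3 (ex KT mem_KT)

theorem tw_div {i₀ : QB} {hi : i₀ ^ 2 + i₀ + 1 = 0} {z x y : Ei} (hx : x ≠ 0) (h : z = x ^ 3 * y)
    {u : QB} {a : GK i₀ → ZMod 3} (hT : Tw hi z u a) : Tw hi y (u / ev i₀ hi x) a := by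
  have hx0 : ev i₀ hi x ≠ 0 := ev_ne hi hx
  refine ⟨?_, fun σ => ?_⟩
  · rw [div_pow, hT.cube, h, map_mul, map_pow, mul_div_cancel_left₀ _ (pow_ne_zero 3 hx0)]
  · rw [map_div₀, hT.act σ, gk_ev hi σ x, mul_div_assoc]

/-- the constants -/
theorem kerV_three {J : Type} [Fintype J] [Nonempty J] {π : J → Ei} {e : J → ZMod 3} :
    (KerV π e).ncard = 3 ↔ Ker π e := by
  have hfin : (KerV π e).Finite := Set.toFinite _
  have hc : ∀ c : ZMod 3, (fun _ => c : J → ZMod 3) ∈ KerV π e := fun c j => by simp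
  have hinj : Function.Injective (fun (c : ZMod 3) (_ : J) => c) := fun c c' h =>
    congrFun h (Classical.arbitrary J)
  constructor
  · intro h3 v hv
    have hcc : Set.range (fun (c : ZMod 3) (_ : J) => c) = KerV π e := by
      apply Set.eq_of_subset_of_ncard_le _ _ hfin
      · rintro _ ⟨c, rfl⟩
        exact hc c
      · rw [h3, Set.ncard_range_of_injective hinj, Nat.card_zmod]
    have hv' : v ∈ KerV π e := hv
    rw [← hcc] at hv'
    obtain ⟨c, rfl⟩ := hv'
    intro i k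
    rfl
  · intro hk
    have hcc : KerV π e = Set.range (fun (c : ZMod 3) (_ : J) => c) := by
      ext v
      constructor
      · intro hv
        exact ⟨v (Classical.arbitrary J), funext fun i => hk v hv (Classical.arbitrary J) i⟩
      · rintro ⟨c, rfl⟩
        exact hc c
    rw [hcc, Set.ncard_range_of_injective hinj, Nat.card_zmod]

theorem kerV_ge {J : Type} [Fintype J] [Nonempty J] {π : J → Ei} {e : J → ZMod 3} :
    3 ≤ (KerV π e).ncard := by
  have hfin : (KerV π e).Finite := Set.toFinite _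
  have hinj : Function.Injective (fun (c : ZMod 3) (_ : J) => c) := fun c c' h =>
    congrFun h (Classical.arbitrary J)
  have h1 : Set.range (fun (c : ZMod 3) (_ : J) => c) ⊆ KerV π e := by
    rintro _ ⟨c, rfl⟩
    exact fun j => by simp
  have h2 := Set.ncard_le_ncard h1 hfin
  rwa [Set.ncard_range_of_injective hinj, Nat.card_zmod] at h2

variable {K : Type} [Field K] [NumberField K]

/-- **The Selmer group, the rank, the triviality, for a product of two elements.** -/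
theorem main_D (P : Parts) (j : Ei ≃+* 𝓞 K) {D m : Ei} (hD : ClsE D) (hm : prm m)
    (h9 : (9 : ℤ) ∣ nr m - 1) {W : Finset Ei} (hW : PD m ⊆ W) (hWq : ∀ π ∈ W, Pq π) :
    (SelK (j (D * m) : K)).ncard = 3 ^ finrank (ZMod 3) (KT (PD D ∪ W) (ex (mu m) (PD D))) ∧
    1 ≤ finrank (ZMod 3) (KT (PD D ∪ W) (ex (mu m) (PD D))) ∧
    (∀ r : ℕ, finrank (ZMod 3) (KT (PD D ∪ W) (ex (mu m) (PD D))) ≤ r + 1 →
      finrank ℤ (ED (j (D * m) : K)).toAffine.Point ≤ 2 * r) ∧
    (finrank (ZMod 3) (KT (PD D ∪ W) (ex (mu m) (PD D))) = 1 ↔ Tri (j (D * m))) := by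
  have hPS : PS D := ⟨hD.1, hD.2.1⟩
  obtain ⟨x, hx, hDm⟩ := dec hPS hm hW hWq
  obtain ⟨T, hT⟩ : ∃ T, T = PD D ∪ W := ⟨_, rfl⟩
  obtain ⟨e, he⟩ : ∃ e, e = ex (mu m) (PD D) := ⟨_, rfl⟩
  rw [← hT, ← he] at hDm ⊢
  have hTq : ∀ π ∈ T, Pq π := fun π hπ => by
    rw [hT] at hπ
    exact (mem_union.1 hπ).elim (fun h => ((mem_PD hPS.ne).1 h).1) (hWq π)
  have hdt := dt_of (e := e) hTq
  rw [← pD_eq (T := T) (e := e)] at hDm
  obtain ⟨E, hE⟩ : ∃ E, E = pD (fun t : JT T e => (t.1.1 : Ei)) (fun t => e t.1) := ⟨_, rfl⟩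
  have hne : D * m ≠ 0 := mul_ne_zero hPS.ne (prm_ne_zero hm)
  have hx0 : x ≠ 0 := prm_ne_zero hx
  have hE9 : ¬ (9 : ℤ) ∣ nr E - 1 := by
    rw [← hE] at hDm
    intro h
    apply hD.2.2
    have h1 := congrArg nr hDm
    have e1 : ∀ a b : Ei, nr (a * b) = nr a * nr b := fun a b => Pool.Agent.Y692.QS.nr_mul a b
    have e2 : nr (x ^ 3) = nr x ^ 3 := by
      rw [pow_succ, pow_two, e1, e1]; ring
    rw [e1, e1, e2] at h1
    obtain ⟨a, ha⟩ := nr_prm hx
    obtain ⟨b, hb⟩ := h9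
    obtain ⟨c, hc⟩ := h
    have hx1 : nr x = 1 + 3 * a := by linarith
    have hb1 : nr m = 1 + 9 * b := by linarith
    have hc1 : nr E = 1 + 9 * c := by linarith
    rw [hx1, hb1, hc1] at h1
    refine ⟨(a + 3 * a ^ 2 + 3 * a ^ 3) * (1 + 9 * c) + c - nr D * b, ?_⟩
    linear_combination h1
  have hJ : Nonempty (JT T e) := by
    by_contra hn
    rw [not_nonempty_iff] at hn
    apply hE9
    rw [hE]
    unfold pD
    rw [Finset.univ_eq_empty, Finset.prod_empty, Pool.Agent.Y692.QS.nr_one, sub_self]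
    exact dvd_zero _
  have hE9' := hE9
  rw [hE] at hE9'
  have hsc : ∀ (i₀ : QB) (hi : i₀ ^ 2 + i₀ + 1 = 0) (u : QB) (a : GK i₀ → ZMod 3),
      Tw hi (D * m) u a → (SelH hi a).ncard = 3 ^ finrank (ZMod 3) (KT T e) := by
    intro i₀ hi u a hTw
    exact (sel_card hdt hE9' (tw_div hx0 hDm hTw)).trans card_ker
  have hge : 1 ≤ finrank (ZMod 3) (KT T e) := by
    have h1 := kerV_ge (π := fun t : JT T e => (t.1.1 : Ei)) (e := fun t => e t.1)
    rw [card_ker] at h1
    by_contra h2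
    have h3 : finrank (ZMod 3) (KT T e) = 0 := by omega
    rw [h3, pow_zero] at h1
    omega
  obtain ⟨ee, i₀, hi, u, a, Ψ, g, hdata⟩ := P.trf K j _ hne
  have hTw := hdata.1
  have hTw' := tw_div hx0 hDm hTw
  have h1 := hsc i₀ hi u a hTw
  have hane := a_ne hdt hTw'
  refine ⟨(selK_card hne hdata).trans h1, hge, fun r hr => ?_, ?_⟩
  · have hfin : (SelH hi a).Finite := Set.finite_of_ncard_ne_zero (by rw [h1]; positivity)
    refine (rk_le hne hdata).trans (rank_le (a_mul hne hTw) (a_cont hne hTw) hane hfin ?_)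
    rw [h1]
    exact Nat.pow_le_pow_right (by norm_num) hr
  · constructor
    · intro hf
      have hk : Ker (fun t : JT T e => (t.1.1 : Ei)) (fun t => e t.1) := by
        rw [← kerV_three, card_ker, hf, pow_one]
      exact ⟨(P.mwt P.trf K j _ hne fun i₀ hi u a hT => (descK hdt hk hE9' (tw_div hx0 hDm hT)).2).1,
        P.sht P.trf K j _ hne fun i₀ hi u a hT => (descK hdt hk hE9' (tw_div hx0 hDm hT)).1⟩
    · rintro ⟨k1, k2⟩
      have hM := P.mwc K j _ hne ee i₀ hi u a Ψ g hdata hane k1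
      have hS := P.shc P.plc K j _ hne ee i₀ hi u a Ψ g hdata k2
      have hsel := Pool.Agent.H70CT.t_SHC _ hne i₀ hi u a hTw hane hS hM
      have hsub : SelH hi a ⊆ Set.range (fun c : ZMod 3 => fun σ => c * a σ) := by
        rintro h ⟨b1, b2, b3⟩
        obtain ⟨c, hc⟩ := hsel h b1 b2 b3
        exact ⟨c, (funext hc).symm⟩
      have h3 : (SelH hi a).ncard ≤ 3 := by
        refine (Set.ncard_le_ncard hsub (Set.toFinite _)).trans ?_
        rw [← Set.image_univ]
        refine (Set.ncard_image_le (Set.toFinite _)).trans ?_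
        rw [Set.ncard_univ, Nat.card_zmod]
      rw [h1] at h3
      by_contra h4
      have h5 : 2 ≤ finrank (ZMod 3) (KT T e) := by omega
      have h6 := Nat.pow_le_pow_right (n := 3) (by norm_num) h5
      omega

end Q283.T3B
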