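import Pool.Agent.Q283.T3.Key
import Pool.Agent.Y703.XL.Asy

/-! The joint law for the sets -/

set_option autoImplicit false

open scoped Classical
open Finset Filter

namespace Q283.T3A

open Q283.T3 (t_KEM t_BXM t_BAD2 zz_ev GG NdF BXM gi cf gi_ge gi_le cf_pos cf_le_one)

open Pool.Agent.Y692.QS (Ei w nr toC)
open Pool.Agent.Y715.T.RecG (Pq)
open Pool.Agent.Y699.E (nrm QB PD)
open Pool.Agent.Y703.CX (jj XX eL zz kk eL_tendsto logX_eq rpow_eL HH NN ev_eL one_le_exp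
  HH_ge HH_le HH_pos kk_ge kk_le X_pos one_add_log lin_le zz_ge zz_pos)
open Pool.Agent.Y703.CQ (Sml sml_of sml_add)
open Pool.Agent.Y703.XK

/-- the main error term -/
theorem sml_main2 (w : ℕ) {C : ℝ} (hC : 1 ≤ C) : Sml 0 fun X => 3 ^ (w * kk X) *
    ((9 * (NN X : ℝ) + 9) ^ kk X *
    (3 ^ (9 * kk X ^ 2 + 9) * kap C X) * (X * (1 + Real.log X))) := by
  apply sml_of (C := 4 * C) (a := 1) (by norm_num)
  filter_upwards [ev_eL 40000, ev_eL (13 * w)] with X hX hXw
  set l := eL X with hl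
  have h0 : 0 < eL X := by linarith
  have h1 : 1 ≤ eL X := by linarith
  have hX0 : (0 : ℝ) ≤ X := Nat.cast_nonneg _
  have hN : 9 * (NN X : ℝ) + 9 ≤ Real.exp (5 * l) := by
    have h2 : (NN X : ℝ) ≤ HH X * Real.log X + 1 := by
      unfold NN
      push_cast
      have := Nat.floor_le (a := (HH X : ℝ) * Real.log X)
        (mul_nonneg (Nat.cast_nonneg _) (Real.log_natCast_nonneg X))
      linarith
    have h3 : (HH X : ℝ) * Real.log X ≤ 2 * Real.exp (4 * l) := by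
      rw [logX_eq h0]
      calc (HH X : ℝ) * Real.exp (eL X) ≤ 2 * Real.exp (3 * eL X) * Real.exp (eL X) :=
            mul_le_mul_of_nonneg_right (HH_le h0) (Real.exp_pos _).le
        _ = 2 * Real.exp (4 * l) := by
            rw [mul_assoc, ← Real.exp_add]
            congr 2
            rw [hl]
            ring
    have h4 : 1 ≤ Real.exp (4 * l) := one_le_exp (by linarith)
    have h5 : (36 : ℝ) ≤ Real.exp l := by
      have := Real.add_one_le_exp l
      linarith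
    have h6 : Real.exp (5 * l) = Real.exp (4 * l) * Real.exp l := by
      rw [← Real.exp_add]; congr 1; ring
    rw [h6]
    nlinarith
  have hkk := kk_le h1
  have hkk0 : (0 : ℝ) ≤ kk X := Nat.cast_nonneg _
  have hA : (9 * (NN X : ℝ) + 9) ^ kk X ≤ Real.exp (55 * l ^ 2) := by
    calc (9 * (NN X : ℝ) + 9) ^ kk X ≤ (Real.exp (5 * l)) ^ kk X := by gcongr
      _ = Real.exp (kk X * (5 * l)) := (Real.exp_nat_mul _ _).symm
      _ ≤ Real.exp (55 * l ^ 2) := by
          apply Real.exp_le_exp.2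
          nlinarith
  have hB : (3 : ℝ) ^ (9 * kk X ^ 2 + 9) ≤ Real.exp (1200 * l ^ 2) := by
    have e : (3 : ℝ) ^ (9 * kk X ^ 2 + 9) = Real.exp ((9 * (kk X : ℝ) ^ 2 + 9) * Real.log 3) := by
      rw [mul_comm (9 * (kk X : ℝ) ^ 2 + 9) (Real.log 3), Real.exp_mul, Real.exp_log (by norm_num)]
      rw [← Real.rpow_natCast]
      congr 1
      push_cast
      ring
    rw [e]
    apply Real.exp_le_exp.2
    have h2 := log_three
    have h3 : (kk X : ℝ) ^ 2 ≤ 121 * l ^ 2 := by nlinarith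
    have h4 : 0 ≤ (kk X : ℝ) ^ 2 := sq_nonneg _
    have h5 : (40000 : ℝ) ^ 2 ≤ l ^ 2 := by nlinarith
    calc (9 * (kk X : ℝ) ^ 2 + 9) * Real.log 3 ≤ (9 * (kk X : ℝ) ^ 2 + 9) * 1.1 := by gcongr
      _ ≤ (9 * (121 * l ^ 2) + 9) * 1.1 := by gcongr
      _ ≤ 1200 * l ^ 2 := by linarith
  have hD : (3 : ℝ) ^ (w * kk X) ≤ Real.exp (l ^ 2) := by
    have e : (3 : ℝ) ^ (w * kk X) = Real.exp ((w * (kk X : ℝ)) * Real.log 3) := by
      rw [mul_comm (w * (kk X : ℝ)) (Real.log 3), Real.exp_mul, Real.exp_log (by norm_num)]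
      rw [← Real.rpow_natCast]
      congr 1
      push_cast
      ring
    rw [e]
    apply Real.exp_le_exp.2
    have h2 := log_three
    have hw0 : (0 : ℝ) ≤ w := Nat.cast_nonneg _
    calc (w * (kk X : ℝ)) * Real.log 3 ≤ (w * (kk X : ℝ)) * 1.1 := by gcongr
      _ ≤ (w * (11 * l)) * 1.1 := by gcongr
      _ ≤ l ^ 2 := by nlinarith
  have hK := kap_le hC h1
  have hLg := one_add_log h0
  have hmain : 3 ^ (w * kk X) * ((9 * (NN X : ℝ) + 9) ^ kk X * (3 ^ (9 * kk X ^ 2 + 9) * kap C X) *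
      (X * (1 + Real.log X))) ≤ Real.exp (l ^ 2) * (Real.exp (55 * l ^ 2) * (Real.exp (1200 * l ^ 2) *
        (2 * C * Real.exp (-l ^ 3 / 24))) * (X * (2 * Real.exp l))) := by
    have := kap_nonneg hC X
    have : 0 ≤ 1 + Real.log X := by
      have := Real.log_natCast_nonneg X
      linarith
    gcongr
  refine hmain.trans ?_
  have e : Real.exp (l ^ 2) * (Real.exp (55 * l ^ 2) * (Real.exp (1200 * l ^ 2) *
        (2 * C * Real.exp (-l ^ 3 / 24))) * (X * (2 * Real.exp l))) =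
      4 * C * (X * Real.exp (l ^ 2 + 55 * l ^ 2 + 1200 * l ^ 2 + -l ^ 3 / 24 + l)) := by
    rw [Real.exp_add, Real.exp_add, Real.exp_add, Real.exp_add]
    ring
  rw [e]
  have h9 : l ^ 2 + 55 * l ^ 2 + 1200 * l ^ 2 + -l ^ 3 / 24 + l ≤ -1 * l := by
    have h10 : 40000 * l ^ 2 ≤ l ^ 3 := by
      have : l ^ 3 = l * l ^ 2 := by ring
      rw [this]
      exact mul_le_mul_of_nonneg_right hX (sq_nonneg l)
    nlinarith
  have h11 := Real.exp_le_exp.2 h9
  have hC0 : (0 : ℝ) ≤ 4 * C := by linarith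
  gcongr

/-- the sets outside the regular part -/
theorem out_sub2 {W : Finset Ei} {R : ℕ} (hR : 1 ≤ R) (X z H k : ℕ) :
    SS X \ ((RR X z H k 0).filter fun S => NdF R W (sm z S) (la z S)) ⊆
      ((((SS X).filter fun S => k < S.card) ∪
      ((SS X).filter fun S => S.card ≤ k ∧
        X < (∏ π ∈ sm z S, nrm π) * ∏ π ∈ la z S, XX H (bl H π))) ∪
      ((SS X).filter fun S => ¬ Set.InjOn (bl H) (la z S : Set Ei))) ∪
      ((SS X).filter fun S => S.card ≤ k ∧ ¬ NdF R W (sm z S) (la z S)) := by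
  intro S hS
  rw [Finset.mem_sdiff, Finset.mem_filter] at hS
  obtain ⟨h1, h2⟩ := hS
  simp only [mem_union, mem_filter]
  by_contra hc
  push Not at hc
  obtain ⟨⟨⟨c1, c2⟩, c3⟩, c5⟩ := hc
  have d1 : S.card ≤ k := c1 h1
  have d2 := c2 h1 d1
  have d3 := c3 h1
  have d5 := c5 h1 d1
  apply h2
  refine ⟨?_, d5⟩
  unfold RR
  rw [mem_filter]
  have d6 := d5.2
  have d7 : (sm z S).card ≤ (sm z S ∪ W).card := card_le_card subset_union_left
  exact ⟨h1, d3, d1, d2, by omega⟩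

theorem c_bounds {M : ℕ} (r : Fin M → ℕ) : 0 ≤ ∏ k, gi * cf (r k) ∧ ∏ k, gi * cf (r k) ≤ 1 := by
  have h0 : ∀ k, 0 ≤ gi * cf (r k) := fun k => mul_nonneg gi_ge (cf_pos _).le
  refine ⟨prod_nonneg fun k _ => h0 k, prod_le_one (fun k _ => h0 k) fun k _ => ?_⟩
  exact mul_le_one₀ gi_le (cf_pos _).le (cf_le_one _)

/-- **The joint law for the sets.** -/
theorem t_ASY (hBIL : S_BIL) (hEQ : S_EQ) (hC : S_CNT) (hLo : S_LOW) {M : ℕ} (r : Fin M → ℕ)
    (W : Finset Ei) (m : Fin M → Ei → ZMod 3) (hW : ∀ u ∈ W, Pq u)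
    (hm : ∀ k u, u ∉ W → m k u = 0) (hml : ∀ k l, k ≠ l → m k ≠ m l) :
    Tendsto (fun X : ℕ => (((SS X).filter (GG W m r)).card : ℝ) / ((SS X).card : ℝ)) atTop
      (nhds (∏ k, gi * cf (r k))) := by
  obtain ⟨C, hC1, hkey⟩ := t_KEM hBIL
  obtain ⟨D, hD⟩ := hC
  obtain ⟨c, X₀, hc, hlow⟩ := hLo
  obtain ⟨g, hg⟩ : ∃ g : ℝ, g = ∏ k, gi * cf (r k) := ⟨_, rfl⟩
  have hgb := c_bounds r
  rw [← hg] at hgb ⊢
  rw [Metric.tendsto_nhds]
  intro ε hε
  obtain ⟨R₀, hR₀⟩ := t_BXM hEQ r (ε / 4) (by linarith)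
  set R : ℕ := R₀ + 1 with hR
  have hbx := hR₀ R (by omega) W m hW hm hml
  rw [← hg] at hbx
  have s1 := sml_many hD
  have s2 := sml_cut hD
  have s3 := sml_coll hD
  have s5 := sml_eps (t_BAD2 R W hW)
  have s6 := sml_main2 W.card hC1
  have s := sml_add (sml_add (sml_add (sml_add s1 s2) s3) s5) s6
  have hδ : (0 : ℝ) < c * ε / 4 := by positivity
  obtain ⟨X₁, hX₁⟩ := zz_ev (W.sup nrm)
  filter_upwards [s (c * ε / 4) hδ, ev_eL 1, eventually_ge_atTop X₀, eventually_ge_atTop X₁]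
    with X hX hl hX0 hX1
  rw [neg_zero, zero_mul, Real.exp_zero, mul_one] at hX
  have hl0 : 0 < eL X := by linarith
  have hlo := hlow X hX0
  have hXp := X_pos hl0
  have hXp' : (0 : ℝ) < X := by exact_mod_cast hXp
  have hSpos : (0 : ℝ) < ((SS X).card : ℝ) := by
    refine lt_of_lt_of_le ?_ hlo
    positivity
  have hN : (HH X : ℝ) * Real.log X < NN X := by
    unfold NN
    push_cast
    exact Nat.lt_floor_add_one _
  have hmain := hkey W R (GG W m r) g (ε / 4) hbx (by linarith) X (zz X) (HH X) (kk X) 0 (NN X)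
    (kap C X) (fun u hu => (le_sup (f := nrm) hu).trans (hX₁ X hX1)) hXp (HH_pos hl0) (zz_pos hl)
    (kap_nonneg hC1 X) (kap_pow hC1 hl) hN
  set T := (RR X (zz X) (HH X) (kk X) 0).filter fun S => NdF R W (sm (zz X) S) (la (zz X) S) with hT
  have hTG : (RR X (zz X) (HH X) (kk X) 0).filter
      (fun S => NdF R W (sm (zz X) S) (la (zz X) S) ∧ GG W m r S) = T.filter (GG W m r) := by
    rw [hT, filter_filter]
  rw [hTG] at hmain
  have hTS : T ⊆ SS X := (filter_subset _ _).trans (filter_subset _ _)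
  have hRS : ((RR X (zz X) (HH X) (kk X) 0).card : ℝ) ≤ ((SS X).card : ℝ) := by
    exact_mod_cast card_le_card (filter_subset _ _)
  have hcmp := cmp (GG W m r) T (SS X) hTS g hgb.1 hgb.2
  have hout : ((SS X \ T).card : ℝ) ≤
      ((((SS X).filter fun S => kk X < S.card).card : ℝ) +
      (((SS X).filter fun S => S.card ≤ kk X ∧
        X < (∏ π ∈ sm (zz X) S, nrm π) * ∏ π ∈ la (zz X) S, XX (HH X) (bl (HH X) π)).card : ℝ) +
      (((SS X).filter fun S => ¬ Set.InjOn (bl (HH X)) (la (zz X) S : Set Ei)).card : ℝ)) +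
      (((SS X).filter fun S => S.card ≤ kk X ∧
        ¬ NdF R W (sm (zz X) S) (la (zz X) S)).card : ℝ) := by
    have g := card_le_card (out_sub2 (W := W) (R := R) (by omega) X (zz X) (HH X) (kk X))
    rw [← hT] at g
    have g2 := (g.trans (card_union_le _ _)).trans (Nat.add_le_add_right ((card_union_le _ _).trans
      (Nat.add_le_add_right (card_union_le _ _) _)) _)
    exact_mod_cast g2
  have htot : |(((SS X).filter (GG W m r)).card : ℝ) - g * ((SS X).card : ℝ)| ≤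
      ε / 4 * ((SS X).card : ℝ) + c * ε / 4 * X := by
    have g1 : ε / 4 * ((RR X (zz X) (HH X) (kk X) 0).card : ℝ) ≤
        ε / 4 * ((SS X).card : ℝ) := mul_le_mul_of_nonneg_left hRS (by positivity)
    linarith
  rw [Real.dist_eq]
  have e3 : (((SS X).filter (GG W m r)).card : ℝ) / ((SS X).card : ℝ) - g =
      ((((SS X).filter (GG W m r)).card : ℝ) - g * ((SS X).card : ℝ)) /
        ((SS X).card : ℝ) := by
    field_simp
  rw [e3, abs_div, abs_of_pos hSpos, div_lt_iff₀ hSpos]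
  refine lt_of_le_of_lt htot ?_
  have g2 : c * ε / 4 * X ≤ ε / 4 * ((SS X).card : ℝ) := by
    calc c * ε / 4 * X = ε / 4 * (c * X) := by ring
      _ ≤ _ := mul_le_mul_of_nonneg_left hlo (by linarith)
  have g4 : 0 < ε * ((SS X).card : ℝ) := by positivity
  linarith

end Q283.T3A
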