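import Pool.Agent.Q283.T3.Key

/-! The sum over the boxes, with a condition on the small part -/

set_option autoImplicit false

namespace Q283.T3

open Finset
open Pool.Agent.Y692.QS (Ei w nr toC)
open Pool.Agent.Y715.T.Rec (cs)
open Pool.Agent.Y715.T.RecG (Pq)
open Pool.Agent.Y699.E (ez nrm QB mem_QB pq_nrm_two nrm_prod PS_prod PD SB mem_SB card_SB_le
  hsum_SB lg)
open Pool.Agent.Y703.CX (jj XX)
open Pool.Agent.Y703.XK
open Pool.Agent.XLK (fcc nrm_one_le ph ky CC mem_CC sm_fill la_fill key_facts key_bij hb_box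
  card_QB_le prs_card keg_err)
open scoped Classical

/-- **The sum over the boxes.** -/
theorem t_KEQ (hB1 : S_BIL) : ∃ C : ℝ, 1 ≤ C ∧ ∀ (W : Finset Ei) (R : ℕ) (G Q : Finset Ei → Prop)
    (cc δ : ℝ), BXM W R G cc δ → 0 ≤ δ →
  ∀ (X z H k V N : ℕ) (κ : ℝ), (∀ u ∈ W, nrm u ≤ z) → 1 ≤ X → 1 ≤ H → 1 ≤ z → 0 ≤ κ →
  C ≤ κ ^ 24 * z → (H : ℝ) * Real.log X < N →
  |(((RR X z H k V).filter fun S => Q (sm z S) ∧ NdF R W (sm z S) (la z S) ∧ G S).card : ℝ) -
      cc * (((RR X z H k V).filter fun S => Q (sm z S) ∧ NdF R W (sm z S) (la z S)).card : ℝ)| ≤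
    δ * (((RR X z H k V).filter fun S => Q (sm z S)).card : ℝ) +
    3 ^ (W.card * k) * ((9 * N + 9 : ℝ) ^ k * (3 ^ (9 * k ^ 2 + 9) * κ) * (X * (1 + Real.log X))) := by
  obtain ⟨C₁, hC₁, hb1⟩ := hB1
  refine ⟨C₁, hC₁, ?_⟩
  intro W R G Q cc δ hB hδ0 X z H k V N κ hW hX hH hz hκ h1 hN
  set T := ((RR X z H k V).image (ky z H)).filter fun k' => Q k'.1 with hT
  have hfib : ∀ P : Finset Ei → Prop,
      (((RR X z H k V).filter fun S => Q (sm z S) ∧ P S).card : ℝ) =
      ∑ k' ∈ T, (((RR X z H k V).filter fun S => ky z H S = k' ∧ P S).card : ℝ) := by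
    intro P
    rw [Finset.card_eq_sum_card_fiberwise (f := ky z H) (t := T) (by
      intro S hS
      rw [Finset.mem_coe, Finset.mem_filter] at hS
      rw [Finset.mem_coe, hT, Finset.mem_filter]
      exact ⟨Finset.mem_image_of_mem _ hS.1, hS.2.1⟩)]
    push_cast
    refine Finset.sum_congr rfl fun k' hk' => ?_
    rw [hT, Finset.mem_filter] at hk'
    congr 2
    ext S
    simp only [Finset.mem_filter]
    constructor
    · rintro ⟨⟨a1, a2, a3⟩, a4⟩
      exact ⟨a1, a4, a3⟩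
    · rintro ⟨a1, a2, a3⟩
      refine ⟨⟨a1, ?_, a3⟩, a2⟩
      have : sm z S = k'.1 := congrArg Prod.fst a2
      rw [this]
      exact hk'.2
  have hall := hfib fun _ => True
  simp only [and_true] at hall
  have q1 : (((RR X z H k V).filter fun S => Q (sm z S) ∧ NdF R W (sm z S) (la z S) ∧ G S).card : ℝ) =
      ∑ k' ∈ T, (((RR X z H k V).filter fun S => ky z H S = k' ∧
        (NdF R W (sm z S) (la z S) ∧ G S)).card : ℝ) :=
    (congrArg _ (fcc fun _ _ => Iff.rfl)).trans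
      ((hfib fun S => NdF R W (sm z S) (la z S) ∧ G S).trans
      (Finset.sum_congr rfl fun k' _ => congrArg _ (fcc fun _ _ => Iff.rfl)))
  rw [q1, hfib, Finset.mul_sum, ← Finset.sum_sub_distrib, hall, Finset.mul_sum]
  refine (Finset.abs_sum_le_sum_abs _ _).trans ?_
  have h3 : ∑ k' ∈ T, |(((RR X z H k V).filter fun S => ky z H S = k' ∧
      (NdF R W (sm z S) (la z S) ∧ G S)).card : ℝ) - cc * (((RR X z H k V).filter fun S =>
      ky z H S = k' ∧ NdF R W (sm z S) (la z S)).card : ℝ)| ≤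
      ∑ k' ∈ T, (δ * (((RR X z H k V).filter fun S =>
      ky z H S = k').card : ℝ) +
      3 ^ (W.card * k) * ((3 ^ (9 * k ^ 2) * κ) * (X * (1 / ((∏ p ∈ k'.1, nrm p : ℕ) : ℝ))))) := by
    refine Finset.sum_le_sum fun k' hk => ?_
    obtain ⟨S₀, J⟩ := k'
    rw [hT, Finset.mem_filter] at hk
    have := per_key hB hδ0 hb1 hH hz hκ h1 hW hk.1
    simp only [and_true] at this
    exact this
  refine h3.trans ?_
  rw [Finset.sum_add_distrib, ← Finset.mul_sum (a := (3 : ℝ) ^ (W.card * k))]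
  refine add_le_add (le_refl _) ?_
  exact mul_le_mul_of_nonneg_left (keg_err hX hH hz hκ hN fun k' hk => by
    rw [hT, Finset.mem_filter] at hk
    exact hk.1) (by positivity)

end Q283.T3
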