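import Pool.Agent.Q283.TQ.Sym
import Pool.Agent.Y550.XK.NS
import Pool.Agent.Y696.XL.Key

/-! The sets of the class that avoid a finite set have positive density -/

set_option autoImplicit false

open scoped Classical

namespace Q283.T3A

open Finset Filter
open Pool.Agent.Y692.QS (Ei)
open Pool.Agent.Y715.T.RecG (Pq)
open Pool.Agent.Y699.E (nrm nrm_natCast)
open Pool.Agent.Y703.XK
open Pool.Agent.XLK (mem_SS nrm_one_le)

theorem nrm_neg' (x : Ei) : nrm (-x) = nrm x := by
  have h1 := Pool.Agent.Y699.E.nrm_eq' (-x)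
  have h2 := Pool.Agent.Y699.E.nrm_eq' x
  have e1 : (-x).re = -x.re := rfl
  have e2 : (-x).im = -x.im := rfl
  rw [e1, e2] at h1
  have : (nrm (-x) : ℤ) = nrm x := by rw [h1, h2]; ring
  exact_mod_cast this

/-- the set avoids `V` -/
def AV (V S : Finset Ei) : Prop := Disjoint S V

/-- an auxiliary prime -/
theorem aux_prime (V : Finset Ei) : ∃ π : Ei, Pq π ∧ π ∉ V ∧ nrm π % 9 = 4 := by
  have hu : IsUnit (2 : ZMod 9) := by decide
  obtain ⟨q, hq, hqp, hq9⟩ := Nat.forall_exists_prime_gt_and_eq_mod hu (V.sup nrm)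
  have h9 : q % 9 = 2 := by
    have h1 : ((q : ℕ) : ZMod 9) = ((2 : ℕ) : ZMod 9) := by rw [hq9]; rfl
    have h2 := (ZMod.natCast_eq_natCast_iff _ _ _).1 h1
    exact h2
  refine ⟨-(q : Ei), Q283.TQ.pq_neg hqp (by omega), fun h => ?_, ?_⟩
  · have h1 := le_sup (f := nrm) h
    rw [nrm_neg', nrm_natCast] at h1
    have h2 := hqp.two_le
    nlinarith
  · rw [nrm_neg', nrm_natCast, Nat.pow_mod, h9]

/-- the modified set -/
noncomputable def mod9 (π : Ei) (V S : Finset Ei) : Finset Ei :=
  if (∏ ρ ∈ S \ V, nrm ρ) % 9 ≠ 1 then S \ V else if π ∈ S \ V then (S \ V).erase π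
    else insert π (S \ V)

theorem low_V (V : Finset Ei) : ∃ (c : ℝ) (X₀ : ℕ), 0 < c ∧ ∀ X : ℕ, X₀ ≤ X →
    c * X ≤ (((SS X).filter (AV V)).card : ℝ) := by
  obtain ⟨c, X₀, hc, hlow⟩ := Pool.Agent.Y550.XK.NS.t_LOW
  obtain ⟨π, hπ, hπV, h4⟩ := aux_prime V
  set N := nrm π with hN
  have hN1 : 1 ≤ N := nrm_one_le hπ
  have hN0 : (0 : ℝ) < N := by exact_mod_cast hN1
  -- the map
  have key : ∀ Y : ℕ, (SS Y).card ≤ (2 ^ V.card * 3) *
      ((SS (Y * N)).filter (AV V)).card := by
    intro Y
    have hmaps : ∀ S ∈ SS Y, mod9 π V S ∈ (SS (Y * N)).filter (AV V) := by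
      intro S hS
      rw [mem_SS] at hS
      obtain ⟨⟨h1, h2⟩, h3⟩ := hS
      have hprod : ∏ ρ ∈ S \ V, nrm ρ ≤ Y := by
        refine le_trans ?_ h3
        exact prod_le_prod_of_subset_of_one_le' sdiff_subset fun u hu _ => nrm_one_le (h1 u hu)
      have hpq : ∀ ρ ∈ S \ V, Pq ρ := fun ρ hρ => h1 ρ (sdiff_subset hρ)
      have hdis : Disjoint (S \ V) V := sdiff_disjoint
      rw [mem_filter, mem_SS]
      unfold AV mod9
      split_ifs with k1 k2
      · exact ⟨⟨⟨hpq, k1⟩, hprod.trans (Nat.le_mul_of_pos_right _ hN1)⟩, hdis⟩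
      · refine ⟨⟨⟨fun ρ hρ => hpq ρ (mem_of_mem_erase hρ), fun h => ?_⟩, ?_⟩,
          hdis.mono_left (erase_subset _ _)⟩
        · rw [not_not, ← mul_prod_erase _ _ k2, Nat.mul_mod, h, ← hN, h4] at k1
          omega
        · refine le_trans ?_ (hprod.trans (Nat.le_mul_of_pos_right _ hN1))
          exact prod_le_prod_of_subset_of_one_le' (erase_subset _ _) fun u hu _ =>
            nrm_one_le (hpq u hu)
      · refine ⟨⟨⟨fun ρ hρ => ?_, fun h => ?_⟩, ?_⟩, ?_⟩
        · rcases mem_insert.1 hρ with h | h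
          · rw [h]; exact hπ
          · exact hpq ρ h
        · rw [not_not] at k1
          rw [prod_insert k2, Nat.mul_mod, k1, ← hN, h4] at h
          omega
        · rw [prod_insert k2, mul_comm]
          exact Nat.mul_le_mul_right _ hprod
        · rw [disjoint_insert_left]
          exact ⟨hπV, hdis⟩
    refine le_trans (card_le_mul_card_image_of_maps_to hmaps (2 ^ V.card * 3) fun T _ => ?_) le_rfl
    -- the fibres
    have hsub : (SS Y).filter (fun S => mod9 π V S = T) ⊆
        (V.powerset ×ˢ ({T, insert π T, T.erase π} : Finset (Finset Ei))).image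
          fun p => p.1 ∪ p.2 := by
      intro S hS
      rw [mem_filter] at hS
      rw [mem_image]
      refine ⟨(S ∩ V, S \ V), ?_, ?_⟩
      · rw [mem_product, mem_powerset, mem_insert, mem_insert, mem_singleton]
        refine ⟨inter_subset_right, ?_⟩
        have h5 := hS.2
        unfold mod9 at h5
        split_ifs at h5 with k1 k2
        · exact Or.inl h5
        · right; left
          rw [← h5]
          exact (insert_erase k2).symm
        · right; right
          rw [← h5]
          exact (erase_insert k2).symm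
      · show S ∩ V ∪ S \ V = S
        rw [union_comm]
        exact sdiff_union_inter S V
    refine (card_le_card hsub).trans (card_image_le.trans ?_)
    rw [card_product, card_powerset]
    exact Nat.mul_le_mul_left _ card_le_three
  refine ⟨c / (2 ^ V.card * 3 * (2 * N)), (X₀ + 1) * N, by positivity, fun X hX => ?_⟩
  have hY : X₀ + 1 ≤ X / N := by
    rw [Nat.le_div_iff_mul_le hN1]
    exact hX
  have h1 := hlow (X / N) (by omega)
  have h2 := key (X / N)
  have h3 : ((SS (X / N * N)).filter (AV V)).card ≤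
      ((SS X).filter (AV V)).card := by
    refine card_le_card fun S hS => ?_
    rw [mem_filter, mem_SS] at hS ⊢
    exact ⟨⟨hS.1.1, hS.1.2.trans (Nat.div_mul_le_self _ _)⟩, hS.2⟩
  have h4 : ((SS (X / N)).card : ℝ) ≤ (2 ^ V.card * 3) *
      (((SS X).filter (AV V)).card : ℝ) := by
    exact_mod_cast h2.trans (Nat.mul_le_mul_left _ h3)
  have h5 : (X : ℝ) ≤ 2 * N * ((X / N : ℕ) : ℝ) := by
    have h6 := Nat.lt_mul_div_succ X hN1
    have h7 : X ≤ 2 * N * (X / N) := by
      have : N * (X / N + 1) ≤ N * (2 * (X / N)) := Nat.mul_le_mul_left _ (by omega)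
      calc X ≤ N * (X / N + 1) := h6.le
        _ ≤ N * (2 * (X / N)) := this
        _ = _ := by ring
    exact_mod_cast h7
  rw [div_mul_eq_mul_div, div_le_iff₀ (by positivity)]
  calc c * X ≤ c * (2 * N * ((X / N : ℕ) : ℝ)) := by gcongr
    _ = (2 * N) * (c * ((X / N : ℕ) : ℝ)) := by ring
    _ ≤ (2 * N) * ((2 ^ V.card * 3) * (((SS X).filter (AV V)).card : ℝ)) := by
        have := h1.trans h4
        gcongr
    _ = _ := by ring

end Q283.T3A
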