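import Pool.Agent.Q283.T3.Asy
import Pool.Agent.Q283.T3.KeyQ
import Pool.Agent.Q283.T3.Low

/-! The joint law for the sets that avoid given primes -/

set_option autoImplicit false

open scoped Classical
open Finset Filter

namespace Q283.T3A

open Q283.T3 (t_KEQ t_KEM t_BXM t_BAD2 zz_ev GG NdF BXM gi cf gi_ge gi_le cf_pos cf_le_one)

open Pool.Agent.Y692.QS (Ei w nr toC)
open Pool.Agent.Y715.T.RecG (Pq)
open Pool.Agent.Y699.E (nrm QB PD)
open Pool.Agent.Y703.CX (jj XX eL zz kk eL_tendsto logX_eq rpow_eL HH NN ev_eL one_le_exp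
  HH_ge HH_le HH_pos kk_ge kk_le X_pos one_add_log lin_le zz_ge zz_pos)
open Pool.Agent.Y703.CQ (Sml sml_of sml_add)
open Pool.Agent.Y703.XK

/-- **The joint law for the sets that avoid `V`.** -/
theorem t_ASYV (hBIL : S_BIL) (hEQ : S_EQ) (hC : S_CNT) {M : ℕ} (r : Fin M → ℕ)
    (V W : Finset Ei) (hVW : V ⊆ W) (m : Fin M → Ei → ZMod 3) (hW : ∀ u ∈ W, Pq u)
    (hm : ∀ k u, u ∉ W → m k u = 0) (hml : ∀ k l, k ≠ l → m k ≠ m l) :
    Tendsto (fun X : ℕ => (((SS X).filter fun S => AV V S ∧ GG W m r S).card : ℝ) /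
      (((SS X).filter (AV V)).card : ℝ)) atTop
      (nhds (∏ k, gi * cf (r k))) := by
  obtain ⟨C, hC1, hkey⟩ := t_KEQ hBIL
  obtain ⟨D, hD⟩ := hC
  obtain ⟨c, X₀, hc, hlow⟩ := low_V V
  obtain ⟨g, hg⟩ : ∃ g : ℝ, g = ∏ k, gi * cf (r k) := ⟨_, rfl⟩
  have hgb := c_bounds r
  rw [← hg] at hgb ⊢
  rw [Metric.tendsto_nhds]
  intro ε hε
  obtain ⟨R₀, hR₀⟩ := t_BXM hEQ r (ε / 4) (by linarith)
  set R : ℕ := R₀ + 1 with hR
  have hbx := hR₀ R (by omega) W m hW hm hml
  rw [← hg] at hbx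
  have s1 := sml_many hD
  have s2 := sml_cut hD
  have s3 := sml_coll hD
  have s5 := sml_eps (t_BAD2 R W hW)
  have s6 := sml_main2 W.card hC1
  have s := sml_add (sml_add (sml_add (sml_add s1 s2) s3) s5) s6
  have hδ : (0 : ℝ) < c * ε / 4 := by positivity
  obtain ⟨X₁, hX₁⟩ := zz_ev (W.sup nrm)
  filter_upwards [s (c * ε / 4) hδ, ev_eL 1, eventually_ge_atTop X₀, eventually_ge_atTop X₁]
    with X hX hl hX0 hX1
  rw [neg_zero, zero_mul, Real.exp_zero, mul_one] at hX
  have hl0 : 0 < eL X := by linarith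
  have hlo := hlow X hX0
  have hXp := X_pos hl0
  have hXp' : (0 : ℝ) < X := by exact_mod_cast hXp
  set SV := (SS X).filter (AV V) with hSV
  have hSpos : (0 : ℝ) < (SV.card : ℝ) := by
    refine lt_of_lt_of_le ?_ hlo
    positivity
  have hN : (HH X : ℝ) * Real.log X < NN X := by
    unfold NN
    push_cast
    exact Nat.lt_floor_add_one _
  have hWz : ∀ u ∈ W, nrm u ≤ zz X := fun u hu => (le_sup (f := nrm) hu).trans (hX₁ X hX1)
  have hQ : ∀ S : Finset Ei, AV V (sm (zz X) S) ↔ AV V S := by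
    intro S
    unfold AV
    constructor
    · intro h
      rw [Finset.disjoint_left] at h ⊢
      intro u hu hv
      refine h ?_ hv
      unfold sm
      rw [mem_filter]
      exact ⟨hu, hWz u (hVW hv)⟩
    · intro h
      exact h.mono_left (filter_subset _ _)
  have hmain := hkey W R (GG W m r) (AV V) g (ε / 4) hbx (by linarith) X (zz X)
    (HH X) (kk X) 0 (NN X) (kap C X) hWz hXp (HH_pos hl0) (zz_pos hl)
    (kap_nonneg hC1 X) (kap_pow hC1 hl) hN
  set T₀ := (RR X (zz X) (HH X) (kk X) 0).filter fun S => NdF R W (sm (zz X) S) (la (zz X) S) with hT₀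
  set T := T₀.filter (AV V) with hT
  have hTG : ((RR X (zz X) (HH X) (kk X) 0).filter
      (fun S => AV V (sm (zz X) S) ∧ NdF R W (sm (zz X) S) (la (zz X) S) ∧ GG W m r S)).card =
      (T.filter (GG W m r)).card := by
    rw [hT, hT₀, filter_filter, filter_filter]
    refine Pool.Agent.XLK.fcc fun S _ => ?_
    rw [hQ]
    tauto
  have hTG' : ((RR X (zz X) (HH X) (kk X) 0).filter
      (fun S => AV V (sm (zz X) S) ∧ NdF R W (sm (zz X) S) (la (zz X) S))).card =
      T.card := by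
    rw [hT, hT₀, filter_filter]
    refine Pool.Agent.XLK.fcc fun S _ => ?_
    rw [hQ]
    tauto
  rw [hTG, hTG'] at hmain
  have hTS : T ⊆ SV := by
    intro S hS
    rw [hT, hT₀, mem_filter, mem_filter] at hS
    rw [hSV, mem_filter]
    exact ⟨filter_subset _ _ hS.1.1, hS.2⟩
  have hRS : (((RR X (zz X) (HH X) (kk X) 0).filter fun S => AV V (sm (zz X) S)).card : ℝ) ≤
      (SV.card : ℝ) := by
    refine Nat.cast_le.2 (card_le_card fun S hS => ?_)
    rw [mem_filter, hQ] at hS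
    rw [hSV, mem_filter]
    exact ⟨filter_subset _ _ hS.1, hS.2⟩
  have hcmp := cmp (GG W m r) T SV hTS g hgb.1 hgb.2
  have hout0 : SV \ T ⊆ SS X \ T₀ := by
    intro S hS
    rw [Finset.mem_sdiff, hSV, mem_filter, hT, mem_filter, not_and] at hS
    rw [Finset.mem_sdiff]
    exact ⟨hS.1.1, fun h => hS.2 h hS.1.2⟩
  have hout : ((SV \ T).card : ℝ) ≤
      ((((SS X).filter fun S => kk X < S.card).card : ℝ) +
      (((SS X).filter fun S => S.card ≤ kk X ∧
        X < (∏ π ∈ sm (zz X) S, nrm π) * ∏ π ∈ la (zz X) S, XX (HH X) (bl (HH X) π)).card : ℝ) +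
      (((SS X).filter fun S => ¬ Set.InjOn (bl (HH X)) (la (zz X) S : Set Ei)).card : ℝ)) +
      (((SS X).filter fun S => S.card ≤ kk X ∧
        ¬ NdF R W (sm (zz X) S) (la (zz X) S)).card : ℝ) := by
    have g := card_le_card (hout0.trans
      (out_sub2 (W := W) (R := R) (by omega) X (zz X) (HH X) (kk X)))
    have g2 := (g.trans (card_union_le _ _)).trans (Nat.add_le_add_right ((card_union_le _ _).trans
      (Nat.add_le_add_right (card_union_le _ _) _)) _)
    exact_mod_cast g2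
  have hfin : ((SS X).filter fun S => AV V S ∧ GG W m r S).card =
      (SV.filter (GG W m r)).card := by
    rw [hSV, filter_filter]
  rw [hfin]
  have htot : |((SV.filter (GG W m r)).card : ℝ) - g * (SV.card : ℝ)| ≤
      ε / 4 * (SV.card : ℝ) + c * ε / 4 * X := by
    have g1 : ε / 4 * (((RR X (zz X) (HH X) (kk X) 0).filter fun S =>
        AV V (sm (zz X) S)).card : ℝ) ≤
        ε / 4 * (SV.card : ℝ) := mul_le_mul_of_nonneg_left hRS (by positivity)
    linarith
  rw [Real.dist_eq]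
  have e3 : ((SV.filter (GG W m r)).card : ℝ) / (SV.card : ℝ) - g =
      (((SV.filter (GG W m r)).card : ℝ) - g * (SV.card : ℝ)) /
        (SV.card : ℝ) := by
    field_simp
  rw [e3, abs_div, abs_of_pos hSpos, div_lt_iff₀ hSpos]
  refine lt_of_le_of_lt htot ?_
  have g2 : c * ε / 4 * X ≤ ε / 4 * (SV.card : ℝ) := by
    calc c * ε / 4 * X = ε / 4 * (c * X) := by ring
      _ ≤ _ := mul_le_mul_of_nonneg_left hlo (by linarith)
  have g4 : 0 < ε * (SV.card : ℝ) := by positivity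
  linarith

end Q283.T3A
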