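import Pool.Agent.Q283.T3.Pol

/-! Symmetric forms over the field with three elements which vanish on a subspace (after
`Pool.Agent.Y697.PP.Cmp` and `Pool.Agent.Y697.PQ.Ten` of helper697 for two elements). -/

set_option autoImplicit false

namespace Q283.T3

open Finset Module

variable {V : Type} [AddCommGroup V] [Module (ZMod 3) V] [Finite V]

noncomputable instance : Fintype (LinearMap.BilinForm (ZMod 3) V) :=
  haveI : Finite (Dual (ZMod 3) V) := Finite.of_injective
    (fun (B : Dual (ZMod 3) V) (x : V) => B x) (fun _ _ h => LinearMap.ext fun x => congrFun h x)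
  haveI : Finite (LinearMap.BilinForm (ZMod 3) V) := Finite.of_injective
    (fun (B : LinearMap.BilinForm (ZMod 3) V) (x : V) => B x) (fun _ _ h => LinearMap.ext fun x => congrFun h x)
  Fintype.ofFinite _

noncomputable instance : Fintype (Dual (ZMod 3) V) :=
  haveI : Finite (Dual (ZMod 3) V) := Finite.of_injective
    (fun (B : Dual (ZMod 3) V) (x : V) => B x) (fun _ _ h => LinearMap.ext fun x => congrFun h x)
  Fintype.ofFinite _

omit [Finite V] in
/-- symmetric -/
def Sy (B : LinearMap.BilinForm (ZMod 3) V) : Prop := ∀ x y, B x y = B y x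

omit [Finite V] in
/-- non-degenerate on `W` -/
def Nd (B : LinearMap.BilinForm (ZMod 3) V) (W : Submodule (ZMod 3) V) : Prop :=
  ∀ w ∈ W, B w = 0 → w = 0

open Classical in
/-- the forms which vanish on `W` -/
noncomputable def YY (W : Submodule (ZMod 3) V) : Finset (LinearMap.BilinForm (ZMod 3) V) :=
  univ.filter fun Y => Sy Y ∧ ∀ w ∈ W, Y w = 0

theorem mem_YY {W : Submodule (ZMod 3) V} {Y : LinearMap.BilinForm (ZMod 3) V} :
    Y ∈ YY W ↔ Sy Y ∧ ∀ w ∈ W, Y w = 0 := by
  classical
  unfold YY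
  rw [Finset.mem_filter]
  exact ⟨fun h => h.2, fun h => ⟨Finset.mem_univ _, h⟩⟩

/-- functionals that vanish on `W` -/
noncomputable def Ph (W : Submodule (ZMod 3) V) : Finset (Dual (ZMod 3) V) :=
  open Classical in univ.filter fun φ => ∀ w ∈ W, φ w = 0

theorem mem_Ph {W : Submodule (ZMod 3) V} {φ : Dual (ZMod 3) V} :
    φ ∈ Ph W ↔ ∀ w ∈ W, φ w = 0 := by
  classical
  unfold Ph
  rw [Finset.mem_filter]
  exact ⟨fun h => h.2, fun h => ⟨Finset.mem_univ _, h⟩⟩

omit [Finite V] in
theorem exists_l {W : Submodule (ZMod 3) V} {v : V} (hv : v ∉ W) :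
    ∃ l : Dual (ZMod 3) V, (∀ w ∈ W, l w = 0) ∧ l v = 1 := by
  obtain ⟨l, hl1, hl2⟩ := Submodule.exists_dual_map_eq_bot_of_notMem hv inferInstance
  have hlW : ∀ w ∈ W, l w = 0 := by
    intro w hw
    have : l w ∈ W.map l := ⟨w, hw, rfl⟩
    rw [hl2] at this
    exact (Submodule.mem_bot _).1 this
  refine ⟨(l v)⁻¹ • l, fun w hw => ?_, ?_⟩
  · rw [LinearMap.smul_apply, hlW w hw, smul_zero]
  · rw [LinearMap.smul_apply, smul_eq_mul, inv_mul_cancel₀ hl1]

/-- a form with given row -/
theorem exists_row {W : Submodule (ZMod 3) V} {v : V} (hv : v ∉ W) (φ : Dual (ZMod 3) V)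
    (hφ : ∀ w ∈ W, φ w = 0) :
    ∃ Y : LinearMap.BilinForm (ZMod 3) V, Y ∈ YY W ∧ Y v = φ := by
  obtain ⟨l, hlW, hlv⟩ := exists_l hv
  refine ⟨LinearMap.mk₂ (ZMod 3) (fun x y => l x * φ y + l y * φ x - φ v * (l x * l y)) ?_ ?_ ?_ ?_,
    mem_YY.2 ⟨?_, ?_⟩, ?_⟩
  · intro a b c
    simp only [map_add]; ring
  · intro a b c
    simp only [map_smul, smul_eq_mul]; ring
  · intro a b c
    simp only [map_add]; ring
  · intro a b c
    simp only [map_smul, smul_eq_mul]; ring
  · intro x y
    simp only [LinearMap.mk₂_apply]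
    ring
  · intro w hw
    ext y
    simp only [LinearMap.mk₂_apply, hlW w hw, hφ w hw, LinearMap.zero_apply]
    ring
  · ext y
    simp only [LinearMap.mk₂_apply, hlv]
    ring

open Classical in
theorem card_cond {W : Submodule (ZMod 3) V} {j : ℕ} (v : Fin j → V)
    {Y₀ : LinearMap.BilinForm (ZMod 3) V} (hY₀ : Y₀ ∈ YY W)
    (p : LinearMap.BilinForm (ZMod 3) V → Prop) :
    ((YY W).filter fun Y => p Y ∧ ∀ i, Y (v i) = Y₀ (v i)).card =
      ((YY (W ⊔ Submodule.span (ZMod 3) (Set.range v))).filter fun Y => p (Y₀ + Y)).card := by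
  have hY0 := mem_YY.1 hY₀
  symm
  refine Finset.card_bij' (fun Y _ => Y₀ + Y) (fun Y _ => Y - Y₀) ?_ ?_
    (fun Y _ => add_sub_cancel_left Y₀ Y) (fun Y _ => add_sub_cancel Y₀ Y)
  · intro Y hY
    rw [Finset.mem_filter, mem_YY] at hY
    obtain ⟨⟨h1, h2⟩, h3⟩ := hY
    rw [Finset.mem_filter, mem_YY]
    refine ⟨⟨fun x y => ?_, fun w hw => ?_⟩, h3, fun i => ?_⟩
    · rw [LinearMap.add_apply, LinearMap.add_apply, LinearMap.add_apply, LinearMap.add_apply,
        hY0.1 x y, h1 x y]
    · rw [LinearMap.add_apply, hY0.2 w hw, h2 w (Submodule.mem_sup_left hw), add_zero]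
    · rw [LinearMap.add_apply, h2 _ (Submodule.mem_sup_right (Submodule.subset_span ⟨i, rfl⟩)),
        add_zero]
  · intro Y hY
    rw [Finset.mem_filter, mem_YY] at hY
    obtain ⟨⟨h1, h2⟩, h3, h4⟩ := hY
    rw [Finset.mem_filter, mem_YY]
    refine ⟨⟨fun x y => ?_, ?_⟩, (congrArg p (add_sub_cancel Y₀ Y)).mpr h3⟩
    · rw [LinearMap.sub_apply, LinearMap.sub_apply, LinearMap.sub_apply, LinearMap.sub_apply,
        hY0.1 x y, h1 x y]
    · have h5 : W ⊔ Submodule.span (ZMod 3) (Set.range v) ≤ LinearMap.ker (Y - Y₀) := by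
        refine sup_le (fun w hw => ?_) (Submodule.span_le.2 ?_)
        · rw [LinearMap.mem_ker, LinearMap.sub_apply, hY0.2 w hw, h2 w hw, sub_zero]
        · rintro x ⟨i, rfl⟩
          rw [SetLike.mem_coe, LinearMap.mem_ker, LinearMap.sub_apply, h4 i, sub_self]
      exact fun w hw => LinearMap.mem_ker.1 (h5 hw)

open Classical in
theorem card_YY {W : Submodule (ZMod 3) V} {v : V} (hv : v ∉ W) :
    (YY W).card = (Ph W).card * (YY (W ⊔ Submodule.span (ZMod 3) {v})).card := by
  rw [Finset.card_eq_sum_card_fiberwise (f := fun Y : LinearMap.BilinForm (ZMod 3) V => Y v)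
    (t := Ph W) (by
      intro Y hY
      have h := mem_YY.1 hY
      refine mem_Ph.2 fun w hw => ?_
      rw [h.1, h.2 w hw, LinearMap.zero_apply])]
  rw [← smul_eq_mul, ← Finset.sum_const]
  refine Finset.sum_congr rfl fun φ hφ => ?_
  obtain ⟨Y₀, h1, h2⟩ := exists_row hv φ (mem_Ph.1 hφ)
  have h3 := card_cond (j := 1) (fun _ => v) h1 (fun _ => True)
  simp only [Finset.filter_true, true_and, Set.range_const] at h3
  rw [← h3, ← h2]
  congr 1
  ext Y
  simp

open Classical in
theorem card_Ph (W : Submodule (ZMod 3) V) {t : ℕ}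
    (ht : finrank (ZMod 3) W + t = finrank (ZMod 3) V) : (Ph W).card = 3 ^ t := by
  have hfin : Module.Finite (ZMod 3) V := Module.Finite.of_finite
  have h1 : (Ph W).card = Nat.card W.dualAnnihilator := by
    rw [Nat.card_eq_fintype_card, ← Fintype.card_coe]
    refine Fintype.card_congr (Equiv.subtypeEquivRight fun φ => ?_)
    rw [mem_Ph, Submodule.mem_dualAnnihilator]
  have h2 := Subspace.finrank_add_finrank_dualAnnihilator_eq (K := ZMod 3) W
  have h3 : finrank (ZMod 3) W.dualAnnihilator = t := by omega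
  rw [h1, Module.natCard_eq_pow_finrank (K := ZMod 3), h3, Nat.card_zmod]

omit [Finite V] in
theorem Sy.add {B Y : LinearMap.BilinForm (ZMod 3) V} (hB : Sy B) (hY : Sy Y) : Sy (B + Y) := by
  intro x y
  simp only [LinearMap.add_apply]
  rw [hB x y, hY x y]

theorem finrank_sup {W : Submodule (ZMod 3) V} {v : V} (hv : v ∉ W) {t : ℕ}
    (ht : finrank (ZMod 3) W + (t + 1) = finrank (ZMod 3) V) :
    finrank (ZMod 3) (W ⊔ Submodule.span (ZMod 3) {v} : Submodule (ZMod 3) V) + t =
      finrank (ZMod 3) V := by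
  have hfin : Module.Finite (ZMod 3) V := Module.Finite.of_finite
  have h1 := Submodule.finrank_sup_add_finrank_inf_eq W (Submodule.span (ZMod 3) {v})
  have h2 : W ⊓ Submodule.span (ZMod 3) {v} = ⊥ := by
    rw [Submodule.eq_bot_iff]
    intro x hx
    rw [Submodule.mem_inf] at hx
    obtain ⟨c, rfl⟩ := Submodule.mem_span_singleton.1 hx.2
    by_cases hc : c = 0
    · rw [hc, zero_smul]
    · exfalso
      apply hv
      have := W.smul_mem c⁻¹ hx.1
      rwa [smul_smul, inv_mul_cancel₀ hc, one_smul] at this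
  have h3 : finrank (ZMod 3) (Submodule.span (ZMod 3) {v}) = 1 :=
    finrank_span_singleton (fun h => hv (by rw [h]; exact W.zero_mem))
  rw [h2, finrank_bot, h3] at h1
  omega

theorem card_YY_eq (t : ℕ) : ∀ W : Submodule (ZMod 3) V,
    finrank (ZMod 3) W + t = finrank (ZMod 3) V → (YY W).card = 3 ^ (t * (t + 1) / 2) := by
  have hfin : Module.Finite (ZMod 3) V := Module.Finite.of_finite
  induction t with
  | zero =>
    intro W h
    have h1 : W = ⊤ := Submodule.eq_top_of_finrank_eq (by simpa using h)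
    have h2 : YY W = {0} := by
      ext Y
      rw [mem_YY, Finset.mem_singleton, h1]
      constructor
      · rintro ⟨-, h3⟩
        exact LinearMap.ext fun x => by rw [h3 x trivial]; rfl
      · rintro rfl
        exact ⟨fun _ _ => rfl, fun _ _ => rfl⟩
    rw [h2]
    rfl
  | succ t ih =>
    intro W h
    obtain ⟨v, hv⟩ : ∃ v, v ∉ W := by
      by_contra hc
      push Not at hc
      have h1 : W = ⊤ := eq_top_iff.2 fun x _ => hc x
      rw [h1, finrank_top] at h
      omega
    rw [card_YY hv, card_Ph W h, ih _ (finrank_sup hv h), ← pow_add]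
    congr 1
    have : (t + 1) * (t + 1 + 1) = t * (t + 1) + 2 * (t + 1) := by ring
    rw [this]
    omega

theorem exists_form {B : LinearMap.BilinForm (ZMod 3) V} (hB : Sy B)
    {W U : Submodule (ZMod 3) V} (hd : ∀ x ∈ U, x ∈ W → x = 0) (hN : ∀ u ∈ U, ∀ w ∈ W, B u w = 0) :
    ∃ Y₀ ∈ YY W, ∀ u ∈ U, Y₀ u = -B u := by
  have hinj : LinearMap.ker (W.mkQ.comp U.subtype) = ⊥ := by
    rw [LinearMap.ker_eq_bot']
    rintro ⟨x, hx⟩ h
    apply Subtype.ext
    apply hd x hx
    simpa using h
  obtain ⟨g, hg⟩ := LinearMap.exists_leftInverse_of_injective _ hinj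
  set π : V →ₗ[ZMod 3] V := U.subtype.comp (g.comp W.mkQ) with hπ
  have hπW : ∀ w ∈ W, π w = 0 := by
    intro w hw
    have : W.mkQ w = 0 := by simpa using hw
    rw [hπ, LinearMap.comp_apply, LinearMap.comp_apply, this, map_zero, map_zero]
  have hπU : ∀ u ∈ U, π u = u := by
    intro u hu
    have := congrArg (fun z : U →ₗ[ZMod 3] U => ((z ⟨u, hu⟩ : U) : V)) hg
    exact this
  have hπm : ∀ x, π x ∈ U := fun x => (g (W.mkQ x)).2
  refine ⟨LinearMap.mk₂ (ZMod 3) (fun x y => B (π x) (π y) - B (π x) y - B x (π y)) ?_ ?_ ?_ ?_,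
    mem_YY.2 ⟨?_, ?_⟩, ?_⟩
  · intro a b c
    simp only [map_add, LinearMap.add_apply]; ring
  · intro a b c
    simp only [map_smul, LinearMap.smul_apply, smul_eq_mul]; ring
  · intro a b c
    simp only [map_add]; ring
  · intro a b c
    simp only [map_smul, smul_eq_mul]; ring
  · intro x y
    simp only [LinearMap.mk₂_apply]
    rw [hB (π x) y, hB x (π y), hB (π x) (π y)]
    ring
  · intro w hw
    ext y
    simp only [LinearMap.mk₂_apply, hπW w hw, map_zero, LinearMap.zero_apply]
    rw [hB w, hN _ (hπm y) w hw]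
    ring
  · intro u hu
    ext y
    simp only [LinearMap.mk₂_apply, hπU u hu, LinearMap.neg_apply]
    ring

omit [Finite V] in
/-- the orthogonal space -/
def Nn (B : LinearMap.BilinForm (ZMod 3) V) (W : Submodule (ZMod 3) V) : Submodule (ZMod 3) V where
  carrier := {x | ∀ w ∈ W, B x w = 0}
  add_mem' := fun {x y} hx hy w hw => by
    rw [map_add, LinearMap.add_apply, hx w hw, hy w hw, add_zero]
  zero_mem' := fun w _ => by rw [map_zero, LinearMap.zero_apply]
  smul_mem' := fun c x hx w hw => by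
    rw [map_smul, LinearMap.smul_apply, hx w hw, smul_zero]

omit [Finite V] in
theorem mem_Nn {B : LinearMap.BilinForm (ZMod 3) V} {W : Submodule (ZMod 3) V} {x : V} :
    x ∈ Nn B W ↔ ∀ w ∈ W, B x w = 0 := Iff.rfl

theorem finrank_Nn {B : LinearMap.BilinForm (ZMod 3) V} (hB : Sy B) {W : Submodule (ZMod 3) V}
    (hN : Nd B W) {t : ℕ} (ht : finrank (ZMod 3) W + t = finrank (ZMod 3) V) :
    finrank (ZMod 3) (Nn B W) = t := by
  have hfin : Module.Finite (ZMod 3) V := Module.Finite.of_finite
  have hinj : Function.Injective (B.domRestrict W) := by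
    rw [← LinearMap.ker_eq_bot, LinearMap.ker_eq_bot']
    rintro ⟨x, hx⟩ h
    exact Subtype.ext (hN x hx h)
  have h1 := LinearMap.finrank_range_of_inj hinj
  have h2 := Subspace.finrank_add_finrank_dualCoannihilator_eq (LinearMap.range (B.domRestrict W))
  have h3 : (LinearMap.range (B.domRestrict W)).dualCoannihilator = Nn B W := by
    ext x
    rw [Submodule.mem_dualCoannihilator, mem_Nn]
    constructor
    · intro h w hw
      have := h (B w) ⟨⟨w, hw⟩, rfl⟩
      rw [hB x w, this]
    · rintro h φ ⟨⟨w, hw⟩, rfl⟩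
      show B w x = 0
      rw [hB w x, h w hw]
  rw [h3, h1] at h2
  omega

omit [Finite V] in
open Classical in
theorem card_comb {j : ℕ} (N Z : Finset V) (c : Fin j → ZMod 3) (hc : c ≠ 0) :
    ((Fintype.piFinset fun _ : Fin j => N).filter fun v => ∑ i, c i • v i ∈ Z).card * N.card ≤
      Z.card * N.card ^ j := by
  obtain ⟨i₀, hi₀⟩ := Function.ne_iff.1 hc
  have hc1 : c i₀ ≠ 0 := hi₀
  have hcard : Fintype.card {i : Fin j // i ≠ i₀} + 1 = j := by
    have h1 : Fintype.card {i : Fin j // i ≠ i₀} = Fintype.card (Fin j) - 1 := by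
      have := Fintype.card_subtype_compl (fun i : Fin j => i = i₀)
      simp at this ⊢
    have h2 : 0 < j := lt_of_le_of_lt (Nat.zero_le _) i₀.2
    rw [h1, Fintype.card_fin]
    omega
  have h1 : ((Fintype.piFinset fun _ : Fin j => N).filter fun v => ∑ i, c i • v i ∈ Z).card ≤
      (Z ×ˢ Fintype.piFinset fun _ : {i : Fin j // i ≠ i₀} => N).card := by
    apply Finset.card_le_card_of_injOn (fun v => (∑ i, c i • v i, fun i => v i))
    · intro v hv
      rw [Finset.mem_coe, Finset.mem_filter, Fintype.mem_piFinset] at hv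
      rw [Finset.mem_coe, Finset.mem_product, Fintype.mem_piFinset]
      exact ⟨hv.2, fun i => hv.1 i⟩
    · intro v _ v' _ h
      rw [Prod.mk.injEq] at h
      obtain ⟨h2, h3⟩ := h
      have h4 : ∀ i, i ≠ i₀ → v i = v' i := fun i hi => congrFun h3 ⟨i, hi⟩
      funext i
      by_cases hi : i = i₀
      · rw [hi]
        rw [← Finset.add_sum_erase _ _ (Finset.mem_univ i₀),
          ← Finset.add_sum_erase _ (fun i => c i • v' i) (Finset.mem_univ i₀)] at h2
        have h5 : ∑ x ∈ univ.erase i₀, c x • v x = ∑ x ∈ univ.erase i₀, c x • v' x :=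
          Finset.sum_congr rfl fun x hx => by rw [h4 x (Finset.ne_of_mem_erase hx)]
        rw [h5] at h2
        have h6 := add_right_cancel h2
        have h7 := congrArg (fun z => (c i₀)⁻¹ • z) h6
        simpa only [smul_smul, inv_mul_cancel₀ hc1, one_smul] using h7
      · exact h4 i hi
  rw [Finset.card_product, Fintype.card_piFinset, Finset.prod_const, Finset.card_univ] at h1
  calc _ ≤ (Z.card * N.card ^ Fintype.card {i : Fin j // i ≠ i₀}) * N.card :=
        Nat.mul_le_mul_right _ h1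
    _ = Z.card * N.card ^ (Fintype.card {i : Fin j // i ≠ i₀} + 1) := by rw [pow_succ, mul_assoc]
    _ = _ := by rw [hcard]

open Classical in
theorem card_LI [Fintype V] (K : Submodule (ZMod 3) V) (j : ℕ) :
    (((univ : Finset (Fin j → V)).filter fun v => (∀ i, v i ∈ K) ∧
      LinearIndependent (ZMod 3) v).card : ℝ) = ij j (3 ^ finrank (ZMod 3) K) := by
  have hfin : Module.Finite (ZMod 3) V := Module.Finite.of_finite
  have h1 : ((univ : Finset (Fin j → V)).filter fun v => (∀ i, v i ∈ K) ∧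
      LinearIndependent (ZMod 3) v).card =
      Nat.card {s : Fin j → K // LinearIndependent (ZMod 3) s} := by
    rw [Nat.card_eq_fintype_card, ← Fintype.card_coe]
    refine Fintype.card_congr ⟨fun v => ⟨fun i => ⟨v.1 i, ((Finset.mem_filter.1 v.2).2.1 i)⟩, ?_⟩,
      fun s => ⟨fun i => (s.1 i : V), ?_⟩, ?_, ?_⟩
    · have h2 := (Finset.mem_filter.1 v.2).2.2
      exact LinearIndependent.of_comp K.subtype h2
    · rw [Finset.mem_filter]
      refine ⟨Finset.mem_univ _, fun i => (s.1 i).2, ?_⟩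
      exact s.2.map' K.subtype K.ker_subtype
    · intro v
      rfl
    · intro s
      rfl
  rw [h1]
  rcases le_or_gt j (finrank (ZMod 3) K) with hj | hj
  · rw [card_linearIndependent hj, ZMod.card]
    unfold ij
    rw [← Fin.prod_univ_eq_prod_range (fun i => ((3 : ℝ) ^ finrank (ZMod 3) K - 3 ^ i)) j]
    push_cast
    refine Finset.prod_congr rfl fun i _ => ?_
    rw [Nat.cast_sub (Nat.pow_le_pow_right (by norm_num) (by omega))]
    push_cast
    rfl
  · rw [ij_zero hj]
    have h2 : IsEmpty {s : Fin j → K // LinearIndependent (ZMod 3) s} := by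
      constructor
      rintro ⟨s, hs⟩
      have := hs.fintype_card_le_finrank
      rw [Fintype.card_fin] at this
      omega
    rw [Nat.card_of_isEmpty]
    exact Nat.cast_zero

omit [Finite V] in
theorem add_eq_zero_iff' {B Y : LinearMap.BilinForm (ZMod 3) V} {x : V} :
    (B + Y) x = 0 ↔ Y x = -B x := by
  rw [LinearMap.add_apply]
  constructor
  · intro h
    exact eq_neg_of_add_eq_zero_right h
  · intro h
    rw [h, add_neg_cancel]

theorem finrank_sup_span {W : Submodule (ZMod 3) V} {j : ℕ} {v : Fin j → V}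
    (hv : LinearIndependent (ZMod 3) v)
    (hd : ∀ x ∈ Submodule.span (ZMod 3) (Set.range v), x ∈ W → x = 0) :
    finrank (ZMod 3) (W ⊔ Submodule.span (ZMod 3) (Set.range v) : Submodule (ZMod 3) V) =
      finrank (ZMod 3) W + j := by
  have hfin : Module.Finite (ZMod 3) V := Module.Finite.of_finite
  have h1 := Submodule.finrank_sup_add_finrank_inf_eq W (Submodule.span (ZMod 3) (Set.range v))
  have h2 : W ⊓ Submodule.span (ZMod 3) (Set.range v) = ⊥ := by
    rw [Submodule.eq_bot_iff]
    intro x hx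
    rw [Submodule.mem_inf] at hx
    exact hd x hx.2 hx.1
  have h3 : finrank (ZMod 3) (Submodule.span (ZMod 3) (Set.range v)) = j := by
    rw [finrank_span_eq_card hv, Fintype.card_fin]
  rw [h2, finrank_bot, h3] at h1
  omega

end Q283.T3
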