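import Pool.Agent.Q283.T3.LB
import Pool.Agent.Y275.XL.LIM
import Pool.Agent.Y696.XL.Fin

/-! The constants -/

set_option autoImplicit false

open scoped Classical

namespace Q283.T3

open Finset Module
open Pool.Agent.Y703.XL (cr nR)
open Pool.Agent.Y759.CX (fr)

theorem card_Sy {V : Type} [AddCommGroup V] [Module (ZMod 3) V] [Fintype V]
    (P : LinearMap.BilinForm (ZMod 3) V → Prop) :
    Nat.card {S : Pool.Agent.Y85.XK.Sy V // P S.1} =
      ((YY (⊥ : Submodule (ZMod 3) V)).filter P).card := by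
  have hmem : ∀ Y : LinearMap.BilinForm (ZMod 3) V, Y ∈ YY (⊥ : Submodule (ZMod 3) V) ↔
        Y ∈ Pool.Agent.Y85.XK.Sy V := by
    intro Y
    rw [mem_YY]
    constructor
    · exact fun h => h.1
    · intro h
      refine ⟨h, fun w hw => ?_⟩
      rw [(Submodule.mem_bot _).1 hw, map_zero]
  rw [← Fintype.card_coe, ← Nat.card_eq_fintype_card]
  refine Nat.card_congr ⟨fun S => ⟨S.1.1, mem_filter.2 ⟨(hmem _).2 S.1.2, S.2⟩⟩,
    fun Y => ⟨⟨Y.1, (hmem _).1 (mem_filter.1 Y.2).1⟩, (mem_filter.1 Y.2).2⟩,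
    fun _ => rfl, fun _ => rfl⟩

theorem nR_eq {V : Type} [AddCommGroup V] [Module (ZMod 3) V] [Fintype V]
    (S : Pool.Agent.Y85.XK.Sy V) : nR S = 3 ^ finrank (ZMod 3) (LinearMap.ker S.1) := by
  have h1 : nR S = Nat.card (LinearMap.ker S.1) := by
    unfold nR
    refine Nat.card_congr (Equiv.subtypeEquivRight fun x => ?_)
    rw [LinearMap.mem_ker]
    exact ⟨fun h => LinearMap.ext h, fun h y => by rw [h]; rfl⟩
  have hfin : Module.Finite (ZMod 3) V := Module.Finite.of_finite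
  rw [h1, Module.natCard_eq_pow_finrank (K := ZMod 3), Nat.card_eq_fintype_card, ZMod.card]

theorem c_eq (h : Pool.Agent.Y703.XL.S_LIM) (r : ℕ) : gi * cf r = cr r := by
  refine eq_of_forall_dist_le fun ε hε => ?_
  obtain ⟨R, hR⟩ := thmR 1 (fun _ => r) (ε / 2) (by linarith)
  obtain ⟨n, hn⟩ := exists_pow_lt_of_lt_one (show (0 : ℝ) < ε / (2 * 3 ^ r) by positivity)
    (show (1 / 3 : ℝ) < 1 by norm_num)
  obtain ⟨N, hN⟩ : ∃ N, N = max R n := ⟨_, rfl⟩
  have hV : finrank (ZMod 3) (Fin N → ZMod 3) = N := by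
    rw [finrank_fintype_fun_eq_card, Fintype.card_fin]
  have h1 := hR (Fin N → ZMod 3) ⊥ (fun _ => 0) 0 N (fun _ => fun _ _ => rfl)
    (fun _ w hw _ => (Submodule.mem_bot _).1 hw) (fun k l hkl => absurd (Subsingleton.elim k l) hkl)
    (by rw [finrank_bot]) (by rw [finrank_bot, hV, zero_add])
    (by rw [zero_add, hN]; exact le_max_left _ _)
  have h2 := h (Fin N → ZMod 3) r
  rw [hV] at h2
  have e1 : (Nat.card (Pool.Agent.Y85.XK.Sy (Fin N → ZMod 3))) =
      (YY (⊥ : Submodule (ZMod 3) (Fin N → ZMod 3))).card := by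
    have := card_Sy (V := Fin N → ZMod 3) fun _ => True
    rw [filter_true] at this
    rw [← this]
    exact Nat.card_congr (Equiv.subtypeUnivEquiv fun _ => trivial).symm
  have e2 : (Nat.card {S : Pool.Agent.Y85.XK.Sy (Fin N → ZMod 3) // nR S = 3 ^ r}) =
      ((YY (⊥ : Submodule (ZMod 3) (Fin N → ZMod 3))).filter fun Y =>
        ∀ k : Fin 1, finrank (ZMod 3) (LinearMap.ker (0 + Y)) = r).card := by
    rw [← fcc2 _ _, ← card_Sy fun Y => ∀ k : Fin 1, finrank (ZMod 3) (LinearMap.ker (0 + Y)) = r]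
    refine Nat.card_congr (Equiv.subtypeEquivRight fun S => ?_)
    rw [nR_eq, zero_add]
    exact ⟨fun h _ => Nat.pow_right_injective (by norm_num : 2 ≤ 3) h, fun h => by rw [h 0]⟩
  have hpos : (0 : ℝ) < (YY (⊥ : Submodule (ZMod 3) (Fin N → ZMod 3))).card := by
    have : (0 : LinearMap.BilinForm (ZMod 3) (Fin N → ZMod 3)) ∈
        YY (⊥ : Submodule (ZMod 3) (Fin N → ZMod 3)) := by
      rw [mem_YY]
      exact ⟨fun _ _ => rfl, fun _ _ => rfl⟩
    exact_mod_cast card_pos.2 ⟨_, this⟩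
  unfold fr at h2
  rw [e1, e2] at h2
  rw [Finset.prod_const, card_univ, Fintype.card_fin, pow_one] at h1
  obtain ⟨a, ha⟩ : ∃ a : ℝ, a = (((YY (⊥ : Submodule (ZMod 3) (Fin N → ZMod 3))).filter fun Y =>
        ∀ k : Fin 1, finrank (ZMod 3) (LinearMap.ker (0 + Y)) = r).card : ℝ) := ⟨_, rfl⟩
  obtain ⟨b, hb⟩ : ∃ b : ℝ, b = ((YY (⊥ : Submodule (ZMod 3) (Fin N → ZMod 3))).card : ℝ) := ⟨_, rfl⟩
  rw [← ha, ← hb] at h1 h2
  rw [← hb] at hpos
  have h3 : |a / b - gi * cf r| ≤ ε / 2 := by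
    have : a / b - gi * cf r = (a - gi * cf r * b) / b := by field_simp
    rw [this, abs_div, abs_of_pos hpos, div_le_iff₀ hpos]
    exact h1
  have h4 : (3 : ℝ) ^ r * (1 / 3) ^ N ≤ ε / 2 := by
    have h5 : (1 / 3 : ℝ) ^ N ≤ (1 / 3) ^ n :=
      pow_le_pow_of_le_one (by norm_num) (by norm_num) (by rw [hN]; exact le_max_right _ _)
    calc (3 : ℝ) ^ r * (1 / 3) ^ N ≤ 3 ^ r * (ε / (2 * 3 ^ r)) := by
          have := h5.trans hn.le
          gcongr
      _ = ε / 2 := by field_simp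
  rw [Real.dist_eq]
  have h6 := abs_sub_le (gi * cf r) (a / b) (cr r)
  rw [abs_sub_comm (gi * cf r) (a / b)] at h6
  linarith

end Q283.T3
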