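import Pool.Agent.Q283.T3.Est

/-! Several symmetric forms over the field with three elements which are completed by the same form:
the joint law of the coranks (after `Pool.Agent.Y697.PQ.Jt` of helper697). -/

set_option autoImplicit false

namespace Q283.T3

open Finset Module Filter Topology

section jj
variable {V : Type} [AddCommGroup V] [Module (ZMod 3) V]

/-- the obstruction to the independence -/
def JJ (B B' : LinearMap.BilinForm (ZMod 3) V) (W : Submodule (ZMod 3) V) :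
    Submodule (ZMod 3) (V × V) where
  carrier := {p | p.1 - p.2 ∈ W ∧ B p.1 = B' p.2 ∧ ∀ w ∈ W, B p.1 w = 0}
  add_mem' := by
    rintro p q ⟨h1, h2, h3⟩ ⟨h4, h5, h6⟩
    refine ⟨?_, ?_, fun w hw => ?_⟩
    · rw [Prod.fst_add, Prod.snd_add, show p.1 + q.1 - (p.2 + q.2) = (p.1 - p.2) + (q.1 - q.2) by
        abel]
      exact W.add_mem h1 h4
    · rw [Prod.fst_add, Prod.snd_add, map_add, map_add, h2, h5]
    · rw [Prod.fst_add, map_add, LinearMap.add_apply, h3 w hw, h6 w hw, add_zero]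
  zero_mem' := by
    refine ⟨?_, ?_, fun w _ => ?_⟩
    · rw [Prod.fst_zero, Prod.snd_zero, sub_zero]
      exact W.zero_mem
    · rw [Prod.fst_zero, Prod.snd_zero, map_zero, map_zero]
    · rw [Prod.fst_zero, map_zero, LinearMap.zero_apply]
  smul_mem' := by
    rintro c p ⟨h1, h2, h3⟩
    refine ⟨?_, ?_, fun w hw => ?_⟩
    · rw [Prod.smul_fst, Prod.smul_snd, ← smul_sub]
      exact W.smul_mem c h1
    · rw [Prod.smul_fst, Prod.smul_snd, map_smul, map_smul, h2]
    · rw [Prod.smul_fst, map_smul, LinearMap.smul_apply, h3 w hw, smul_zero]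

theorem mem_JJ {B B' : LinearMap.BilinForm (ZMod 3) V} {W : Submodule (ZMod 3) V} {p : V × V} :
    p ∈ JJ B B' W ↔ p.1 - p.2 ∈ W ∧ B p.1 = B' p.2 ∧ ∀ w ∈ W, B p.1 w = 0 := Iff.rfl

theorem finrank_JJ [Finite V] {B B' Y₀ : LinearMap.BilinForm (ZMod 3) V}
    {W : Submodule (ZMod 3) V} (hY : Y₀ ∈ YY W) {j : ℕ} (v : Fin j → V) :
    finrank (ZMod 3) (JJ (B + Y₀) (B' + Y₀) (W ⊔ Submodule.span (ZMod 3) (Set.range v))) ≤
      finrank (ZMod 3) (JJ B B' W) + j := by
  have hfin : Module.Finite (ZMod 3) V := Module.Finite.of_finite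
  have hY' := mem_YY.1 hY
  set U := Submodule.span (ZMod 3) (Set.range v) with hU
  set J' := JJ (B + Y₀) (B' + Y₀) (W ⊔ U) with hJ'
  set f : (V × V) →ₗ[ZMod 3] V ⧸ W :=
    W.mkQ.comp (LinearMap.fst (ZMod 3) V V - LinearMap.snd (ZMod 3) V V) with hf
  set g : J' →ₗ[ZMod 3] V ⧸ W := f.comp J'.subtype with hg
  have h1 := LinearMap.finrank_range_add_finrank_ker g
  have h2 : finrank (ZMod 3) (LinearMap.range g) ≤ j := by
    have h3 : LinearMap.range g ≤ Submodule.span (ZMod 3) (Set.range fun i => W.mkQ (v i)) := by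
      rintro _ ⟨⟨p, hp⟩, rfl⟩
      have h4 := (mem_JJ.1 hp).1
      have h5 : W.mkQ (p.1 - p.2) ∈ (W ⊔ U).map W.mkQ := ⟨_, h4, rfl⟩
      rw [Submodule.map_sup] at h5
      have h6 : W.map W.mkQ = ⊥ := by
        rw [Submodule.eq_bot_iff]
        rintro _ ⟨w, hw, rfl⟩
        simpa using hw
      rw [h6, bot_sup_eq, hU, Submodule.map_span, ← Set.range_comp] at h5
      exact h5
    have h7 := Submodule.finrank_mono h3
    have h8 := finrank_range_le_card (R := ZMod 3) (fun i : Fin j => W.mkQ (v i))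
    rw [Fintype.card_fin] at h8
    exact h7.trans h8
  have h3 : finrank (ZMod 3) (LinearMap.ker g) ≤ finrank (ZMod 3) (JJ B B' W) := by
    have h4 : ∀ z : LinearMap.ker g, ((z : J') : V × V) ∈ JJ B B' W := by
      rintro ⟨⟨p, hp⟩, hz⟩
      have h5 := mem_JJ.1 hp
      have h6 : p.1 - p.2 ∈ W := by
        have : W.mkQ (p.1 - p.2) = 0 := LinearMap.mem_ker.1 hz
        rw [Submodule.mkQ_apply, Submodule.Quotient.mk_eq_zero] at this
        exact this
      have h7 : Y₀ p.1 = Y₀ p.2 := by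
        rw [← sub_eq_zero, ← map_sub, hY'.2 _ h6]
      rw [mem_JJ]
      refine ⟨h6, ?_, fun w hw => ?_⟩
      · have h8 := h5.2.1
        rw [LinearMap.add_apply, LinearMap.add_apply, h7] at h8
        exact add_right_cancel h8
      · have h8 := h5.2.2 w (Submodule.mem_sup_left hw)
        rw [LinearMap.add_apply, LinearMap.add_apply, hY'.1 p.1 w, hY'.2 w hw,
          LinearMap.zero_apply, add_zero] at h8
        exact h8
    refine LinearMap.finrank_le_finrank_of_injective
      (f := LinearMap.codRestrict (JJ B B' W) (J'.subtype.comp (LinearMap.ker g).subtype) h4) ?_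
    intro z z' h
    have h5 := congrArg (fun q : JJ B B' W => (q : V × V)) h
    apply Subtype.ext
    apply Subtype.ext
    exact h5
  omega

theorem nd_JJ {B B' Y₀ : LinearMap.BilinForm (ZMod 3) V} [Finite V]
    {W : Submodule (ZMod 3) V} (hN : Nd B' W) (hY : Y₀ ∈ YY W) {U : Submodule (ZMod 3) V}
    (hU : ∀ u ∈ U, Y₀ u = -B u) (hUW : ∀ u ∈ U, ∀ w ∈ W, B u w = 0)
    (hgood : ∀ u ∈ U, u ≠ 0 → ∀ b, (u, b) ∉ JJ B B' W) : Nd (B' + Y₀) (W ⊔ U) := by
  have hY' := mem_YY.1 hY
  intro x hx hx0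
  obtain ⟨w, hw, u, hu, rfl⟩ := Submodule.mem_sup.1 hx
  rw [add_eq_zero_iff', map_add, hY'.2 w hw, zero_add, hU u hu, neg_inj] at hx0
  by_cases h0 : u = 0
  · rw [h0, map_zero, add_zero] at hx0
    rw [h0, add_zero]
    exact hN w hw hx0.symm
  · exfalso
    refine hgood u hu h0 (w + u) (mem_JJ.2 ⟨?_, hx0, fun w' hw' => hUW u hu w' hw'⟩)
    show u - (w + u) ∈ W
    rw [show u - (w + u) = -w by abel]
    exact W.neg_mem hw

end jj

open Classical in
theorem sum_qq {V : Type} [AddCommGroup V] [Module (ZMod 3) V] [Fintype V]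
    {𝒴 : Finset (LinearMap.BilinForm (ZMod 3) V)} {B : LinearMap.BilinForm (ZMod 3) V} {γ N δ : ℝ}
    (hN : 0 ≤ N) {r I : ℕ}
    (h : ∀ j ≤ r + I, |∑ Y ∈ 𝒴, ij j (3 ^ finrank (ZMod 3) (LinearMap.ker (B + Y))) -
      γ * 3 ^ (j * (j - 1) / 2) * N| ≤ 3 ^ (j * (j - 1) / 2) * N * δ) (hδ : 0 ≤ δ) :
    |∑ Y ∈ 𝒴, qq r I (3 ^ finrank (ZMod 3) (LinearMap.ker (B + Y))) -
      γ * cf r * (∑ j ∈ range (I + 1), (-1) ^ j * ff j) * N| ≤ N * ((I + 1) * δ) := by
  set t : ℝ := 3 ^ (r * (r - 1) / 2) with ht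
  have ht0 : 0 < t := by positivity
  have hcr := cf_pos r
  have hcr1 := cf_le_one r
  have hs : ij r (3 ^ r) = t / cf r := ij_self r
  have h1 : ∑ Y ∈ 𝒴, qq r I (3 ^ finrank (ZMod 3) (LinearMap.ker (B + Y))) =
      ∑ j ∈ range (I + 1), (-1) ^ j * cf j * (3 ^ (r * j))⁻¹ * (cf r / t) *
        ∑ Y ∈ 𝒴, ij (r + j) (3 ^ finrank (ZMod 3) (LinearMap.ker (B + Y))) := by
    unfold qq
    rw [hs]
    simp only [Finset.sum_div, Finset.mul_sum]
    rw [Finset.sum_comm]
    refine Finset.sum_congr rfl fun j _ => Finset.sum_congr rfl fun Y _ => ?_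
    field_simp
  have h2 : γ * cf r * (∑ j ∈ range (I + 1), (-1) ^ j * ff j) * N =
      ∑ j ∈ range (I + 1), (-1) ^ j * cf j * (3 ^ (r * j))⁻¹ * (cf r / t) *
        (γ * 3 ^ ((r + j) * (r + j - 1) / 2) * N) := by
    rw [Finset.mul_sum, Finset.sum_mul]
    refine Finset.sum_congr rfl fun j _ => ?_
    unfold ff
    rw [tri_sum, pow_add, pow_add, ← ht]
    have h3 : (3 : ℝ) ^ (r * j) ≠ 0 := by positivity
    field_simp
  rw [h1, h2, ← Finset.sum_sub_distrib]
  refine (Finset.abs_sum_le_sum_abs _ _).trans ?_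
  have h3 : ∀ j ∈ range (I + 1), |(-1) ^ j * cf j * (3 ^ (r * j))⁻¹ * (cf r / t) *
      ∑ Y ∈ 𝒴, ij (r + j) (3 ^ finrank (ZMod 3) (LinearMap.ker (B + Y))) -
      (-1) ^ j * cf j * (3 ^ (r * j))⁻¹ * (cf r / t) *
        (γ * 3 ^ ((r + j) * (r + j - 1) / 2) * N)| ≤ N * δ := by
    intro j hj
    rw [Finset.mem_range] at hj
    have h4 := h (r + j) (by omega)
    have h5 : 0 ≤ cf j * (3 ^ (r * j))⁻¹ * (cf r / t) := by
      have := cf_pos j
      positivity
    rw [← mul_sub, abs_mul]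
    have h6 : |(-1) ^ j * cf j * (3 ^ (r * j))⁻¹ * (cf r / t)| =
        cf j * (3 ^ (r * j))⁻¹ * (cf r / t) := by
      have e : (-1) ^ j * cf j * (3 ^ (r * j))⁻¹ * (cf r / t) =
          (-1) ^ j * (cf j * (3 ^ (r * j))⁻¹ * (cf r / t)) := by ring
      rw [e, abs_mul, abs_pow, abs_neg, abs_one, one_pow, one_mul, abs_of_nonneg h5]
    rw [h6]
    refine (mul_le_mul_of_nonneg_left h4 h5).trans ?_
    have h7 := ff_le_one j
    have h8 := ff_pos j
    rw [tri_sum, pow_add, pow_add, ← ht]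
    have h9 : cf j * (3 ^ (r * j))⁻¹ * (cf r / t) * (t * 3 ^ (j * (j - 1) / 2) * 3 ^ (r * j) * N * δ) =
        (ff j * cf r) * (N * δ) := by
      unfold ff
      have h3 : (3 : ℝ) ^ (r * j) ≠ 0 := by positivity
      field_simp
    rw [h9]
    refine mul_le_of_le_one_left (mul_nonneg hN hδ) ?_
    exact mul_le_one₀ h7 hcr.le hcr1
  refine (Finset.sum_le_sum h3).trans (le_of_eq ?_)
  rw [Finset.sum_const, Finset.card_range, nsmul_eq_mul]
  push_cast
  ring

open Classical in
/-- **The joint law of the coranks** -/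
theorem thmR (M : ℕ) : ∀ (r : Fin M → ℕ) (ε : ℝ), 0 < ε → ∃ R : ℕ, ∀ (V : Type) [AddCommGroup V]
    [Module (ZMod 3) V] [Fintype V] (W : Submodule (ZMod 3) V)
    (B : Fin M → LinearMap.BilinForm (ZMod 3) V) (d t : ℕ),
    (∀ k, Sy (B k)) → (∀ k, Nd (B k) W) →
    (∀ k l, k ≠ l → finrank (ZMod 3) (JJ (B k) (B l) W) ≤ d) → finrank (ZMod 3) W ≤ d →
    finrank (ZMod 3) W + t = finrank (ZMod 3) V → d + R ≤ t →
    |(((YY W).filter fun Y => ∀ k, finrank (ZMod 3) (LinearMap.ker (B k + Y)) = r k).card : ℝ) -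
      (∏ k, gi * cf (r k)) * (YY W).card| ≤ ε * (YY W).card := by
  induction M with
  | zero =>
    intro r ε hε
    refine ⟨0, ?_⟩
    intro V _ _ _ W B d t _ _ _ _ _ _
    have h1 : ((YY W).filter fun Y => ∀ k : Fin 0,
        finrank (ZMod 3) (LinearMap.ker (B k + Y)) = r k) = YY W :=
      Finset.filter_true_of_mem fun Y _ k => k.elim0
    rw [h1, Finset.univ_eq_empty, Finset.prod_empty, one_mul, sub_self, abs_zero]
    positivity
  | succ M ih =>
    intro r ε hε
    obtain ⟨n₀, hn₀⟩ := (Metric.tendsto_atTop.1 gi_tendsto) (ε / 3) (by positivity)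
    set J : ℕ := 2 * n₀ + 1 with hJ
    set r₀ : ℕ := r 0 with hr₀
    set L : ℕ := r₀ + J + 1 with hL
    set η : ℝ := ε / (3 * (J + 2)) with hη
    have hη0 : 0 < η := by positivity
    obtain ⟨R₁, hR₁⟩ := ih (fun k => r k.succ) η hη0
    obtain ⟨R₂, hR₂⟩ : ∃ R₂ : ℕ, ((M : ℝ) + 1) * 3 ^ L * (J + 2) * 3 / ε < 3 ^ R₂ :=
      pow_unbounded_of_one_lt _ (by norm_num)
    refine ⟨R₁ + R₂ + 2 * L, ?_⟩
    intro V _ _ _ W B d t hSy hNd hJJ hWd ht hR
    have hfin : Module.Finite (ZMod 3) V := Module.Finite.of_finite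
    obtain ⟨G, hG⟩ : ∃ G : LinearMap.BilinForm (ZMod 3) V → Prop,
        ∀ Y, G Y ↔ ∀ k : Fin M, finrank (ZMod 3) (LinearMap.ker (B k.succ + Y)) = r k.succ :=
      ⟨_, fun _ => Iff.rfl⟩
    set γ : ℝ := ∏ k : Fin M, gi * cf (r k.succ) with hγ
    have hgi0 : 0 ≤ gi := gi_ge
    have hγ0 : 0 ≤ γ := Finset.prod_nonneg fun k _ => mul_nonneg hgi0 (cf_pos _).le
    have hγ1 : γ ≤ 1 := Finset.prod_le_one (fun k _ => mul_nonneg hgi0 (cf_pos _).le)
      fun k _ => mul_le_one₀ gi_le (cf_pos _).le (cf_le_one _)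
    set N : ℝ := ((YY W).card : ℝ) with hNdef
    have hN0 : 0 ≤ N := Nat.cast_nonneg _
    -- the exceptional set
    set Z : Finset V := (univ.filter fun x => x ∈ W) ∪
      (univ : Finset (Fin M)).biUnion fun k =>
        (univ.filter fun p : V × V => p ∈ JJ (B 0) (B k.succ) W).image Prod.fst with hZ
    have hcard : ∀ (E : Type) [AddCommGroup E] [Module (ZMod 3) E] [Fintype E]
        (S : Submodule (ZMod 3) E), (univ.filter fun x => x ∈ S).card = 3 ^ finrank (ZMod 3) S := by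
      intro E _ _ _ S
      have hfinE : Module.Finite (ZMod 3) E := Module.Finite.of_finite
      have h1 : (univ.filter fun x => x ∈ S).card = Nat.card S := by
        rw [Nat.card_eq_fintype_card, ← Fintype.card_coe]
        exact Fintype.card_congr (Equiv.subtypeEquivRight fun x => by simp)
      rw [h1, Module.natCard_eq_pow_finrank (K := ZMod 3), Nat.card_zmod]
    have hZc : Z.card ≤ (M + 1) * 3 ^ d := by
      have h1 : (univ.filter fun x => x ∈ W).card ≤ 3 ^ d := by
        rw [hcard V W]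
        exact Nat.pow_le_pow_right (by norm_num) hWd
      have h2 : ((univ : Finset (Fin M)).biUnion fun k =>
          (univ.filter fun p : V × V => p ∈ JJ (B 0) (B k.succ) W).image Prod.fst).card ≤
          M * 3 ^ d := by
        refine Finset.card_biUnion_le.trans ?_
        have h3 : ∀ k ∈ (univ : Finset (Fin M)), ((univ.filter fun p : V × V =>
            p ∈ JJ (B 0) (B k.succ) W).image Prod.fst).card ≤ 3 ^ d := by
          intro k _
          refine Finset.card_image_le.trans ?_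
          rw [hcard (V × V) (JJ (B 0) (B k.succ) W)]
          exact Nat.pow_le_pow_right (by norm_num) (hJJ 0 k.succ (Fin.succ_ne_zero k).symm)
        refine (Finset.sum_le_sum h3).trans (le_of_eq ?_)
        rw [Finset.sum_const, Finset.card_univ, Fintype.card_fin, smul_eq_mul]
      refine (Finset.card_union_le _ _).trans ?_
      rw [add_mul, one_mul]
      omega
    set δ : ℝ := η + Z.card * 3 ^ L / 3 ^ t with hδ
    have hδ0 : 0 ≤ δ := by positivity
    -- the estimate
    have hest : ∀ j ≤ L, |∑ Y ∈ (YY W).filter G,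
        ij j (3 ^ finrank (ZMod 3) (LinearMap.ker (B 0 + Y))) -
        γ * 3 ^ (j * (j - 1) / 2) * N| ≤ 3 ^ (j * (j - 1) / 2) * N * δ := by
      intro j hj
      have h1 := est (hSy 0) (hNd 0) ht G (γ := γ) (ε := η) hγ0 hγ1 hη0.le (j := j) (by omega) Z
        (fun w hw => Finset.mem_union_left _ (Finset.mem_filter.2 ⟨Finset.mem_univ _, hw⟩)) ?_
      · refine h1.trans ?_
        apply mul_le_mul_of_nonneg_left _ (by positivity)
        rw [hδ]
        have h2 : (3 : ℝ) ^ j ≤ 3 ^ L := pow_le_pow_right₀ (by norm_num) hj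
        gcongr
      · intro v hvN hLI hvZ hd Y₀ hY₀ hY₀U
        have hY' := mem_YY.1 hY₀
        have hUW : ∀ u ∈ Submodule.span (ZMod 3) (Set.range v), ∀ w ∈ W, B 0 u w = 0 := by
          intro u hu
          have : Submodule.span (ZMod 3) (Set.range v) ≤ Nn (B 0) W := by
            rw [Submodule.span_le]
            rintro x ⟨i, rfl⟩
            exact hvN i
          exact mem_Nn.1 (this hu)
        have hfr := finrank_sup_span hLI hd
        have h2 := hR₁ V (W ⊔ Submodule.span (ZMod 3) (Set.range v))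
          (fun k => B k.succ + Y₀) (d + j) (t - j)
          (fun k => (hSy k.succ).add hY'.1) (fun k => ?_) (fun k l hkl => ?_) (by omega) (by omega)
          (by omega)
        · have h3 : ((YY (W ⊔ Submodule.span (ZMod 3) (Set.range v))).filter
              fun Y => G (Y₀ + Y)) =
              (YY (W ⊔ Submodule.span (ZMod 3) (Set.range v))).filter
              fun Y => ∀ k : Fin M,
                finrank (ZMod 3) (LinearMap.ker (B k.succ + Y₀ + Y)) = r k.succ := by
            ext Y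
            simp only [Finset.mem_filter, hG]
            refine and_congr_right fun _ => forall_congr' fun k => ?_
            rw [add_assoc]
          rw [h3]
          exact h2
        · refine nd_JJ (hNd k.succ) hY₀ hY₀U hUW ?_
          intro u hu hu0 b hb
          obtain ⟨c, rfl⟩ := (Submodule.mem_span_range_iff_exists_fun (ZMod 3)).1 hu
          refine hvZ c (fun hc => hu0 (by rw [hc]; simp)) ?_
          rw [hZ]
          refine Finset.mem_union_right _ (Finset.mem_biUnion.2 ⟨k, Finset.mem_univ _, ?_⟩)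
          exact Finset.mem_image.2 ⟨_, Finset.mem_filter.2 ⟨Finset.mem_univ _, hb⟩, rfl⟩
        · have h3 := finrank_JJ (B := B k.succ) (B' := B l.succ) hY₀ v
          have h4 := hJJ k.succ l.succ (fun h => hkl (Fin.succ_injective _ h))
          omega
    have hδ' : (J + 2) * δ ≤ 2 * ε / 3 := by
      have h1 : ((J : ℝ) + 2) * η = ε / 3 := by
        rw [hη]
        field_simp
      have h2 : (Z.card : ℝ) * 3 ^ L / 3 ^ t ≤ (M + 1) * 3 ^ L / 3 ^ R₂ := by
        rw [div_le_div_iff₀ (by positivity) (by positivity)]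
        have h3 : (Z.card : ℝ) ≤ (M + 1) * 3 ^ d := by exact_mod_cast hZc
        have h4 : (3 : ℝ) ^ d * 3 ^ R₂ ≤ 3 ^ t := by
          rw [← pow_add]
          exact pow_le_pow_right₀ (by norm_num) (by omega)
        calc (Z.card : ℝ) * 3 ^ L * 3 ^ R₂ ≤ (M + 1) * 3 ^ d * 3 ^ L * 3 ^ R₂ := by
              gcongr
          _ = (M + 1) * 3 ^ L * (3 ^ d * 3 ^ R₂) := by ring
          _ ≤ _ := by gcongr
      have h3 : ((J : ℝ) + 2) * ((M + 1) * 3 ^ L / 3 ^ R₂) ≤ ε / 3 := by
        rw [← mul_div_assoc, div_le_div_iff₀ (by positivity) (by norm_num)]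
        rw [div_lt_iff₀ hε] at hR₂
        nlinarith
      have h4 : ((J : ℝ) + 2) * δ = (J + 2) * η + (J + 2) * (Z.card * 3 ^ L / 3 ^ t) := by
        rw [hδ]
        ring
      have h5 : ((J : ℝ) + 2) * (Z.card * 3 ^ L / 3 ^ t) ≤ ε / 3 :=
        (mul_le_mul_of_nonneg_left h2 (by positivity)).trans h3
      rw [h4, h1]
      linarith
    -- the count
    have hcnt : (((YY W).filter fun Y => ∀ k,
        finrank (ZMod 3) (LinearMap.ker (B k + Y)) = r k).card : ℝ) =
        ∑ Y ∈ (YY W).filter G,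
          (if finrank (ZMod 3) (LinearMap.ker (B 0 + Y)) = r₀ then (1 : ℝ) else 0) := by
      rw [← Finset.sum_filter, Finset.sum_const, nsmul_eq_mul, mul_one, Finset.filter_filter]
      congr 2
      ext Y
      simp only [Finset.mem_filter, hG]
      rw [Fin.forall_fin_succ, and_comm (a := finrank (ZMod 3) _ = r 0)]
    have hsum : ∀ n, n₀ ≤ n → |∑ i ∈ range n, (-1) ^ i * ff i - gi| ≤ ε / 3 := by
      intro n hn
      have := hn₀ n hn
      rw [Real.dist_eq] at this
      exact this.le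
    have hprod : ∏ k : Fin (M + 1), gi * cf (r k) = gi * cf r₀ * γ := by
      rw [Fin.prod_univ_succ]
    have hcr := cf_pos r₀
    have hcr1 := cf_le_one r₀
    have hmain : ∀ I, I ≤ J + 1 → n₀ ≤ I + 1 →
        |∑ Y ∈ (YY W).filter G, qq r₀ I (3 ^ finrank (ZMod 3) (LinearMap.ker (B 0 + Y))) -
          gi * cf r₀ * γ * N| ≤ ε * N := by
      intro I hI hI'
      have h1 := sum_qq (γ := γ) (N := N) (δ := δ) hN0 (r := r₀) (I := I)
        (fun j hj => hest j (by omega)) hδ0
      have h2 := hsum (I + 1) hI'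
      have h3 : |γ * cf r₀ * (∑ j ∈ range (I + 1), (-1) ^ j * ff j) * N - gi * cf r₀ * γ * N| ≤
          ε / 3 * N := by
        have h4 : γ * cf r₀ * (∑ j ∈ range (I + 1), (-1) ^ j * ff j) * N - gi * cf r₀ * γ * N =
            (γ * cf r₀) * ((∑ j ∈ range (I + 1), (-1) ^ j * ff j) - gi) * N := by
          ring
        have h5 : 0 ≤ γ * cf r₀ := mul_nonneg hγ0 hcr.le
        have h6 : γ * cf r₀ ≤ 1 := mul_le_one₀ hγ1 hcr.le hcr1
        rw [h4, abs_mul, abs_mul, abs_of_nonneg hN0, abs_of_nonneg h5]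
        apply mul_le_mul_of_nonneg_right _ hN0
        calc (γ * cf r₀) * |(∑ j ∈ range (I + 1), (-1) ^ j * ff j) - gi| ≤ 1 * (ε / 3) :=
              mul_le_mul h6 h2 (abs_nonneg _) zero_le_one
          _ = _ := one_mul _
      have h5 : N * (((I : ℝ) + 1) * δ) ≤ N * (2 * ε / 3) := by
        apply mul_le_mul_of_nonneg_left _ hN0
        refine le_trans ?_ hδ'
        apply mul_le_mul_of_nonneg_right _ hδ0
        have : (I : ℝ) ≤ J + 1 := by exact_mod_cast hI
        linarith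
      have h6 := abs_sub_le
        (∑ Y ∈ (YY W).filter G, qq r₀ I (3 ^ finrank (ZMod 3) (LinearMap.ker (B 0 + Y))))
        (γ * cf r₀ * (∑ j ∈ range (I + 1), (-1) ^ j * ff j) * N) (gi * cf r₀ * γ * N)
      have h7 := h1.trans h5
      linarith
    have hlo := hmain J (by omega) (by omega)
    have hhi := hmain (J + 1) le_rfl (by omega)
    have hJo : Odd J := ⟨n₀, hJ⟩
    have hJe : Even (J + 1) := hJo.add_one
    have h1 : ∑ Y ∈ (YY W).filter G, qq r₀ J (3 ^ finrank (ZMod 3) (LinearMap.ker (B 0 + Y))) ≤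
        ∑ Y ∈ (YY W).filter G,
          (if finrank (ZMod 3) (LinearMap.ker (B 0 + Y)) = r₀ then (1 : ℝ) else 0) :=
      Finset.sum_le_sum fun Y _ => qq_odd hJo _ _
    have h2 : ∑ Y ∈ (YY W).filter G,
          (if finrank (ZMod 3) (LinearMap.ker (B 0 + Y)) = r₀ then (1 : ℝ) else 0) ≤
        ∑ Y ∈ (YY W).filter G, qq r₀ (J + 1) (3 ^ finrank (ZMod 3) (LinearMap.ker (B 0 + Y))) :=
      Finset.sum_le_sum fun Y _ => qq_even hJe _ _
    rw [hcnt, hprod]
    rw [abs_le] at hlo hhi ⊢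
    constructor <;> linarith

end Q283.T3
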