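import Pool.Agent.Q283.T3.Box
import Pool.Agent.Y696.XL.Key3

/-! The sum over the boxes for several masks (adapted from `Pool/Agent/Y696/XL/Key2.lean`) -/

set_option autoImplicit false

namespace Q283.T3

open Finset
open Pool.Agent.Y692.QS (Ei w nr toC)
open Pool.Agent.Y715.T.Rec (cs)
open Pool.Agent.Y715.T.RecG (Pq)
open Pool.Agent.Y699.E (ez nrm QB mem_QB pq_nrm_two nrm_prod PS_prod PD SB mem_SB card_SB_le
  hsum_SB lg)
open Pool.Agent.Y703.CX (jj XX)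
open Pool.Agent.Y703.XK
open Pool.Agent.XLK (fcc nrm_one_le ph ky CC mem_CC sm_fill la_fill key_facts key_bij hb_box
  card_QB_le prs_card keg_err)
open scoped Classical

/-- the statement for the boxes with the decidability of equality as a variable -/
theorem box_dec {W : Finset Ei} {R : ℕ} {G : Finset Ei → Prop} {cc δ : ℝ} (hB : BXM W R G cc δ)
    (ι : Type) [Fintype ι] [inst : DecidableEq ι]
    (lo : LinearOrder ι) (C : ι → Finset Ei) (X : ι → ℕ) (κ : ℝ) (S₀ : Finset Ei) (h1 : 0 ≤ κ)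
    (h2 : ∀ i, (C i).card ≤ X i) (h3 : HB C X κ) (h4 : ∀ u ∈ S₀, Pq u)
    (h5 : ∀ i, ∀ π ∈ C i, Pq π ∧ π ∉ S₀ ∪ W) (h6 : ∀ i l, i ≠ l → Disjoint (C i) (C l)) :
    |(((Fintype.piFinset C).filter fun p => NdF R W S₀ (univ.image p) ∧
        G (S₀ ∪ univ.image p)).card : ℝ) -
      cc * (((Fintype.piFinset C).filter fun p => NdF R W S₀ (univ.image p)).card : ℝ)| ≤
    δ * (((Fintype.piFinset C).filter fun p => NdF R W S₀ (univ.image p)).card : ℝ) +
    3 ^ ((S₀ ∪ W).card * Fintype.card ι + (prs ι).card) * (κ * ∏ j, (X j : ℝ)) := by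
  have h := hB ι C X κ S₀ h1 h2 h3 h4 h5 h6
  have e : inst = fun a b => lo.toDecidableEq a b := Subsingleton.elim _ _
  subst e
  exact h

theorem per_key {W : Finset Ei} {R : ℕ} {G : Finset Ei → Prop} {cc δ : ℝ} (hB : BXM W R G cc δ)
    (hδ0 : 0 ≤ δ) {C₁ : ℝ}
    (hb1 : ∀ (P Q : Finset Ei) (A B z : ℕ) (c d : Ei → ℂ) (a : ZMod 3),
      (∀ π ∈ P, Pq π ∧ nrm π ≤ A) → (∀ ρ ∈ Q, Pq ρ ∧ nrm ρ ≤ B) → Disjoint P Q → a ≠ 0 →
      1 ≤ z → z ≤ A → z ≤ B → (∀ π, ‖c π‖ ≤ 1) → (∀ ρ, ‖d ρ‖ ≤ 1) →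
      ‖∑ π ∈ P, ∑ ρ ∈ Q, c π * d ρ * ez (a * cs π ρ)‖ ^ 24 * z ≤ C₁ * ((A : ℝ) * B) ^ 24)
    {X z H k V : ℕ} {κ : ℝ} (hH : 1 ≤ H) (hz : 1 ≤ z) (hκ : 0 ≤ κ)
    (h1 : C₁ ≤ κ ^ 24 * z) (hW : ∀ u ∈ W, nrm u ≤ z) {S₀ : Finset Ei} {J : Finset ℕ}
    (hkey : (S₀, J) ∈ (RR X z H k V).image (ky z H)) :
    |(((RR X z H k V).filter fun S => ky z H S = (S₀, J) ∧
        (NdF R W (sm z S) (la z S) ∧ G S)).card : ℝ) -
      cc * (((RR X z H k V).filter fun S => ky z H S = (S₀, J) ∧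
        NdF R W (sm z S) (la z S)).card : ℝ)| ≤
    δ * (((RR X z H k V).filter fun S => ky z H S = (S₀, J) ∧ True).card : ℝ) +
      3 ^ (W.card * k) * ((3 ^ (9 * k ^ 2) * κ) * (X * (1 / ((∏ p ∈ S₀, nrm p : ℕ) : ℝ)))) := by
  obtain ⟨h₀O, h₀, hJi, hCd, hJf⟩ := key_facts hH hkey
  obtain ⟨c1, c4, c5, c6⟩ := hCd
  have hcJ : Fintype.card J = J.card := Fintype.card_coe J
  have hCmem : ∀ i : J, ∀ p ∈ CC z H i, Pq p ∧ z < nrm p ∧ nrm p ≤ XX H (i.1 / 9) := by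
    intro i p hp
    obtain ⟨k1, k2, k3⟩ := (mem_CC hH).1 hp
    refine ⟨k1, k2, ?_⟩
    unfold CC at hp
    rw [Finset.mem_filter, mem_QB] at hp
    exact hp.1.1
  have hdis : ∀ i l : J, i ≠ l → Disjoint (CC z H (i : ℕ)) (CC z H (l : ℕ)) := by
    intro i l hil
    rw [Finset.disjoint_left]
    intro p hp hp'
    have h5 := ((mem_CC hH).1 hp).2.2
    have h6 := ((mem_CC hH).1 hp').2.2
    exact hil (Subtype.ext (h5.symm.trans h6))
  have hzX : ∀ i : J, z ≤ XX H (i.1 / 9) := fun i => (hJf i i.2).1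
  have hHB : HB (fun i : J => CC z H i) (fun i : J => 16 * XX H (i.1 / 9)) κ :=
    hb_box hb1 _ _ hz hκ h1 (fun i => by have := hzX i; omega)
      (fun i p hp => by
        obtain ⟨k1, k2, k3⟩ := hCmem i p hp
        exact ⟨k1, by omega⟩) hdis
  have hcard : ∀ i : J, (CC z H (i : ℕ)).card ≤ 16 * XX H (i.1 / 9) := by
    intro i
    refine (Finset.card_filter_le _ _).trans (card_QB_le ?_)
    have := hzX i
    omega
  have hbox := box_dec hB J inferInstance (fun i : J => CC z H i)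
    (fun i : J => 16 * XX H (i.1 / 9)) κ S₀ hκ hcard hHB h₀O (fun i p hp => by
      obtain ⟨k1, k2, k3⟩ := hCmem i p hp
      refine ⟨k1, fun h => ?_⟩
      rcases Finset.mem_union.1 h with h | h
      · have := h₀ p h
        omega
      · have := hW p h
        omega) hdis
  have e1 : (((Fintype.piFinset fun i : J => CC z H i).filter
      fun p => NdF R W S₀ (univ.image p) ∧ G (S₀ ∪ univ.image p)).card) =
      ((RR X z H k V).filter fun S => ky z H S = (S₀, J) ∧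
        (NdF R W (sm z S) (la z S) ∧ G S)).card := by
    refine Eq.trans (fcc ?_) ((key_bij hH hkey (fun S => NdF R W (sm z S) (la z S) ∧ G S)).trans
      (fcc fun _ _ => Iff.rfl))
    intro p hp
    rw [Fintype.mem_piFinset] at hp
    rw [sm_fill hH h₀ hp, la_fill hH h₀ hp]
  have e2 : (((Fintype.piFinset fun i : J => CC z H i).filter
      fun p => NdF R W S₀ (univ.image p)).card) =
      ((RR X z H k V).filter fun S => ky z H S = (S₀, J) ∧ NdF R W (sm z S) (la z S)).card := by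
    refine Eq.trans (fcc ?_) ((key_bij hH hkey (fun S => NdF R W (sm z S) (la z S))).trans
      (fcc fun _ _ => Iff.rfl))
    intro p hp
    rw [Fintype.mem_piFinset] at hp
    rw [sm_fill hH h₀ hp, la_fill hH h₀ hp]
  rw [← e1, ← e2]
  have e3 : (((Fintype.piFinset fun i : J => CC z H i).filter
      fun p => NdF R W S₀ (univ.image p)).card : ℝ) ≤
      (((RR X z H k V).filter fun S => ky z H S = (S₀, J) ∧ True).card : ℝ) := by
    rw [e2]
    have : (RR X z H k V).filter (fun S => ky z H S = (S₀, J) ∧ NdF R W (sm z S) (la z S)) ⊆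
        (RR X z H k V).filter fun S => ky z H S = (S₀, J) ∧ True := by
      intro S hS
      rw [Finset.mem_filter] at hS ⊢
      exact ⟨hS.1, hS.2.1, trivial⟩
    exact_mod_cast Finset.card_le_card this
  refine hbox.trans ?_
  have hJK : J.card ≤ k := by omega
  have hSK : S₀.card ≤ k := by omega
  have hUK := Finset.card_union_le S₀ W
  obtain ⟨m, hm⟩ : ∃ m : ℕ, m = (prs J).card := ⟨_, rfl⟩
  have hpr : m ≤ k * k := by
    rw [hm]
    refine (prs_card J).trans ?_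
    rw [hcJ]
    exact Nat.mul_le_mul hJK hJK
  rw [← hm]
  have hN0 : (0 : ℝ) < ((∏ p ∈ S₀, nrm p : ℕ) : ℝ) := by
    exact_mod_cast Finset.prod_pos fun p hp => nrm_one_le (h₀O p hp)
  have hprod : ∏ j : J, ((16 * XX H (j.1 / 9) : ℕ) : ℝ) ≤
      3 ^ (3 * k) * (X * (1 / ((∏ p ∈ S₀, nrm p : ℕ) : ℝ))) := by
    have h5 : ∏ j : J, ((16 * XX H (j.1 / 9) : ℕ) : ℝ) =
        16 ^ J.card * ((∏ i ∈ J, XX H (i / 9) : ℕ) : ℝ) := by
      rw [← Finset.prod_coe_sort J (fun i => XX H (i / 9))]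
      push_cast
      rw [Finset.prod_mul_distrib, Finset.prod_const, Finset.card_univ, hcJ]
    have h6 : ((∏ i ∈ J, XX H (i / 9) : ℕ) : ℝ) ≤ X * (1 / ((∏ p ∈ S₀, nrm p : ℕ) : ℝ)) := by
      rw [mul_one_div, le_div_iff₀ hN0, mul_comm]
      exact_mod_cast c5
    have h7 : (16 : ℝ) ^ J.card ≤ 3 ^ (3 * k) := by
      calc (16 : ℝ) ^ J.card ≤ 27 ^ J.card := pow_le_pow_left₀ (by norm_num) (by norm_num) _
        _ = 3 ^ (3 * J.card) := by rw [pow_mul]; norm_num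
        _ ≤ 3 ^ (3 * k) := pow_le_pow_right₀ (by norm_num) (by omega)
    rw [h5]
    gcongr
  have hpw : (3 : ℝ) ^ ((S₀ ∪ W).card * Fintype.card J + m) * 3 ^ (3 * k) ≤
      3 ^ (W.card * k) * 3 ^ (9 * k ^ 2) := by
    rw [← pow_add, ← pow_add]
    apply pow_le_pow_right₀ (by norm_num)
    rw [hcJ]
    have h5 : (S₀ ∪ W).card * J.card ≤ (k + W.card) * k :=
      Nat.mul_le_mul (hUK.trans (by omega)) hJK
    have h6 : k ≤ k * k := by
      rcases Nat.eq_zero_or_pos k with h | h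
      · rw [h]
      · exact Nat.le_mul_of_pos_left k h
    nlinarith
  refine add_le_add ?_ ?_
  · gcongr
  · have hX1 : (0 : ℝ) ≤ X * (1 / ((∏ p ∈ S₀, nrm p : ℕ) : ℝ)) := by positivity
    calc (3 : ℝ) ^ ((S₀ ∪ W).card * Fintype.card J + m) *
        (κ * ∏ j : J, ((16 * XX H (j.1 / 9) : ℕ) : ℝ)) ≤
        3 ^ ((S₀ ∪ W).card * Fintype.card J + m) *
          (κ * (3 ^ (3 * k) * (X * (1 / ((∏ p ∈ S₀, nrm p : ℕ) : ℝ))))) := by gcongr
      _ = (3 ^ ((S₀ ∪ W).card * Fintype.card J + m) * 3 ^ (3 * k)) *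
          (κ * (X * (1 / ((∏ p ∈ S₀, nrm p : ℕ) : ℝ)))) := by ring
      _ ≤ (3 ^ (W.card * k) * 3 ^ (9 * k ^ 2)) * (κ * (X * (1 / ((∏ p ∈ S₀, nrm p : ℕ) : ℝ)))) := by
          gcongr
      _ = _ := by ring

/-- **The sum over the boxes.** -/
theorem t_KEM (hB1 : S_BIL) : ∃ C : ℝ, 1 ≤ C ∧ ∀ (W : Finset Ei) (R : ℕ) (G : Finset Ei → Prop)
    (cc δ : ℝ), BXM W R G cc δ → 0 ≤ δ →
  ∀ (X z H k V N : ℕ) (κ : ℝ), (∀ u ∈ W, nrm u ≤ z) → 1 ≤ X → 1 ≤ H → 1 ≤ z → 0 ≤ κ →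
  C ≤ κ ^ 24 * z → (H : ℝ) * Real.log X < N →
  |(((RR X z H k V).filter fun S => NdF R W (sm z S) (la z S) ∧ G S).card : ℝ) -
      cc * (((RR X z H k V).filter fun S => NdF R W (sm z S) (la z S)).card : ℝ)| ≤
    δ * ((RR X z H k V).card : ℝ) +
    3 ^ (W.card * k) * ((9 * N + 9 : ℝ) ^ k * (3 ^ (9 * k ^ 2 + 9) * κ) * (X * (1 + Real.log X))) := by
  obtain ⟨C₁, hC₁, hb1⟩ := hB1
  refine ⟨C₁, hC₁, ?_⟩
  intro W R G cc δ hB hδ0 X z H k V N κ hW hX hH hz hκ h1 hN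
  set T := (RR X z H k V).image (ky z H) with hT
  have hfib : ∀ P : Finset Ei → Prop, (((RR X z H k V).filter fun S => P S).card : ℝ) =
      ∑ k' ∈ T, (((RR X z H k V).filter fun S => ky z H S = k' ∧ P S).card : ℝ) := by
    intro P
    rw [Finset.card_eq_sum_card_fiberwise (f := ky z H) (t := T) (by
      intro S hS
      rw [Finset.mem_coe, Finset.mem_filter] at hS
      exact Finset.mem_coe.2 (Finset.mem_image_of_mem _ hS.1))]
    push_cast
    refine Finset.sum_congr rfl fun k' _ => ?_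
    congr 2
    ext S
    simp only [Finset.mem_filter]
    tauto
  have hall : ((RR X z H k V).card : ℝ) =
      ∑ k' ∈ T, (((RR X z H k V).filter fun S => ky z H S = k' ∧ True).card : ℝ) := by
    rw [Finset.card_eq_sum_card_fiberwise (f := ky z H) (t := T) (by
      intro S hS
      exact Finset.mem_coe.2 (Finset.mem_image_of_mem _ hS))]
    push_cast
    exact Finset.sum_congr rfl fun k' _ => congrArg _ (fcc fun _ _ => by tauto)
  have q1 : (((RR X z H k V).filter fun S => NdF R W (sm z S) (la z S) ∧ G S).card : ℝ) =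
      ∑ k' ∈ T, (((RR X z H k V).filter fun S => ky z H S = k' ∧
        (NdF R W (sm z S) (la z S) ∧ G S)).card : ℝ) :=
    (congrArg _ (fcc fun _ _ => Iff.rfl)).trans
      ((hfib fun S => NdF R W (sm z S) (la z S) ∧ G S).trans
      (Finset.sum_congr rfl fun k' _ => congrArg _ (fcc fun _ _ => Iff.rfl)))
  rw [q1, hfib, Finset.mul_sum, ← Finset.sum_sub_distrib, hall, Finset.mul_sum]
  refine (Finset.abs_sum_le_sum_abs _ _).trans ?_
  have h3 : ∑ k' ∈ T, |(((RR X z H k V).filter fun S => ky z H S = k' ∧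
      (NdF R W (sm z S) (la z S) ∧ G S)).card : ℝ) - cc * (((RR X z H k V).filter fun S =>
      ky z H S = k' ∧ NdF R W (sm z S) (la z S)).card : ℝ)| ≤
      ∑ k' ∈ T, (δ * (((RR X z H k V).filter fun S =>
      ky z H S = k' ∧ True).card : ℝ) +
      3 ^ (W.card * k) * ((3 ^ (9 * k ^ 2) * κ) * (X * (1 / ((∏ p ∈ k'.1, nrm p : ℕ) : ℝ))))) := by
    refine Finset.sum_le_sum fun k' hk => ?_
    obtain ⟨S₀, J⟩ := k'
    exact per_key hB hδ0 hb1 hH hz hκ h1 hW hk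
  refine h3.trans ?_
  rw [Finset.sum_add_distrib, ← Finset.mul_sum (a := (3 : ℝ) ^ (W.card * k))]
  refine add_le_add (le_refl _) ?_
  exact mul_le_mul_of_nonneg_left (keg_err hX hH hz hκ hN fun k' hk => hk) (by positivity)

end Q283.T3
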