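import Pool.Agent.Q283.T3.Jt
import Pool.Agent.Y703.XK.Stm

/-! The linear algebra: the law of the coranks of several Laplacians with a common random part -/

set_option autoImplicit false
set_option linter.unusedSectionVars false

open scoped Classical

namespace Q283.T3

open Finset Module
open Pool.Agent.Y703.XK (prs)

section lap
variable {ι : Type} [Fintype ι]

/-- a row of the Laplacian of `c` plus the diagonal matrix of `δ` -/
noncomputable def row (c : ι → ι → ZMod 3) (δ : ι → ZMod 3) (i : ι) : (ι → ZMod 3) →ₗ[ZMod 3] (ZMod 3) :=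
  ∑ j, c i j • ((LinearMap.proj j : (ι → ZMod 3) →ₗ[ZMod 3] (ZMod 3)) - LinearMap.proj i) +
    δ i • (LinearMap.proj i : (ι → ZMod 3) →ₗ[ZMod 3] (ZMod 3))

theorem row_apply (c : ι → ι → ZMod 3) (δ : ι → ZMod 3) (i : ι) (x : ι → ZMod 3) :
    row c δ i x = ∑ j, c i j * (x j - x i) + δ i * x i := by
  unfold row
  simp only [LinearMap.add_apply, LinearMap.sum_apply, LinearMap.smul_apply, LinearMap.sub_apply,
    LinearMap.proj_apply, smul_eq_mul]

/-- the form of the Laplacian -/
noncomputable def Lp (c : ι → ι → ZMod 3) (δ : ι → ZMod 3) : LinearMap.BilinForm (ZMod 3) (ι → ZMod 3) :=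
  ∑ i, (row c δ i).smulRight (LinearMap.proj i)

theorem Lp_apply (c : ι → ι → ZMod 3) (δ : ι → ZMod 3) (x y : ι → ZMod 3) :
    Lp c δ x y = ∑ i, (∑ j, c i j * (x j - x i) + δ i * x i) * y i := by
  unfold Lp
  simp only [LinearMap.sum_apply, LinearMap.smulRight_apply, LinearMap.smul_apply, row_apply,
    smul_eq_mul, LinearMap.proj_apply]

theorem Lp_add (c c' : ι → ι → ZMod 3) (δ : ι → ZMod 3) : Lp c δ + Lp c' 0 = Lp (c + c') δ := by
  refine LinearMap.ext fun x => LinearMap.ext fun y => ?_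
  rw [LinearMap.add_apply, LinearMap.add_apply, Lp_apply, Lp_apply, Lp_apply, ← sum_add_distrib]
  refine sum_congr rfl fun i _ => ?_
  have h : ∑ j, (c + c') i j * (x j - x i) = ∑ j, c i j * (x j - x i) + ∑ j, c' i j * (x j - x i) := by
    rw [← sum_add_distrib]
    exact sum_congr rfl fun j _ => by simp only [Pi.add_apply]; ring
  rw [h]
  simp only [Pi.zero_apply]
  ring

theorem Lp_symm {c : ι → ι → ZMod 3} (hc : ∀ i j, c i j = c j i) (δ : ι → ZMod 3) : Sy (Lp c δ) := by
  intro x y
  rw [Lp_apply, Lp_apply]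
  have key : ∀ x y : ι → ZMod 3, ∑ i, (∑ j, c i j * (x j - x i) + δ i * x i) * y i =
      ∑ i, ∑ j, c i j * (x j * y i) - ∑ i, ∑ j, c i j * (x i * y i) + ∑ i, δ i * x i * y i := by
    intro x y
    rw [← sum_sub_distrib, ← sum_add_distrib]
    refine sum_congr rfl fun i _ => ?_
    rw [add_mul, sum_mul, ← sum_sub_distrib]
    congr 1
    exact sum_congr rfl fun j _ => by ring
  rw [key, key]
  have e1 : ∑ i, ∑ j, c i j * (x j * y i) = ∑ i, ∑ j, c i j * (y j * x i) := by
    rw [sum_comm]
    refine sum_congr rfl fun i _ => sum_congr rfl fun j _ => ?_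
    rw [hc j i]
    ring
  have e2 : ∑ i, ∑ j, c i j * (x i * y i) = ∑ i, ∑ j, c i j * (y i * x i) :=
    sum_congr rfl fun i _ => sum_congr rfl fun j _ => by ring
  have e3 : ∑ i, δ i * x i * y i = ∑ i, δ i * y i * x i :=
    sum_congr rfl fun i _ => by ring
  rw [e1, e2, e3]

theorem mem_kerLp {c : ι → ι → ZMod 3} {δ : ι → ZMod 3} {x : ι → ZMod 3} :
    x ∈ LinearMap.ker (Lp c δ) ↔ ∀ i, ∑ j, c i j * (x j - x i) + δ i * x i = 0 := by
  rw [LinearMap.mem_ker]
  constructor
  · intro h i
    have h1 := LinearMap.congr_fun h (Pi.single i 1)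
    rw [Lp_apply, LinearMap.zero_apply, sum_eq_single i] at h1
    · rw [Pi.single_eq_same, mul_one] at h1
      exact h1
    · intro j _ hj
      rw [Pi.single_eq_of_ne hj, mul_zero]
    · intro h2
      exact absurd (mem_univ _) h2
  · intro h
    refine LinearMap.ext fun y => ?_
    rw [Lp_apply, LinearMap.zero_apply]
    exact sum_eq_zero fun i _ => by rw [h i, zero_mul]

/-- the kernel of the Laplacian on the functions supported on `S` -/
def KS (c : ι → ι → ZMod 3) (S : Finset ι) : Submodule (ZMod 3) (ι → ZMod 3) where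
  carrier := {x | (∀ i, i ∉ S → x i = 0) ∧ ∀ i, ∑ j, c i j * (x j - x i) = 0}
  add_mem' := by
    rintro x y ⟨h1, h2⟩ ⟨h3, h4⟩
    refine ⟨fun i hi => by rw [Pi.add_apply, h1 i hi, h3 i hi, add_zero], fun i => ?_⟩
    have h5 : ∑ j, c i j * ((x + y) j - (x + y) i) =
        ∑ j, c i j * (x j - x i) + ∑ j, c i j * (y j - y i) := by
      rw [← sum_add_distrib]
      exact sum_congr rfl fun j _ => by simp only [Pi.add_apply]; ring
    rw [h5, h2, h4, add_zero]
  zero_mem' := ⟨fun _ _ => rfl, fun i => by simp⟩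
  smul_mem' := by
    rintro a x ⟨h1, h2⟩
    refine ⟨fun i hi => by rw [Pi.smul_apply, h1 i hi, smul_zero], fun i => ?_⟩
    have h5 : ∑ j, c i j * ((a • x) j - (a • x) i) = a * ∑ j, c i j * (x j - x i) := by
      rw [mul_sum]
      exact sum_congr rfl fun j _ => by simp only [Pi.smul_apply, smul_eq_mul]; ring
    rw [h5, h2, mul_zero]

theorem mem_KS {c : ι → ι → ZMod 3} {S : Finset ι} {x : ι → ZMod 3} :
    x ∈ KS c S ↔ (∀ i, i ∉ S → x i = 0) ∧ ∀ i, ∑ j, c i j * (x j - x i) = 0 := Iff.rfl

/-- the diagonal which removes the constants and the functions outside of `S` -/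
noncomputable def dg (S : Finset ι) (j₀ : ι) (i : ι) : ZMod 3 := if i ∉ S ∨ i = j₀ then 1 else 0

theorem finrank_KS {c : ι → ι → ZMod 3} (hc : ∀ i j, c i j = c j i) {S : Finset ι}
    (hS : ∀ i j, i ∉ S → c i j = 0) {j₀ : ι} (hj : j₀ ∈ S) :
    finrank (ZMod 3) (KS c S) = finrank (ZMod 3) (LinearMap.ker (Lp c (dg S j₀))) + 1 := by
  set g : KS c S →ₗ[ZMod 3] (ZMod 3) := (LinearMap.proj j₀ : (ι → ZMod 3) →ₗ[ZMod 3] (ZMod 3)).comp (KS c S).subtype with hg
  have h1 := LinearMap.finrank_range_add_finrank_ker g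
  have hone : (fun i => if i ∈ S then (1 : (ZMod 3)) else 0) ∈ KS c S := by
    refine ⟨fun i hi => if_neg hi, fun i => sum_eq_zero fun j _ => ?_⟩
    by_cases hi : i ∈ S
    · by_cases hj' : j ∈ S
      · show c i j * ((if j ∈ S then (1 : (ZMod 3)) else 0) - (if i ∈ S then (1 : (ZMod 3)) else 0)) = 0
        rw [if_pos hi, if_pos hj', sub_self, mul_zero]
      · rw [hc, hS j i hj', zero_mul]
    · rw [hS i j hi, zero_mul]
  have h2 : finrank (ZMod 3) (LinearMap.range g) = 1 := by
    have h3 : LinearMap.range g = ⊤ := by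
      rw [LinearMap.range_eq_top]
      intro a
      refine ⟨a • ⟨_, hone⟩, ?_⟩
      rw [map_smul, hg, LinearMap.comp_apply]
      show a • (if j₀ ∈ S then (1 : (ZMod 3)) else 0) = a
      rw [if_pos hj, smul_eq_mul, mul_one]
    rw [h3, finrank_top, finrank_self]
  have h3 : finrank (ZMod 3) (LinearMap.ker g) = finrank (ZMod 3) (LinearMap.ker (Lp c (dg S j₀))) := by
    have h4 : (LinearMap.ker g).map (KS c S).subtype = LinearMap.ker (Lp c (dg S j₀)) := by
      ext x
      rw [Submodule.mem_map, mem_kerLp]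
      constructor
      · rintro ⟨⟨x, hx⟩, h0, rfl⟩
        intro i
        have h5 : x j₀ = 0 := h0
        show ∑ j, c i j * (x j - x i) + dg S j₀ i * x i = 0
        rw [hx.2 i, zero_add]
        unfold dg
        split_ifs with h6
        · rcases h6 with h6 | h6
          · rw [hx.1 i h6, mul_zero]
          · rw [h6, h5, mul_zero]
        · rw [zero_mul]
      · intro h
        have h5 : ∀ i, i ∉ S → x i = 0 := by
          intro i hi
          have h6 := h i
          rw [sum_eq_zero fun j _ => by rw [hS i j hi, zero_mul], zero_add] at h6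
          unfold dg at h6
          rw [if_pos (Or.inl hi), one_mul] at h6
          exact h6
        have h6 : x j₀ = 0 := by
          have h7 : Lp c (dg S j₀) x (fun i => if i ∈ S then (1 : (ZMod 3)) else 0) = 0 := by
            rw [LinearMap.mem_ker.1 (mem_kerLp.2 h), LinearMap.zero_apply]
          rw [Lp_symm hc, Lp_apply] at h7
          have h8 : ∀ i, (∑ j, c i j * ((if j ∈ S then (1 : (ZMod 3)) else 0) - (if i ∈ S then (1 : (ZMod 3)) else 0)) +
              dg S j₀ i * (if i ∈ S then (1 : (ZMod 3)) else 0)) * x i = if i = j₀ then x i else 0 := by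
            intro i
            rw [hone.2 i, zero_add]
            unfold dg
            by_cases h9 : i ∈ S
            · by_cases h10 : i = j₀
              · rw [if_pos (Or.inr h10), if_pos h9, if_pos h10, one_mul, one_mul]
              · rw [if_neg (by tauto), if_neg h10, zero_mul, zero_mul]
            · rw [h5 i h9, mul_zero]
              split_ifs <;> rfl
          rw [sum_congr rfl fun i _ => h8 i, sum_ite_eq' univ j₀ x, if_pos (mem_univ _)] at h7
          exact h7
        refine ⟨⟨x, h5, fun i => ?_⟩, h6, rfl⟩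
        have h7 := h i
        by_cases h9 : i ∈ S
        · by_cases h10 : i = j₀
          · rw [h10, h6, mul_zero, add_zero] at h7
            rw [h10, h6]
            exact h7
          · unfold dg at h7
            rw [if_neg (by tauto), zero_mul, add_zero] at h7
            exact h7
        · exact sum_eq_zero fun j _ => by rw [hS i j h9, zero_mul]
    rw [← h4]
    exact (Submodule.equivMapOfInjective (KS c S).subtype (KS c S).injective_subtype _).finrank_eq
  omega

end lap

section blk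
variable {U J : Type} [Fintype U] [Fintype J]

/-- the weights of the block system -/
def cc (e : U → ZMod 3) (A : U → U → ZMod 3) (B : U → J → ZMod 3) (R : J → J → ZMod 3) : U ⊕ J → U ⊕ J → ZMod 3
  | Sum.inl u, Sum.inl v => e u * e v * A u v
  | Sum.inl u, Sum.inr l => e u * B u l
  | Sum.inr k, Sum.inl v => e v * B v k
  | Sum.inr k, Sum.inr l => R k l

/-- the support -/
noncomputable def Sk (J : Type) [Fintype J] (e : U → ZMod 3) : Finset (U ⊕ J) :=
  univ.filter fun i => ∀ u, i = Sum.inl u → e u ≠ 0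

theorem mem_Sk_inl {e : U → ZMod 3} {u : U} : (Sum.inl u : U ⊕ J) ∈ Sk J e ↔ e u ≠ 0 := by
  unfold Sk
  rw [mem_filter]
  constructor
  · exact fun h => h.2 u rfl
  · intro h
    refine ⟨mem_univ _, fun v hv => ?_⟩
    rw [← Sum.inl_injective hv]
    exact h

theorem mem_Sk_inr {e : U → ZMod 3} {j : J} : (Sum.inr j : U ⊕ J) ∈ Sk J e := by
  unfold Sk
  rw [mem_filter]
  exact ⟨mem_univ _, fun v hv => absurd hv (by simp)⟩

theorem cc_symm {e : U → ZMod 3} {A : U → U → ZMod 3} {B : U → J → ZMod 3} {R : J → J → ZMod 3}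
    (hA : ∀ u v, A u v = A v u) (hR : ∀ k l, R k l = R l k) (i j : U ⊕ J) :
    cc e A B R i j = cc e A B R j i := by
  rcases i with i | i <;> rcases j with j | j <;> simp only [cc]
  · rw [hA]; ring
  · rw [hR]

theorem cc_zero {e : U → ZMod 3} {A : U → U → ZMod 3} {B : U → J → ZMod 3} {R : J → J → ZMod 3} (i j : U ⊕ J)
    (h : i ∉ Sk J e) : cc e A B R i j = 0 := by
  rcases i with i | i
  · rw [mem_Sk_inl, not_not] at h
    rcases j with j | j <;> simp only [cc, h, zero_mul]
  · exact absurd mem_Sk_inr h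

theorem cc_add (e : U → ZMod 3) (A : U → U → ZMod 3) (B : U → J → ZMod 3) (R : J → J → ZMod 3) :
    cc e A B 0 + cc 0 0 0 R = cc e A B R := by
  funext i j
  rcases i with i | i <;> rcases j with j | j <;> simp [cc]

/-- functions that are constant on `J` -/
def W0 (U J : Type) : Submodule (ZMod 3) (U ⊕ J → ZMod 3) where
  carrier := {x | ∀ i l : J, x (Sum.inr i) = x (Sum.inr l)}
  add_mem' := fun {x y} hx hy i l => by
    rw [Pi.add_apply, Pi.add_apply, hx i l, hy i l]
  zero_mem' := fun _ _ => rfl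
  smul_mem' := fun c x hx i l => by
    rw [Pi.smul_apply, Pi.smul_apply, hx i l]

theorem mem_W0 {x : U ⊕ J → ZMod 3} : x ∈ W0 U J ↔ ∀ i l : J, x (Sum.inr i) = x (Sum.inr l) := Iff.rfl

theorem finrank_W0 (j₀ : J) : finrank (ZMod 3) (W0 U J) ≤ Fintype.card U + 1 := by
  let g : W0 U J →ₗ[ZMod 3] (U → ZMod 3) × (ZMod 3) :=
    { toFun := fun x => (fun u => (x : U ⊕ J → ZMod 3) (Sum.inl u), (x : U ⊕ J → ZMod 3) (Sum.inr j₀))
      map_add' := fun x y => rfl
      map_smul' := fun a x => rfl }
  have hg : Function.Injective g := by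
    intro x y h
    apply Subtype.ext
    funext i
    rcases i with i | i
    · exact congrFun (congrArg Prod.fst h) i
    · rw [x.2 i j₀, y.2 i j₀]
      exact congrArg Prod.snd h
  have h1 := LinearMap.finrank_le_finrank_of_injective hg
  rwa [finrank_prod, finrank_fintype_fun_eq_card, finrank_self] at h1

end blk

section fill
variable {U J : Type} [Fintype U] [Fintype J] [LinearOrder J]

theorem mem_prs {i l : J} : (i, l) ∈ prs J ↔ i < l := by
  unfold prs
  rw [mem_filter]
  exact ⟨fun h => h.2, fun h => ⟨mem_univ _, h⟩⟩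

theorem ext_symm (a : prs J → ZMod 3) (i l : J) : Pool.Agent.Y703.XK.ext a i l = Pool.Agent.Y703.XK.ext a l i := by
  unfold Pool.Agent.Y703.XK.ext
  rcases lt_trichotomy i l with h | h | h
  · rw [dif_pos (mem_prs.2 h), dif_neg (fun h' => absurd (mem_prs.1 h') (not_lt.2 h.le)),
      dif_pos (mem_prs.2 h)]
  · rw [h]
  · rw [dif_neg (fun h' => absurd (mem_prs.1 h') (not_lt.2 h.le)), dif_pos (mem_prs.2 h),
      dif_pos (mem_prs.2 h)]

/-- the random part -/
noncomputable def YA (U : Type) [Fintype U] (a : prs J → ZMod 3) : LinearMap.BilinForm (ZMod 3) (U ⊕ J → ZMod 3) :=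
  Lp (cc (0 : U → ZMod 3) 0 0 (Pool.Agent.Y703.XK.ext a)) 0

theorem YA_symm (a : prs J → ZMod 3) : Sy (YA U a) := Lp_symm (cc_symm (fun _ _ => rfl) (ext_symm a)) 0

theorem YA_mem (a : prs J → ZMod 3) : YA U a ∈ YY (W0 U J) := by
  refine mem_YY.2 ⟨YA_symm a, fun w hw => ?_⟩
  refine LinearMap.mem_ker.1 (mem_kerLp.2 fun i => ?_)
  rw [Pi.zero_apply, zero_mul, add_zero]
  refine sum_eq_zero fun j _ => ?_
  rcases i with i | i <;> rcases j with j | j <;> simp only [cc, Pi.zero_apply, zero_mul]
  rw [hw j i, sub_self, mul_zero]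

theorem YA_apply (a : prs J → ZMod 3) {i l : J} (h : i ≠ l) :
    YA U a (Pi.single (Sum.inr i) 1) (Pi.single (Sum.inr l) 1) = Pool.Agent.Y703.XK.ext a i l := by
  unfold YA
  rw [Lp_apply, sum_eq_single (Sum.inr l)]
  · rw [Pi.single_eq_same, mul_one, Pi.zero_apply, zero_mul, add_zero, sum_eq_single (Sum.inr i)]
    · rw [Pi.single_eq_same, Pi.single_eq_of_ne (fun h' => h (Sum.inr_injective h').symm), sub_zero,
        mul_one]
      exact ext_symm a l i
    · intro u _ hu
      rw [Pi.single_eq_of_ne hu, Pi.single_eq_of_ne (fun h' => h (Sum.inr_injective h').symm),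
        sub_zero, mul_zero]
    · intro h'
      exact absurd (mem_univ _) h'
  · intro u _ hu
    rw [Pi.single_eq_of_ne (M := fun _ => (ZMod 3)) hu, mul_zero]
  · intro h'
    exact absurd (mem_univ _) h'

theorem YA_inj : Function.Injective (fun a : prs J → ZMod 3 => YA U a) := by
  intro a b hab
  funext e
  have hne : e.1.1 ≠ e.1.2 := (mem_prs.1 e.2).ne
  have h1 : YA U a (Pi.single (Sum.inr e.1.1) 1) (Pi.single (Sum.inr e.1.2) 1) =
      YA U b (Pi.single (Sum.inr e.1.1) 1) (Pi.single (Sum.inr e.1.2) 1) := by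
    have hab' : YA U a = YA U b := hab
    rw [hab']
  rw [YA_apply a hne, YA_apply b hne] at h1
  have h2 : (e.1.1, e.1.2) ∈ prs J := e.2
  unfold Pool.Agent.Y703.XK.ext at h1
  rw [dif_pos h2, dif_pos h2] at h1
  exact h1

theorem YA_surj {Y : LinearMap.BilinForm (ZMod 3) (U ⊕ J → ZMod 3)} (hY : Y ∈ YY (W0 U J)) :
    ∃ a : prs J → ZMod 3, YA U a = Y := by
  obtain ⟨hs, h0⟩ := mem_YY.1 hY
  refine ⟨fun e => Y (Pi.single (Sum.inr e.1.1) 1) (Pi.single (Sum.inr e.1.2) 1), ?_⟩
  set a : prs J → ZMod 3 := fun e => Y (Pi.single (Sum.inr e.1.1) 1) (Pi.single (Sum.inr e.1.2) 1)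
    with ha
  obtain ⟨hs', h0'⟩ := mem_YY.1 (YA_mem (U := U) a)
  have hl : ∀ v : U, (Pi.single (Sum.inl v) 1 : U ⊕ J → ZMod 3) ∈ W0 U J := by
    intro v i l
    rw [Pi.single_eq_of_ne (by simp), Pi.single_eq_of_ne (by simp)]
  have hne : ∀ i l : J, i ≠ l → YA U a (Pi.single (Sum.inr i) 1) (Pi.single (Sum.inr l) 1) =
      Y (Pi.single (Sum.inr i) 1) (Pi.single (Sum.inr l) 1) := by
    intro i l h
    rw [YA_apply a h]
    unfold Pool.Agent.Y703.XK.ext
    rcases lt_or_gt_of_ne h with h1 | h1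
    · rw [dif_pos (mem_prs.2 h1)]
    · rw [dif_neg (fun h2 => absurd (mem_prs.1 h2) (not_lt.2 h1.le)), dif_pos (mem_prs.2 h1), ha]
      exact hs _ _
  refine LinearMap.ext_basis (Pi.basisFun (ZMod 3) (U ⊕ J)) (Pi.basisFun (ZMod 3) (U ⊕ J))
    fun w u => ?_
  rw [Pi.basisFun_apply, Pi.basisFun_apply]
  rcases w with w | i
  · rw [h0' _ (hl w), h0 _ (hl w)]
  · rcases u with u | l
    · rw [hs', hs, h0' _ (hl u), h0 _ (hl u)]
    · by_cases h : i = l
      · subst h
        have h1 : (Pi.single (Sum.inr i) 1 : U ⊕ J → ZMod 3) + ∑ j ∈ univ.erase i,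
            (Pi.single (Sum.inr j) 1 : U ⊕ J → ZMod 3) ∈ W0 U J := by
          rw [Finset.add_sum_erase _ (fun j => (Pi.single (Sum.inr j) 1 : U ⊕ J → ZMod 3))
            (Finset.mem_univ i)]
          have h2 : ∀ j : J, (∑ k : J, (Pi.single (Sum.inr k) 1 : U ⊕ J → ZMod 3)) (Sum.inr j) = 1 := by
            intro j
            rw [Finset.sum_apply, Finset.sum_eq_single j]
            · rw [Pi.single_eq_same]
            · intro k _ hk
              rw [Pi.single_eq_of_ne (fun h' => hk (Sum.inr_injective h').symm)]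
            · intro h'
              exact absurd (Finset.mem_univ _) h'
          intro j k
          rw [h2, h2]
        have key : ∀ Z : LinearMap.BilinForm (ZMod 3) (U ⊕ J → ZMod 3), Sy Z →
            (∀ w ∈ W0 U J, Z w = 0) → Z (Pi.single (Sum.inr i) 1) (Pi.single (Sum.inr i) 1) =
            -∑ j ∈ univ.erase i, Z (Pi.single (Sum.inr i) 1) (Pi.single (Sum.inr j) 1) := by
          intro Z hZ1 hZ2
          have h3 : Z (Pi.single (Sum.inr i) 1) ((Pi.single (Sum.inr i) 1 : U ⊕ J → ZMod 3) +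
              ∑ j ∈ univ.erase i, (Pi.single (Sum.inr j) 1 : U ⊕ J → ZMod 3)) = 0 := by
            rw [hZ1, hZ2 _ h1, LinearMap.zero_apply]
          rw [map_add, map_sum] at h3
          exact eq_neg_of_add_eq_zero_left h3
        rw [key _ hs' h0', key _ hs h0]
        congr 1
        refine Finset.sum_congr rfl fun j hj => ?_
        exact hne i j (Finset.ne_of_mem_erase hj).symm
      · exact hne i l h

/-- the correspondence of the events -/
theorem card_fill (P : LinearMap.BilinForm (ZMod 3) (U ⊕ J → ZMod 3) → Prop) :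
    (univ.filter fun a : prs J → ZMod 3 => P (YA U a)).card = ((YY (W0 U J)).filter P).card := by
  refine Finset.card_bij (fun a _ => YA U a) (fun a ha => ?_)
      (fun a _ b _ h => YA_inj h) (fun Y hY => ?_)
  · rw [Finset.mem_filter] at ha ⊢
    exact ⟨YA_mem a, ha.2⟩
  · rw [Finset.mem_filter] at hY
    obtain ⟨a, ha⟩ := YA_surj hY.1
    refine ⟨a, Finset.mem_filter.2 ⟨Finset.mem_univ a, ?_⟩, ha⟩
    rw [ha]
    exact hY.2

theorem card_YYW : (YY (W0 U J)).card = 3 ^ (prs J).card := by
  have h := card_fill (U := U) (J := J) fun _ => True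
  rw [Finset.filter_true, Finset.filter_true] at h
  rw [← h, Finset.card_univ, Fintype.card_fun, ZMod.card, Fintype.card_coe]

end fill

end Q283.T3
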