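import Pool.Agent.Q283.T3.AsyV
import Pool.Agent.Q283.T3.Cst
import Pool.Agent.Q283.T3.Trn2
import Pool.Agent.Y703.XL.Fin
import Pool.Agent.Y363.XK.Bil
import Pool.Agent.Y710.XK.EQ
import Pool.Agent.Y474.XK.CNT

/-! The joint law over `K` -/

set_option autoImplicit false
set_option linter.unusedSectionVars false

open scoped Classical

namespace Q283.T3B

open Finset Module NumberField Filter
open Pool.Agent.Y692.QS (Ei nr w)
open Pool.Agent.Y715.T.RecG (Pq)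
open Pool.Agent.Y699.E (prm prm_one prm_mul prm_pow prm_prod pq_prm PD mem_PD PS eq_of_dvd nrm
  prm_ne_zero pq_ne exists_PP not_dvd_three)
open Pool.Agent.Y703.CT (ClsE)
open Pool.Agent.Y703.XK (SS c9)
open Pool.Agent.XL6 (SelK)
open Pool.Agent.Y696.CTK (ED Tri Parts parts ClsK)
open Pool.Agent.Y696.XK (cls_iff img_ncard)
open Pool.Agent.Y703.XL (cr)
open Q283.T3 (ex KT GG gi cf c_eq)
open Q283.T3A (AV t_ASYV)

/-- masks with the same exponents differ by a cube -/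
theorem mu_cube {m m' : Ei} (hm : prm m) (hm' : prm m') (h : mu m = mu m') :
    ∃ x, x ^ 3 = m * m' ^ 2 := by
  set T := PD m ∪ PD m' with hT
  have e1 := fx_prod hm (subset_union_left (s₁ := PD m) (s₂ := PD m'))
  have e2 := fx_prod hm' (subset_union_right (s₁ := PD m) (s₂ := PD m'))
  rw [← hT] at e1 e2
  refine ⟨∏ π ∈ T, π ^ ((fx m π + 2 * fx m' π) / 3), ?_⟩
  conv_rhs => rw [e1, e2]
  rw [← prod_pow, ← prod_pow, ← prod_mul_distrib]
  refine prod_congr rfl fun π _ => ?_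
  rw [← pow_mul, ← pow_mul, ← pow_add]
  congr 1
  have h1 : ((fx m π : ℕ) : ZMod 3) = ((fx m' π : ℕ) : ZMod 3) := congrFun h π
  have h2 := (ZMod.natCast_eq_natCast_iff _ _ _).1 h1
  have h3 : fx m π % 3 = fx m' π % 3 := h2
  omega

variable {K : Type} [Field K] [NumberField K]

/-- no prime divides both elements -/
def NC (D B : 𝓞 K) : Prop := ∀ π : 𝓞 K, Prime π → π ∣ D → ¬ π ∣ B

theorem nc_iff (j : Ei ≃+* 𝓞 K) {z b : Ei} (hz : prm z) (hb : b ≠ 0) :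
    NC (j z) (j b) ↔ AV (PD b) (PD z) := by
  have hz0 := prm_ne_zero hz
  unfold NC AV
  rw [Finset.disjoint_left]
  constructor
  · intro h ρ h1 h2
    rw [mem_PD hz0] at h1
    rw [mem_PD hb] at h2
    exact h (j ρ) ((MulEquiv.prime_iff (j : Ei ≃* 𝓞 K)).2 h1.1.prime) (map_dvd j h1.2) (map_dvd j h2.2)
  · intro h π hπ h1 h2
    obtain ⟨ρ, rfl⟩ := j.surjective π
    have hρ : Prime ρ := (MulEquiv.prime_iff (j : Ei ≃* 𝓞 K)).1 hπ
    have h1' : ρ ∣ z := (map_dvd_iff j).1 h1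
    have h2' : ρ ∣ b := (map_dvd_iff j).1 h2
    obtain ⟨π', hp, ha⟩ := exists_PP hρ (not_dvd_three hρ h1' hz)
    exact h ((mem_PD hz0).2 ⟨hp, ha.dvd.trans h1'⟩) ((mem_PD hb).2 ⟨hp, ha.dvd.trans h2'⟩)

/-- the masks -/
structure Msk {M : ℕ} (m : Fin M → 𝓞 K) : Prop where
  three : ∀ k, (3 : 𝓞 K) ∣ m k - 1
  nine : ∀ k, (9 : ℤ) ∣ Algebra.norm ℤ (m k) - 1
  ne : ∀ k l, k ≠ l → ¬ ∃ x, x ^ 3 = m k * m l ^ 2

/-- one curve -/
theorem one_D [IsCyclotomicExtension {3} ℚ K] {D m : 𝓞 K} (hD : ClsK D)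
    (h3 : (3 : 𝓞 K) ∣ m - 1) (h9 : (9 : ℤ) ∣ Algebra.norm ℤ m - 1) :
    ∃ r : ℕ, (SelK ((D * m : 𝓞 K) : K)).ncard = 3 ^ (r + 1) ∧
      finrank ℤ (ED ((D * m : 𝓞 K) : K)).toAffine.Point ≤ 2 * r ∧ (r = 0 ↔ Tri (D * m)) := by
  obtain ⟨⟨j, hj⟩, -⟩ := Pool.Agent.Y455.CTK.jex K
  obtain ⟨z, rfl⟩ := j.surjective D
  obtain ⟨μ, rfl⟩ := j.surjective m
  have hz : ClsE z := (cls_iff j hj z).1 hD
  have hμ : prm μ := by
    have h1 : j μ - 1 = j (μ - 1) := by rw [map_sub, map_one]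
    rw [h1, ← map_ofNat j 3, map_dvd_iff j] at h3
    exact h3
  rw [hj] at h9
  obtain ⟨a1, a2, a3, a4⟩ := main_D parts j (K := K) hz hμ h9 (Finset.Subset.refl (PD μ))
    fun π hπ => ((mem_PD (prm_ne_zero hμ)).1 hπ).1
  obtain ⟨r, hr⟩ := Nat.exists_eq_add_of_le' a2
  rw [← map_mul]
  refine ⟨r, by rw [a1, hr], a3 r hr.le, ?_⟩
  rw [← a4, hr]
  omega

theorem law (K : Type) [Field K] [NumberField K] [IsCyclotomicExtension {3} ℚ K] {M : ℕ}
    (m : Fin M → 𝓞 K) (hm : Msk m) (B : 𝓞 K) (hB : B ≠ 0) (r : Fin M → ℕ) :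
    Tendsto (fun X : ℕ =>
      ({D : 𝓞 K | Algebra.norm ℤ D ≤ X ∧ ClsK D ∧ NC D B ∧
        ∀ k, (SelK ((D * m k : 𝓞 K) : K)).ncard = 3 ^ (r k + 1)}.ncard : ℝ) /
        ({D : 𝓞 K | Algebra.norm ℤ D ≤ X ∧ ClsK D ∧ NC D B}.ncard : ℝ)) atTop
      (nhds (∏ k, cr (r k))) := by
  obtain ⟨⟨j, hj⟩, -⟩ := Pool.Agent.Y455.CTK.jex K
  obtain ⟨b, rfl⟩ := j.surjective B
  have hb : b ≠ 0 := fun h => hB (by rw [h, map_zero])
  choose μ hμ using fun k => j.surjective (m k)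
  have hprm : ∀ k, prm (μ k) := by
    intro k
    have h3 := hm.three k
    rw [← hμ k] at h3
    have h1 : j (μ k) - 1 = j (μ k - 1) := by rw [map_sub, map_one]
    rw [h1, ← map_ofNat j 3, map_dvd_iff j] at h3
    exact h3
  have h9 : ∀ k, (9 : ℤ) ∣ nr (μ k) - 1 := by
    intro k
    have := hm.nine k
    rwa [← hμ k, hj] at this
  set W : Finset Ei := PD b ∪ univ.biUnion fun k => PD (μ k) with hW
  have hsub : ∀ k, PD (μ k) ⊆ W := fun k π hπ =>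
    mem_union_right _ (mem_biUnion.2 ⟨k, mem_univ _, hπ⟩)
  have hWq : ∀ u ∈ W, Pq u := by
    intro u hu
    rcases mem_union.1 hu with h | h
    · exact ((mem_PD hb).1 h).1
    · obtain ⟨k, -, hk⟩ := mem_biUnion.1 h
      exact ((mem_PD (prm_ne_zero (hprm k))).1 hk).1
  have hml : ∀ k l, k ≠ l → mu (μ k) ≠ mu (μ l) := by
    intro k l hkl h
    obtain ⟨x, hx⟩ := mu_cube (hprm k) (hprm l) h
    refine hm.ne k l hkl ⟨j x, ?_⟩
    rw [← hμ k, ← hμ l, ← map_pow, ← map_pow, ← map_mul, hx]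
  have hasy := t_ASYV Pool.Agent.Y363.XK.t_BIL Pool.Agent.Y710.XK.t_EQ Pool.Agent.Y474.XK.t_CNT r
    (PD b) W subset_union_left (fun k => mu (μ k)) hWq
    (fun k u hu => mu_zero fun h => hu (hsub k h)) hml
  have hc : ∏ k, gi * cf (r k) = ∏ k, cr (r k) :=
    prod_congr rfl fun k _ => c_eq Pool.Agent.Y703.XL.t_LIM (r k)
  rw [hc] at hasy
  have e1 : ∀ X : ℕ, {D : 𝓞 K | Algebra.norm ℤ D ≤ X ∧ ClsK D ∧ NC D (j b) ∧
        ∀ k, (SelK ((D * m k : 𝓞 K) : K)).ncard = 3 ^ (r k + 1)}.ncard =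
      ((SS X).filter fun S => AV (PD b) S ∧ GG W (fun k => mu (μ k)) r S).card := by
    intro X
    refine Eq.trans ?_ ((Pool.Agent.Y550.XK.NS.card_eq X
      (fun S => AV (PD b) S ∧ GG W (fun k => mu (μ k)) r S)).trans (Q283.T3.fcc2 _ _))
    refine img_ncard j hj X (fun D => ClsE D ∧ AV (PD b) (PD D) ∧
      GG W (fun k => mu (μ k)) r (PD D)) _ fun D => ?_
    rw [cls_iff j hj D]
    refine and_congr_right fun hD => ?_
    rw [nc_iff j hD.1 hb]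
    refine and_congr_right fun _ => ?_
    unfold GG
    refine forall_congr' fun k => ?_
    obtain ⟨a1, -, -, -⟩ := main_D parts j (K := K) hD (hprm k) (h9 k) (hsub k) hWq
    rw [← hμ k, ← map_mul, a1]
    constructor
    · intro h; rw [h]
    · exact fun h => Nat.pow_right_injective (by norm_num : 2 ≤ 3) h
  have e2 : ∀ X : ℕ, {D : 𝓞 K | Algebra.norm ℤ D ≤ X ∧ ClsK D ∧ NC D (j b)}.ncard =
      ((SS X).filter (AV (PD b))).card := by
    intro X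
    refine Eq.trans ?_ ((Pool.Agent.Y550.XK.NS.card_eq X (AV (PD b))).trans (Q283.T3.fcc2 _ _))
    refine img_ncard j hj X (fun D => ClsE D ∧ AV (PD b) (PD D)) _ fun D => ?_
    rw [cls_iff j hj D]
    refine and_congr_right fun hD => ?_
    rw [nc_iff j hD.1 hb]
  simp only [e1, e2]
  exact hasy

end Q283.T3B
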