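import Pool.Agent.Q283.T3.Sq
import Pool.Agent.Q283.T3.Lke
import Pool.Agent.Y696.CTK.Asm

/-! The `L`-functions of the twists by the products of two squarefree elements -/

set_option autoImplicit false
set_option linter.unusedSectionVars false

open scoped Classical

namespace Q283.T3B

open Finset Module NumberField Filter
open Pool.Agent.Y692.QS (Ei nr w)
open Pool.Agent.Y715.T.RecG (Pq)
open Pool.Agent.Y699.E (prm prm_one prm_mul prm_pow prm_prod pq_prm PD mem_PD PS eq_of_dvd nrm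
  prm_ne_zero pq_ne exists_PP not_dvd_three PS_prod)
open Pool.Agent.Y703.CT (ClsE Dt pD Ker IsHL)
open Pool.Agent.Y703.XK (SS c9)
open Pool.Agent.XL6 (SelK KerV)
open Pool.Agent.Y696.CTK (ED Tri Parts parts ClsK Law3 CritK val_sq diff_conj)
open Pool.Agent.Y696.XK (cls_iff img_ncard)
open Pool.Agent.Y703.XL (cr)
open Pool.Agent.Y715.T.Three (lam_ne)
open Q283.T3A (AV t_ASYV)
open Q283.T3 (ex KT mem_KT)

theorem fx_le {m : Ei} (hm : PS m) (π : Ei) : fx m π ≤ 1 := by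
  by_cases hπ : π ∈ PD m
  · by_contra h
    have h1 := fx_prod hm.prm (Finset.Subset.refl (PD m))
    have h2 : π ^ fx m π ∣ m := by
      conv_rhs => rw [h1]
      exact dvd_prod_of_mem (fun π => π ^ fx m π) hπ
    have h3 : π * π ∣ m := by
      rw [← pow_two]
      exact (pow_dvd_pow π (by omega : 2 ≤ fx m π)).trans h2
    exact ((mem_PD hm.ne).1 hπ).1.prime.not_isUnit (hm.sqf π h3)
  · rw [fx_zero hπ]
    exact Nat.zero_le _

theorem dec1 {D m : Ei} (hD : PS D) (hm : PS m) :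
    D * m = ∏ π ∈ PD D ∪ PD m, π ^ (ex (mu m) (PD D) π).val := by
  set T := PD D ∪ PD m with hT
  set g : Ei → ℕ := fun π => (if π ∈ PD D then 1 else 0) + fx m π with hg
  have e1 : D = ∏ π ∈ T, π ^ (if π ∈ PD D then 1 else 0) := by
    conv_lhs => rw [← hD.prod]
    have : ∀ π ∈ PD D, (π : Ei) = π ^ (if π ∈ PD D then 1 else 0) := fun π hπ => by
      rw [if_pos hπ, pow_one]
    rw [prod_congr rfl this]
    refine prod_subset subset_union_left fun π _ hπ => ?_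
    rw [if_neg hπ, pow_zero]
  have e2 := fx_prod hm.prm (subset_union_right (s₁ := PD D) (s₂ := PD m))
  rw [← hT] at e2
  conv_lhs => rw [e1, e2]
  rw [← prod_mul_distrib]
  refine prod_congr rfl fun π _ => ?_
  rw [← pow_add]
  congr 1
  have e3 : ex (mu m) (PD D) π = ((g π : ℕ) : ZMod 3) := by
    unfold ex mu
    rw [hg]
    push_cast
    rfl
  rw [e3, ZMod.val_natCast, Nat.mod_eq_of_lt]
  have h1 := fx_le hm π
  show (if π ∈ PD D then 1 else 0) + fx m π < 3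
  split_ifs <;> omega

variable {K : Type} [Field K] [NumberField K]

/-- the `L`-function is entire, and its value at `1` is not zero -/
def AN (D : 𝓞 K) : Prop := ∃ Lf : ℂ → ℂ, Differentiable ℂ Lf ∧
  (∀ s : ℂ, 3 / 2 < s.re →
    LSeriesSummable ((fun n : ℤ => (n : ℂ)) ∘ (ED (D : K)).LFunction) s ∧
      Lf s = (ED (D : K)).LSeries s) ∧ Lf 1 ≠ 0

/-- the `L`-function for exponents `1` and `2` -/
theorem an_of (j : Ei ≃+* 𝓞 K) {J : Type} [Fintype J] [Nonempty J] {π : J → Ei} {e : J → ZMod 3}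
    (hD : Dt π e) (h9 : ¬ (9 : ℤ) ∣ nr (pD π e) - 1) (hk : Ker π e) : AN (j (pD π e)) := by
  obtain ⟨F, hF, hval⟩ := val_sq hD h9
  refine ⟨fun s => F s * (starRingEnd ℂ) (F ((starRingEnd ℂ) s)), diff_conj hF.1,
    fun s hs => Q283.T3L.lke j hD hF hs, ?_⟩
  obtain ⟨V, hV⟩ := Pool.Agent.Y715.T.Fin.exists_over_three
  obtain ⟨Ω, hΩ, hC⟩ := Pool.Agent.Y696.exists_cur
  obtain ⟨g, -, hg2, -, hg⟩ := hval V.ValueGroup V.valuation hV _ Ω hC
  rw [hg2 hk, mul_one] at hg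
  have hl : V.valuation Pool.Agent.Y715.T.Three.lam ≠ 0 := lam_ne
  intro h0
  have h0' : F 1 * (starRingEnd ℂ) (F 1) = 0 := by
    have : F 1 * (starRingEnd ℂ) (F ((starRingEnd ℂ) 1)) = 0 := h0
    rwa [map_one] at this
  rw [h0', zero_div, map_zero, zero_mul] at hg
  exact pow_ne_zero _ (mul_ne_zero hl hl) hg.symm

/-- trivial twists have non-zero central values -/
theorem tri_AN [IsCyclotomicExtension {3} ℚ K] {D m : 𝓞 K} (hD : ClsK D)
    (h3 : (3 : 𝓞 K) ∣ m - 1) (h9 : (9 : ℤ) ∣ Algebra.norm ℤ m - 1) (hs : Squarefree m)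
    (ht : Tri (D * m)) : AN (D * m) := by
  obtain ⟨⟨j, hj⟩, -⟩ := Pool.Agent.Y455.CTK.jex K
  obtain ⟨z, rfl⟩ := j.surjective D
  obtain ⟨μ, rfl⟩ := j.surjective m
  have hz : ClsE z := (cls_iff j hj z).1 hD
  have hzP : PS z := ⟨hz.1, hz.2.1⟩
  have hμ : PS μ := ps_of j h3 hs
  rw [hj] at h9
  have hμq : ∀ π ∈ PD μ, Pq π := fun π hπ => ((mem_PD hμ.ne).1 hπ).1
  obtain ⟨-, -, -, a4⟩ := main_D parts j (K := K) hz hμ.prm h9 (Finset.Subset.refl (PD μ)) hμq
  rw [← map_mul] at ht ⊢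
  have hf := a4.2 ht
  have hTq : ∀ π ∈ PD z ∪ PD μ, Pq π := fun π hπ =>
    (mem_union.1 hπ).elim (fun h => ((mem_PD hzP.ne).1 h).1) (hμq π)
  have hdt := dt_of (e := ex (mu μ) (PD z)) hTq
  have e1 : z * μ = pD (fun t : JT (PD z ∪ PD μ) (ex (mu μ) (PD z)) => (t.1.1 : Ei))
      (fun t => ex (mu μ) (PD z) t.1) := by
    rw [pD_eq]
    exact dec1 hzP hμ
  have hE9 : ¬ (9 : ℤ) ∣ nr (z * μ) - 1 := by
    have e3 : nr (z * μ) = nr z * nr μ := Pool.Agent.Y692.QS.nr_mul z μ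
    obtain ⟨b, hb⟩ := h9
    have hb1 : nr μ = 1 + 9 * b := by linarith
    rw [e3, hb1]
    intro ⟨s, hs⟩
    apply hz.2.2
    exact ⟨s - nr z * b, by linarith⟩
  have hE9' := hE9
  rw [e1] at hE9'
  have hJ : Nonempty (JT (PD z ∪ PD μ) (ex (mu μ) (PD z))) := by
    by_contra hn
    rw [not_nonempty_iff] at hn
    apply hE9'
    unfold pD
    rw [Finset.univ_eq_empty, Finset.prod_empty, Pool.Agent.Y692.QS.nr_one, sub_self]
    exact dvd_zero _
  have hk : Ker (fun t : JT (PD z ∪ PD μ) (ex (mu μ) (PD z)) => (t.1.1 : Ei))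
      (fun t => ex (mu μ) (PD z) t.1) := by
    rw [← kerV_three, card_ker, hf, pow_one]
  rw [e1]
  exact an_of j hdt hE9' hk

end Q283.T3B
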