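import Pool.Agent.Q283.T3.Lk1
import Pool.Agent.Q283.T3.Lln

/-! The law of large numbers for the twists `E_{D m_k}` of one curve `E_D` -/

set_option autoImplicit false
set_option linter.unusedSectionVars false

open scoped Classical

namespace Q283.T3B

open Finset Module NumberField Filter
open Pool.Agent.Y692.QS (Ei nr w)
open Pool.Agent.Y703.CT (ClsE)
open Pool.Agent.Y703.XK (SS c9)
open Pool.Agent.XL6 (SelK)
open Pool.Agent.Y696.CTK (ED Tri Parts parts ClsK)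
open Pool.Agent.Y703.XL (cr)

variable {K : Type} [Field K] [NumberField K]

theorem nc_one (D : 𝓞 K) : NC D 1 := fun _ hπ _ h => hπ.not_isUnit (isUnit_of_dvd_one h)

/-- the class up to `X` -/
noncomputable def SK (K : Type) [Field K] [NumberField K] [IsCyclotomicExtension {3} ℚ K] (X : ℕ) :
    Finset (𝓞 K) := (fin_K K 1 one_ne_zero X).toFinset

theorem mem_SK [IsCyclotomicExtension {3} ℚ K] {X : ℕ} {D : 𝓞 K} :
    D ∈ SK K X ↔ Algebra.norm ℤ D ≤ X ∧ ClsK D := by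
  unfold SK
  rw [Set.Finite.mem_toFinset]
  exact ⟨fun h => ⟨h.1, h.2.1⟩, fun h => ⟨h.1, h.2, nc_one D⟩⟩

theorem SK_ne (K : Type) [Field K] [NumberField K] [IsCyclotomicExtension {3} ℚ K] :
    ∀ᶠ X : ℕ in atTop, (SK K X).Nonempty := by
  obtain ⟨c, hc, X₀, hlow⟩ := low_K K 1 one_ne_zero
  filter_upwards [eventually_ge_atTop (X₀ + 1)] with X hX
  have h1 := hlow X (by omega)
  rw [Set.ncard_eq_toFinset_card _ (fin_K K 1 one_ne_zero X)] at h1
  have h2 : (0 : ℝ) < c * X := mul_pos hc (by exact_mod_cast (by omega : 0 < X))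
  have h3 : (0 : ℝ) < ((fin_K K 1 one_ne_zero X).toFinset.card : ℝ) := lt_of_lt_of_le h2 h1
  rw [Nat.cast_pos] at h3
  exact Finset.card_pos.1 h3

/-- the corank is in the set `T` -/
def InT (T : Set ℕ) (D : 𝓞 K) : Prop := ∃ r ∈ T, (SelK (D : K)).ncard = 3 ^ (r + 1)

theorem lawP [IsCyclotomicExtension {3} ℚ K] {M : ℕ} (m : Fin M → 𝓞 K) (hm : Msk m) (T : Set ℕ) :
    Tendsto (fun X : ℕ => (((SK K X).filter fun D => ∀ k, InT T (D * m k)).card : ℝ) /
      ((SK K X).card : ℝ)) atTop (nhds ((∑' r : T, cr r) ^ M)) := by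
  have h := law_T K m hm 1 one_ne_zero {r | ∀ k, r k ∈ T}
  have hs : ∑' r : {r : Fin M → ℕ | ∀ k, r k ∈ T}, ∏ k, cr (r.1 k) = (∑' r : T, cr r) ^ M := by
    have h1 : HasSum (fun r : ℕ => if r ∈ T then cr r else 0) (∑' r : T, cr r) := by
      rw [tsum_subtype T cr]
      have e : T.indicator cr = fun r : ℕ => if r ∈ T then cr r else 0 := by
        funext r
        by_cases hr : r ∈ T
        · rw [Set.indicator_of_mem hr, if_pos hr]
        · rw [Set.indicator_of_notMem hr, if_neg hr]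
      rw [← e]
      exact (sum_cr.summable.indicator T).hasSum
    have h2 := hasSum_pi (M := M) (fun _ r => if r ∈ T then cr r else 0)
      (fun _ => ∑' r : T, cr r) (fun _ r => by
        show 0 ≤ if r ∈ T then cr r else 0
        split_ifs
        · exact cr_nonneg r
        · exact le_rfl) (fun _ => h1)
    rw [prod_const, card_univ, Fintype.card_fin] at h2
    rw [tsum_subtype {r : Fin M → ℕ | ∀ k, r k ∈ T} fun r => ∏ k, cr (r k), ← h2.tsum_eq]
    congr 1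
    funext r
    by_cases hr : ∀ k, r k ∈ T
    · rw [Set.indicator_of_mem (show r ∈ {r : Fin M → ℕ | ∀ k, r k ∈ T} from hr)]
      exact prod_congr rfl fun k _ => (if_pos (hr k)).symm
    · rw [Set.indicator_of_notMem (show r ∉ {r : Fin M → ℕ | ∀ k, r k ∈ T} from hr)]
      obtain ⟨k, hk⟩ := not_forall.1 hr
      exact (prod_eq_zero (mem_univ k) (if_neg hk)).symm
  rw [hs] at h
  refine h.congr fun X => ?_
  congr 2
  · rw [← Set.ncard_coe_finset]
    congr 1
    ext D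
    rw [Set.mem_setOf_eq, Finset.mem_coe, Finset.mem_filter, mem_SK]
    constructor
    · rintro ⟨a1, a2, -, r, a3, a4⟩
      exact ⟨⟨a1, a2⟩, fun k => ⟨r k, a3 k, a4 k⟩⟩
    · rintro ⟨⟨a1, a2⟩, a3⟩
      choose r a4 a5 using a3
      exact ⟨a1, a2, nc_one D, r, a4, a5⟩
  · unfold SK
    rw [Set.ncard_eq_toFinset_card _ (fin_K K 1 one_ne_zero X)]

/-- infinite sequences of masks -/
structure Seq (m : ℕ → 𝓞 K) : Prop where
  inj : Function.Injective m
  three : ∀ k, (3 : 𝓞 K) ∣ m k - 1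
  nine : ∀ k, (9 : ℤ) ∣ Algebra.norm ℤ (m k) - 1
  sqf : ∀ k, Squarefree (m k)

theorem Seq.pair [IsCyclotomicExtension {3} ℚ K] {m : ℕ → 𝓞 K} (h : Seq m) {M : ℕ} (a : Fin M → ℕ)
    (ha : Function.Injective a) : Msk (fun k => m (a k)) := by
  refine ⟨fun k => h.three _, fun k => h.nine _, fun k l hkl ⟨x, hx⟩ => hkl (ha (h.inj ?_))⟩
  obtain ⟨⟨j, hj⟩, -⟩ := Pool.Agent.Y455.CTK.jex K
  obtain ⟨b, hb⟩ := j.surjective (m (a k))
  obtain ⟨c, hc⟩ := j.surjective (m (a l))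
  obtain ⟨y, rfl⟩ := j.surjective x
  have h1 := h.three (a k)
  have h2 := h.sqf (a k)
  have h3 := h.three (a l)
  have h4 := h.sqf (a l)
  rw [← hb] at h1 h2 hx ⊢
  rw [← hc] at h3 h4 hx ⊢
  rw [← map_pow, ← map_pow, ← map_mul] at hx
  rw [sq_cube (ps_of j h1 h2) (ps_of j h3 h4) (j.injective hx)]

theorem one_T [IsCyclotomicExtension {3} ℚ K] {m : ℕ → 𝓞 K} (h : Seq m) (T : Set ℕ) (k : ℕ) :
    Tendsto (fun X : ℕ => (((SK K X).filter fun D => InT T (D * m k)).card : ℝ) /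
      ((SK K X).card : ℝ)) atTop (nhds (∑' r : T, cr r)) := by
  have h1 := lawP (K := K) _ (h.pair (fun _ : Fin 1 => k) fun a b _ => Subsingleton.elim a b) T
  rw [pow_one] at h1
  refine h1.congr fun X => ?_
  congr 2
  exact Pool.Agent.XLK.fcc fun D _ => ⟨fun h => h 0, fun h _ => h⟩

theorem two_T [IsCyclotomicExtension {3} ℚ K] {m : ℕ → 𝓞 K} (h : Seq m) (T : Set ℕ) (k l : ℕ)
    (hkl : k ≠ l) :
    Tendsto (fun X : ℕ => (((SK K X).filter fun D => InT T (D * m k) ∧ InT T (D * m l)).card : ℝ) /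
      ((SK K X).card : ℝ)) atTop (nhds ((∑' r : T, cr r) * ∑' r : T, cr r)) := by
  have h1 := lawP (K := K) _ (h.pair ![k, l] (by
    intro a b
    fin_cases a <;> fin_cases b <;> simp [hkl, hkl.symm])) T
  rw [pow_two] at h1
  refine h1.congr fun X => ?_
  congr 2
  refine Pool.Agent.XLK.fcc fun D _ => ⟨fun h => ⟨h 0, h 1⟩, fun h a => ?_⟩
  fin_cases a
  · exact h.1
  · exact h.2

theorem lnK [IsCyclotomicExtension {3} ℚ K] {m : ℕ → 𝓞 K} (h : Seq m) (T : Set ℕ)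
    (n : ℕ) (hn : 0 < n) (ε : ℝ) (hε : 0 < ε) (δ : ℝ) (hδ : 0 < δ) :
    ∀ᶠ X in atTop, (((SK K X).filter fun D =>
        ε ≤ |(((range n).filter fun k => InT T (D * m k)).card : ℝ) / n - ∑' r : T, cr r|).card : ℝ) /
      ((SK K X).card : ℝ) ≤ (∑' r : T, cr r) * (1 - ∑' r : T, cr r) / (ε ^ 2 * n) + δ :=
  Q283.T3N.lln (SK K) (fun k D => InT T (D * m k)) _ (SK_ne K) (one_T h T) (two_T h T) n hn ε hε δ hδ

theorem manyK [IsCyclotomicExtension {3} ℚ K] {m : ℕ → 𝓞 K} (h : Seq m) (T : Set ℕ)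
    (hT : 0 < ∑' r : T, cr r) (N : ℕ) :
    Tendsto (fun X => (((SK K X).filter fun D =>
        ∃ F : Finset ℕ, F.card = N ∧ ∀ k ∈ F, InT T (D * m k)).card : ℝ) / ((SK K X).card : ℝ))
      atTop (nhds 1) :=
  Q283.T3N.many (SK K) (fun k D => InT T (D * m k)) _ hT (SK_ne K) (one_T h T) (two_T h T) N

theorem cr_pos (r : ℕ) : 0 < cr r := by
  have h := Pool.Agent.Y703.XL.t_C9
  unfold Pool.Agent.Y703.XL.cr
  refine div_pos (by linarith [h.2.2.2.1]) (prod_pos fun i _ => ?_)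
  have : (1 : ℝ) < 3 ^ (i + 1) := one_lt_pow₀ (by norm_num) (Nat.succ_ne_zero i)
  linarith

theorem sing (r : ℕ) : ∑' s : ({r} : Set ℕ), cr s = cr r := by
  rw [tsum_subtype ({r} : Set ℕ) cr, tsum_eq_single r]
  · simp
  · intro s hs
    rw [Set.indicator_of_notMem (by simpa using hs)]

end Q283.T3B
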