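import Mathlib

/-! Alternating sums of the numbers of independent tuples, over the field with three elements
(after `Pool.Agent.Y697.PQ.Pol` of helper697 for the field with two elements). -/

set_option autoImplicit false

namespace Q283.T3

open Finset Filter Topology

/-- `1 / ((3 - 1) (9 - 1) ⋯ (3 ^ j - 1))` -/
noncomputable def cf : ℕ → ℝ
  | 0 => 1
  | j + 1 => cf j / (3 ^ (j + 1) - 1)

theorem pm1 (j : ℕ) : (2 : ℝ) ≤ 3 ^ (j + 1) - 1 := by
  have : (1 : ℝ) ≤ 3 ^ j := one_le_pow₀ (by norm_num)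
  rw [pow_succ]
  linarith

theorem cf_pos (j : ℕ) : 0 < cf j := by
  induction j with
  | zero => exact one_pos
  | succ j ih =>
    rw [cf]
    exact div_pos ih (lt_of_lt_of_le two_pos (pm1 j))

/-- the number of independent `j`-tuples if `x` is the number of elements of the space -/
noncomputable def ij (j : ℕ) (x : ℝ) : ℝ := ∏ i ∈ range j, (x - 3 ^ i)

noncomputable def pp (J : ℕ) (x : ℝ) : ℝ := ∏ i ∈ range J, ((3 ^ (i + 1) - x) / (3 ^ (i + 1) - 1))

theorem ij_shift (j : ℕ) (x : ℝ) :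
    (-1) ^ (j + 1) * cf (j + 1) * ij (j + 1) x = (1 - x) / (3 ^ (j + 1) - 1) * pp j x := by
  induction j with
  | zero =>
    simp only [cf, ij, pp, zero_add, pow_one, Finset.range_one, Finset.prod_singleton, pow_zero,
      Finset.range_zero, Finset.prod_empty, mul_one]
    norm_num
    ring
  | succ j ih =>
    have h1 := pm1 (j + 1)
    have h2 := pm1 j
    have e1 : (-1 : ℝ) ^ (j + 1 + 1) * cf (j + 1 + 1) * ij (j + 1 + 1) x =
        ((-1) ^ (j + 1) * cf (j + 1) * ij (j + 1) x) * (3 ^ (j + 1) - x) / (3 ^ (j + 1 + 1) - 1) := by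
      rw [show cf (j + 1 + 1) = cf (j + 1) / (3 ^ (j + 1 + 1) - 1) from rfl, ij,
        Finset.prod_range_succ, ← ij]
      field_simp
      ring
    have e2 : pp (j + 1) x = pp j x * ((3 ^ (j + 1) - x) / (3 ^ (j + 1) - 1)) := by
      rw [pp, Finset.prod_range_succ, ← pp]
    rw [e1, ih, e2]
    have h3 : (3 : ℝ) ^ (j + 1 + 1) - 1 ≠ 0 := by linarith
    have h4 : (3 : ℝ) ^ (j + 1) - 1 ≠ 0 := by linarith
    field_simp

theorem pp_eq (J : ℕ) (x : ℝ) :
    ∑ j ∈ range (J + 1), (-1) ^ j * cf j * ij j x = pp J x := by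
  induction J with
  | zero => simp [cf, ij, pp]
  | succ J ih =>
    rw [Finset.sum_range_succ, ih, ij_shift]
    have e2 : pp (J + 1) x = pp J x * ((3 ^ (J + 1) - x) / (3 ^ (J + 1) - 1)) := by
      rw [pp, Finset.prod_range_succ, ← pp]
    have h4 : (3 : ℝ) ^ (J + 1) - 1 ≠ 0 := by have := pm1 J; linarith
    rw [e2]
    field_simp
    ring

theorem pp_one (J : ℕ) : pp J 1 = 1 := by
  unfold pp
  refine Finset.prod_eq_one fun i _ => div_self ?_
  have := pm1 i
  linarith

theorem pp_mid {J r : ℕ} (h1 : 1 ≤ r) (h2 : r ≤ J) : pp J (3 ^ r) = 0 := by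
  unfold pp
  refine Finset.prod_eq_zero (i := r - 1) (Finset.mem_range.2 (by omega)) ?_
  rw [Nat.sub_add_cancel h1, sub_self, zero_div]

theorem pp_big {J r : ℕ} (h2 : J < r) : 0 ≤ (-1) ^ J * pp J (3 ^ r) := by
  unfold pp
  have h3 : (-1 : ℝ) ^ J = ∏ _i ∈ range J, (-1 : ℝ) := by rw [Finset.prod_const, Finset.card_range]
  rw [h3, ← Finset.prod_mul_distrib]
  refine Finset.prod_nonneg fun i hi => ?_
  rw [Finset.mem_range] at hi
  have h4 : (3 : ℝ) ^ (i + 1) ≤ 3 ^ r := pow_le_pow_right₀ (by norm_num) (by omega)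
  have h5 := pm1 i
  rw [neg_one_mul, ← neg_div]
  exact div_nonneg (by linarith) (by linarith)

theorem pp_even {J : ℕ} (hJ : Even J) (r : ℕ) : (if r = 0 then (1 : ℝ) else 0) ≤ pp J (3 ^ r) := by
  split_ifs with h
  · rw [h, pow_zero, pp_one]
  · rcases le_or_gt r J with h1 | h1
    · rw [pp_mid (by omega) h1]
    · have := pp_big h1
      rw [hJ.neg_one_pow, one_mul] at this
      exact this

theorem pp_odd {J : ℕ} (hJ : Odd J) (r : ℕ) : pp J (3 ^ r) ≤ (if r = 0 then (1 : ℝ) else 0) := by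
  split_ifs with h
  · rw [h, pow_zero, pp_one]
  · rcases le_or_gt r J with h1 | h1
    · rw [pp_mid (by omega) h1]
    · have := pp_big h1
      rw [hJ.neg_one_pow] at this
      linarith

/-- the expected numbers -/
noncomputable def ff (j : ℕ) : ℝ := cf j * 3 ^ (j * (j - 1) / 2)

theorem tri (j : ℕ) : (j + 1) * (j + 1 - 1) / 2 = j * (j - 1) / 2 + j := by
  rcases j with _ | j
  · rfl
  · have h1 : (j + 1 + 1) * (j + 1 + 1 - 1) = (j + 1) * (j + 1 - 1) + 2 * (j + 1) := by
      simp only [Nat.add_sub_cancel]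
      ring
    rw [h1]
    omega

theorem ff_succ (j : ℕ) : ff (j + 1) = ff j * (3 ^ j / (3 ^ (j + 1) - 1)) := by
  unfold ff
  rw [tri, pow_add, show cf (j + 1) = cf j / (3 ^ (j + 1) - 1) from rfl]
  ring

theorem ff_pos (j : ℕ) : 0 < ff j := mul_pos (cf_pos j) (by positivity)

theorem ff_anti : Antitone ff := by
  refine antitone_nat_of_succ_le fun j => ?_
  rw [ff_succ]
  refine mul_le_of_le_one_right (ff_pos j).le ?_
  have h1 := pm1 j
  rw [div_le_one (by linarith)]
  have h2 : (1 : ℝ) ≤ 3 ^ j := one_le_pow₀ (by norm_num)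
  rw [pow_succ]
  linarith

theorem ff_zero : ff 0 = 1 := by simp [ff, cf]

theorem ff_le (j : ℕ) : ff j ≤ (1 / 2) ^ j := by
  induction j with
  | zero => rw [ff_zero]; simp
  | succ j ih =>
    rw [ff_succ, pow_succ (1 / 2 : ℝ)]
    have h1 := pm1 j
    have h2 : (1 : ℝ) ≤ 3 ^ j := one_le_pow₀ (by norm_num)
    have h3 : (3 : ℝ) ^ j / (3 ^ (j + 1) - 1) ≤ 1 / 2 := by
      rw [div_le_iff₀ (by linarith), pow_succ]
      linarith
    have h4 : (0 : ℝ) ≤ 3 ^ j / (3 ^ (j + 1) - 1) := div_nonneg (by positivity) (by linarith)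
    exact mul_le_mul ih h3 h4 (by positivity)

theorem ff_le_one (j : ℕ) : ff j ≤ 1 := by
  have := ff_anti (Nat.zero_le j)
  rwa [ff_zero] at this

theorem ff_tendsto : Tendsto ff atTop (𝓝 0) := by
  refine squeeze_zero (fun j => (ff_pos _).le) ff_le ?_
  exact tendsto_pow_atTop_nhds_zero_of_lt_one (by norm_num) (by norm_num)

theorem exists_g : ∃ g : ℝ, Tendsto (fun n => ∑ i ∈ range n, (-1) ^ i * ff i) atTop (𝓝 g) :=
  ff_anti.tendsto_alternating_series_of_tendsto_zero ff_tendsto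

/-- the limit of the proportion of the nonsingular symmetric matrices -/
noncomputable def gi : ℝ := Classical.choose exists_g

theorem gi_tendsto : Tendsto (fun n => ∑ i ∈ range n, (-1) ^ i * ff i) atTop (𝓝 gi) :=
  Classical.choose_spec exists_g

theorem gi_ge : 0 ≤ gi := by
  have h1 := ff_anti.alternating_series_le_tendsto gi_tendsto 0
  simpa using h1

theorem gi_le : gi ≤ 1 := by
  have h1 := ff_anti.tendsto_le_alternating_series gi_tendsto 0
  simpa [ff_zero] using h1

theorem ij_self (r : ℕ) : ij r (3 ^ r) = 3 ^ (r * (r - 1) / 2) / cf r := by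
  induction r with
  | zero => simp [ij, cf]
  | succ r ih =>
    have h1 : ij (r + 1) (3 ^ (r + 1)) = (3 ^ (r + 1) - 1) * (3 ^ r * ij r (3 ^ r)) := by
      unfold ij
      rw [Finset.prod_range_succ']
      have e : ∀ i ∈ range r, ((3 : ℝ) ^ (r + 1) - 3 ^ (i + 1)) = 3 * (3 ^ r - 3 ^ i) := by
        intro i _
        rw [pow_succ, pow_succ]
        ring
      rw [Finset.prod_congr rfl e, Finset.prod_mul_distrib, Finset.prod_const, Finset.card_range,
        pow_zero]
      ring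
    have h2 := pm1 r
    have h3 := cf_pos r
    rw [h1, ih, tri, pow_add, show cf (r + 1) = cf r / (3 ^ (r + 1) - 1) from rfl]
    have h4 : (3 : ℝ) ^ (r + 1) - 1 ≠ 0 := by linarith
    field_simp
    ring

theorem cf_le_one (r : ℕ) : cf r ≤ 1 := by
  induction r with
  | zero => exact le_of_eq rfl
  | succ r ih =>
    rw [show cf (r + 1) = cf r / (3 ^ (r + 1) - 1) from rfl]
    have h2 := pm1 r
    rw [div_le_one (by linarith)]
    linarith

theorem ij_self_pos (r : ℕ) : 0 < ij r (3 ^ r) := by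
  rw [ij_self]
  have := cf_pos r
  positivity

theorem ij_add (r j c : ℕ) : ij (r + j) (3 ^ (r + c)) = ij r (3 ^ (r + c)) * (3 ^ (r * j) * ij j (3 ^ c)) := by
  unfold ij
  rw [Finset.prod_range_add]
  congr 1
  have e : ∀ i ∈ range j, ((3 : ℝ) ^ (r + c) - 3 ^ (r + i)) = 3 ^ r * (3 ^ c - 3 ^ i) := by
    intro i _
    rw [pow_add, pow_add]
    ring
  rw [Finset.prod_congr rfl e, Finset.prod_mul_distrib, Finset.prod_const, Finset.card_range, ← pow_mul]

theorem ij_zero {j r : ℕ} (h : r < j) : ij j (3 ^ r) = 0 := by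
  unfold ij
  exact Finset.prod_eq_zero (Finset.mem_range.2 h) (sub_self _)

/-- the polynomial which is one at `3 ^ r` and zero at the other small powers of three -/
noncomputable def qq (r I : ℕ) (x : ℝ) : ℝ :=
  (∑ j ∈ range (I + 1), (-1) ^ j * cf j * (3 ^ (r * j))⁻¹ * ij (r + j) x) / ij r (3 ^ r)

theorem qq_lt {r I c : ℕ} (h : c < r) : qq r I (3 ^ c) = 0 := by
  unfold qq
  rw [Finset.sum_eq_zero, zero_div]
  intro j _
  rw [ij_zero (show c < r + j by omega), mul_zero]

theorem qq_ge (r I c : ℕ) : qq r I (3 ^ (r + c)) =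
    ij r (3 ^ (r + c)) / ij r (3 ^ r) * pp I (3 ^ c) := by
  unfold qq
  rw [← pp_eq, div_mul_eq_mul_div, Finset.mul_sum]
  congr 1
  refine Finset.sum_congr rfl fun j _ => ?_
  rw [ij_add]
  have : (3 : ℝ) ^ (r * j) ≠ 0 := by positivity
  field_simp

theorem ij_nn (r c : ℕ) : 0 ≤ ij r (3 ^ (r + c)) := by
  unfold ij
  refine Finset.prod_nonneg fun i hi => ?_
  rw [Finset.mem_range] at hi
  have : (3 : ℝ) ^ i ≤ 3 ^ (r + c) := pow_le_pow_right₀ (by norm_num) (by omega)
  linarith

theorem qq_even {I : ℕ} (hI : Even I) (r c : ℕ) : (if c = r then (1 : ℝ) else 0) ≤ qq r I (3 ^ c) := by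
  rcases lt_or_ge c r with h | h
  · rw [qq_lt h, if_neg (by omega)]
  · obtain ⟨d, rfl⟩ := Nat.exists_eq_add_of_le h
    rw [qq_ge]
    have h1 := pp_even hI d
    have h2 := ij_nn r d
    have h3 := ij_self_pos r
    by_cases hd : d = 0
    · subst hd
      rw [if_pos rfl] at h1
      rw [if_pos (by simp), add_zero, div_self h3.ne', one_mul]
      exact h1
    · rw [if_neg hd] at h1
      rw [if_neg (by omega)]
      positivity

theorem qq_odd {I : ℕ} (hI : Odd I) (r c : ℕ) : qq r I (3 ^ c) ≤ (if c = r then (1 : ℝ) else 0) := by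
  rcases lt_or_ge c r with h | h
  · rw [qq_lt h, if_neg (by omega)]
  · obtain ⟨d, rfl⟩ := Nat.exists_eq_add_of_le h
    rw [qq_ge]
    have h1 := pp_odd hI d
    have h2 := ij_nn r d
    have h3 := ij_self_pos r
    by_cases hd : d = 0
    · subst hd
      rw [if_pos rfl] at h1
      rw [if_pos (by simp), add_zero, div_self h3.ne', one_mul]
      exact h1
    · rw [if_neg hd] at h1
      rw [if_neg (by omega)]
      exact mul_nonpos_of_nonneg_of_nonpos (div_nonneg h2 h3.le) h1

theorem tri_sum (r j : ℕ) : (r + j) * (r + j - 1) / 2 = r * (r - 1) / 2 + j * (j - 1) / 2 + r * j := by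
  induction j with
  | zero => simp
  | succ j ih =>
    rw [← add_assoc, tri, ih, tri]
    ring

theorem tri_add {t j : ℕ} (hj : j ≤ t) :
    t * j + (t - j) * (t - j + 1) / 2 = j * (j - 1) / 2 + t * (t + 1) / 2 := by
  obtain ⟨s, rfl⟩ := Nat.exists_eq_add_of_le hj
  rw [Nat.add_sub_cancel_left]
  have h1 : 2 ∣ s * (s + 1) := (Nat.even_mul_succ_self s).two_dvd
  have h2 : 2 ∣ (j + s) * (j + s + 1) := (Nat.even_mul_succ_self (j + s)).two_dvd
  have h3 : 2 ∣ j * (j - 1) := (Nat.even_mul_pred_self j).two_dvd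
  obtain ⟨a, ha⟩ := h1
  obtain ⟨b, hb⟩ := h2
  obtain ⟨c, hc⟩ := h3
  rw [ha, hb, hc]
  simp only [Nat.mul_div_cancel_left _ (show 0 < 2 by norm_num)]
  rcases j with _ | j
  · simp only [zero_add, mul_zero, zero_mul] at *
    omega
  · rw [Nat.add_sub_cancel] at hc
    have h4 : 2 * ((j + 1 + s) * (j + 1)) + s * (s + 1) =
        (j + 1) * j + (j + 1 + s) * (j + 1 + s + 1) := by ring
    rw [ha, hb, hc] at h4
    omega

end Q283.T3
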