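import Pool.Agent.Y433.XK.Gen

/-! Mean values: the sets with few primes at which a cubic character is not trivial -/

set_option autoImplicit false

open scoped Classical

namespace Q283.T3

open Finset Filter
open Pool.Agent.Y692.QS (Ei)
open Pool.Agent.Y715.T.Rec (cs)
open Pool.Agent.Y715.T.RecG (Pq)
open Pool.Agent.Y699.E
open Pool.Agent.Y703.CX (eL zz kk)
open Pool.Agent.Y703.XK
open Pool.Agent.Y433.XK (M_le eulerE)

theorem mf_mono {g g' : Ei → ℝ} (h0 : ∀ π, 0 ≤ g π) (h : ∀ π, g π ≤ g' π) (n : Ei) :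
    mf g n ≤ mf g' n := prod_le_prod (fun _ _ => h0 _) (fun _ _ => h _)

/-- splitting an element along a set of primes -/
theorem split_dec : ∀ n, prm n → ∀ T, T ⊆ PD n →
    ∃ d k, prm d ∧ prm k ∧ n = d * k ∧ PD d = T ∧ PD k = PD n \ T := by
  refine pp_induction ?_ ?_
  · intro T hT
    rw [PD_one, subset_empty] at hT
    refine ⟨1, 1, prm_one, prm_one, (mul_one 1).symm, ?_, ?_⟩
    · rw [PD_one, hT]
    · rw [PD_one, hT, sdiff_empty]
  · intro π m j hπ hm hd hj ih T hT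
    have hn : PD (π ^ j * m) = insert π (PD m) := PD_pow_mul hπ hm hj
    have hπm : π ∉ PD m := notMem_PD hm hd
    rw [hn] at hT ⊢
    have hsub : T.erase π ⊆ PD m := by
      intro x hx
      rw [mem_erase] at hx
      exact (mem_insert.1 (hT hx.2)).resolve_left hx.1
    obtain ⟨d, k, hd1, hk1, hm1, hPd, hPk⟩ := ih (T.erase π) hsub
    by_cases hπT : π ∈ T
    · refine ⟨π ^ j * d, k, prm_mul (prm_pow (pq_prm hπ) j) hd1, hk1, ?_, ?_, ?_⟩
      · rw [hm1, mul_assoc]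
      · rw [PD_pow_mul hπ hd1 hj, hPd, insert_erase hπT]
      · rw [hPk]
        ext x
        rw [Finset.mem_sdiff, Finset.mem_sdiff, mem_erase, mem_insert]
        constructor
        · rintro ⟨h1, h2⟩
          exact ⟨Or.inr h1, fun h => h2 ⟨fun h' => hπm (h' ▸ h1), h⟩⟩
        · rintro ⟨h1, h2⟩
          rcases h1 with h1 | h1
          · exact absurd (h1 ▸ hπT) h2
          · exact ⟨h1, fun h => h2 h.2⟩
    · rw [erase_eq_of_notMem hπT] at hPd hPk
      refine ⟨d, π ^ j * k, hd1, prm_mul (prm_pow (pq_prm hπ) j) hk1, ?_, hPd, ?_⟩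
      · rw [hm1]; ring
      · rw [PD_pow_mul hπ hk1 hj, hPk]
        ext x
        rw [mem_insert, Finset.mem_sdiff, Finset.mem_sdiff, mem_insert]
        constructor
        · rintro (h1 | h1)
          · exact ⟨Or.inl h1, fun h => hπT (h1 ▸ h)⟩
          · exact ⟨Or.inr h1.1, h1.2⟩
        · rintro ⟨h1 | h1, h2⟩
          · exact Or.inl h1
          · exact Or.inr ⟨h1, h2⟩

/-- the sum of a product of two multiplicative functions -/
theorem conv_two {f h : Ei → ℝ} (hf : ∀ π, 0 ≤ f π) (hh : ∀ π, 0 ≤ h π) (V : ℕ) :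
    ∑ n ∈ PB V, mf (fun π => f π + h π) n / nrm n ≤
      (∑ n ∈ PB V, mf f n / nrm n) * ∑ n ∈ PB V, mf h n / nrm n := by
  choose! d k h1 h2 h3 h4 h5 using split_dec
  have e1 : ∑ n ∈ PB V, mf (fun π => f π + h π) n / nrm n =
      ∑ x ∈ (PB V).sigma (fun n => (PD n).powerset),
        ((∏ π ∈ x.2, f π) * ∏ π ∈ PD x.1 \ x.2, h π) / nrm x.1 := by
    rw [sum_sigma]
    refine sum_congr rfl fun n _ => ?_
    unfold mf
    rw [prod_add, sum_div]
  rw [e1, sum_mul_sum, ← sum_product']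
  refine sum_le_inj (fun x => (d x.1 x.2, k x.1 x.2)) ?_ ?_ ?_ ?_
  · rintro ⟨n, T⟩ hx
    rw [mem_sigma, mem_PB, mem_powerset] at hx
    simp only at hx ⊢
    have hn0 := prm_ne_zero hx.1.2
    have g3 := h3 n hx.1.2 T hx.2
    rw [mem_product, mem_PB, mem_PB]
    refine ⟨⟨(norm_le_of_dvd hn0 ⟨_, g3⟩).trans hx.1.1, h1 n hx.1.2 T hx.2⟩,
      (norm_le_of_dvd hn0 ⟨d n T, by rw [mul_comm]; exact g3⟩).trans hx.1.1, h2 n hx.1.2 T hx.2⟩
  · rintro ⟨n, T⟩ hx ⟨m, U⟩ hy hxy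
    rw [mem_sigma, mem_PB, mem_powerset] at hx hy
    simp only [Prod.mk.injEq] at hx hy hxy
    have g1 : n = m := by
      rw [h3 n hx.1.2 T hx.2, h3 m hy.1.2 U hy.2, hxy.1, hxy.2]
    have g2 : T = U := by
      rw [← h4 n hx.1.2 T hx.2, ← h4 m hy.1.2 U hy.2, hxy.1]
    rw [g1, g2]
  · rintro ⟨n, T⟩ hx
    rw [mem_sigma, mem_PB, mem_powerset] at hx
    simp only at hx ⊢
    have g3 := h3 n hx.1.2 T hx.2
    have e2 : (nrm n : ℝ) = nrm (d n T) * nrm (k n T) := by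
      rw [← Nat.cast_mul, ← nrm_mul, ← g3]
    unfold mf
    rw [h4 n hx.1.2 T hx.2, h5 n hx.1.2 T hx.2, e2, div_mul_div_comm]
  · intro x _
    exact mul_nonneg (div_nonneg (mf_nonneg hf _) (Nat.cast_nonneg _))
      (div_nonneg (mf_nonneg hh _) (Nat.cast_nonneg _))

/-- the square part -/
theorem sq_dec : ∀ n, prm n → ∃ s q, PS s ∧ prm q ∧ n = s * q ^ 2 := by
  refine pp_induction ?_ ?_
  · exact ⟨1, 1, PS_one, prm_one, by rw [one_pow, mul_one]⟩
  · rintro π m j hπ hm hd hj ⟨s, q, hs, hq, hm1⟩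
    have hπp := pq_prm hπ
    rcases Nat.even_or_odd j with ⟨i, hi⟩ | ⟨i, hi⟩
    · refine ⟨s, π ^ i * q, hs, prm_mul (prm_pow hπp i) hq, ?_⟩
      rw [hm1, hi]; ring
    · have hπs : π ∉ PD s := by
        rw [mem_PD hs.ne]
        exact fun h => hd (hm1 ▸ h.2.mul_right _)
      have h1 := PS_prod (S := insert π (PD s)) fun ρ hρ => by
        rcases mem_insert.1 hρ with h | h
        · rw [h]; exact hπ
        · exact ((mem_PD hs.ne).1 h).1
      have h2 : ∏ ρ ∈ insert π (PD s), ρ = π * s := by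
        rw [prod_insert hπs, hs.prod]
      rw [h2] at h1
      refine ⟨π * s, π ^ i * q, h1.1, prm_mul (prm_pow hπp i) hq, ?_⟩
      rw [hm1, hi]; ring

theorem sum_sq (V : ℕ) : ∑ q ∈ PB V, (1 : ℝ) / (nrm q : ℝ) ^ 2 ≤ 64 := by
  have hmaps : ∀ x ∈ PB V, Nat.log 2 (nrm x) ∈ range (Nat.log 2 V + 1) := by
    intro x hx
    rw [mem_PB] at hx
    rw [mem_range]
    have := Nat.log_mono_right (b := 2) hx.1
    omega
  rw [← sum_fiberwise_of_maps_to hmaps]
  have h1 : ∀ k ∈ range (Nat.log 2 V + 1),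
      ∑ x ∈ (PB V).filter (fun x => Nat.log 2 (nrm x) = k), (1 : ℝ) / (nrm x : ℝ) ^ 2 ≤
      32 * (1 / 2) ^ k := by
    intro k _
    have h2 : ∀ x ∈ (PB V).filter (fun x => Nat.log 2 (nrm x) = k),
        (1 : ℝ) / (nrm x : ℝ) ^ 2 ≤ 1 / 4 ^ k := by
      intro x hx
      rw [mem_filter, mem_PB] at hx
      have h3 : 2 ^ k ≤ nrm x := by
        rw [← hx.2]
        exact Nat.pow_log_le_self 2 (nrm_ne (prm_ne_zero hx.1.2))
      have h4 : (2 : ℝ) ^ k ≤ nrm x := by exact_mod_cast h3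
      have h5 : (4 : ℝ) ^ k ≤ (nrm x : ℝ) ^ 2 := by
        calc (4 : ℝ) ^ k = (2 ^ k) ^ 2 := by rw [← pow_mul, mul_comm, pow_mul]; norm_num
          _ ≤ _ := pow_le_pow_left₀ (by positivity) h4 2
      exact one_div_le_one_div_of_le (by positivity) h5
    refine (sum_le_sum h2).trans ?_
    rw [sum_const, nsmul_eq_mul]
    have h6 : (PB V).filter (fun x => Nat.log 2 (nrm x) = k) ⊆ PB (2 ^ (k + 1)) := by
      intro x hx
      rw [mem_filter, mem_PB] at hx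
      rw [mem_PB]
      refine ⟨?_, hx.1.2⟩
      have := Nat.lt_pow_succ_log_self (b := 2) (by norm_num) (nrm x)
      rw [hx.2] at this
      exact this.le
    have h7 : (((PB V).filter (fun x => Nat.log 2 (nrm x) = k)).card : ℝ) ≤ 16 * 2 ^ (k + 1) := by
      have h8 : (((PB V).filter (fun x => Nat.log 2 (nrm x) = k)).card : ℝ) ≤
          (PB (2 ^ (k + 1))).card := by exact_mod_cast card_le_card h6
      refine h8.trans ((card_PB_le (Nat.one_le_two_pow)).trans (le_of_eq ?_))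
      push_cast
      ring
    calc (((PB V).filter (fun x => Nat.log 2 (nrm x) = k)).card : ℝ) * (1 / 4 ^ k) ≤
          (16 * 2 ^ (k + 1)) * (1 / 4 ^ k) := by gcongr
      _ = 32 * (1 / 2) ^ k := by
          have e : (4 : ℝ) ^ k = 2 ^ k * 2 ^ k := by rw [← mul_pow]; norm_num
          rw [e, pow_succ, one_div_pow]
          field_simp
          norm_num
  refine (sum_le_sum h1).trans ?_
  rw [← mul_sum]
  have h9 : ∑ i ∈ range (Nat.log 2 V + 1), (1 / 2 : ℝ) ^ i ≤ 2 := by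
    have := geom_sum_eq (x := (1 / 2 : ℝ)) (by norm_num) (Nat.log 2 V + 1)
    rw [this]
    have h10 : (0 : ℝ) ≤ (1 / 2) ^ (Nat.log 2 V + 1) := by positivity
    rw [div_le_iff_of_neg (by norm_num)]
    linarith
  linarith

/-- the sum over the squarefree elements -/
theorem sum_sf {c : ℝ} (hc : 0 ≤ c) (V : ℕ) : ∑ n ∈ SB V, mf (fun _ => c) n / nrm n ≤
    Real.exp (c * ∑ π ∈ QB V, (1 : ℝ) / nrm π) := by
  have h := eulerE (QB V) (fun π => c * (1 / (nrm π : ℝ))) fun π _ => by positivity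
  rw [← mul_sum] at h
  refine le_trans ?_ h
  refine sum_le_inj (fun n => PD n) ?_ ?_ ?_ ?_
  · intro n hn
    rw [mem_SB] at hn
    rw [mem_powerset]
    intro π hπ
    rw [mem_PD hn.2.ne] at hπ
    rw [mem_QB]
    exact ⟨(norm_le_of_dvd hn.2.ne hπ.2).trans hn.1, hπ.1⟩
  · intro n hn m hm h
    rw [mem_SB] at hn hm
    rw [← hn.2.prod, ← hm.2.prod]
    exact congrArg (fun S : Finset Ei => ∏ π ∈ S, π) h
  · intro n hn
    rw [mem_SB] at hn
    unfold mf
    rw [prod_mul_distrib, prod_div_distrib, prod_const_one]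
    have e : (nrm n : ℝ) = ∏ π ∈ PD n, (nrm π : ℝ) := by
      conv_lhs => rw [← hn.2.prod, nrm_prod]
      push_cast
      rfl
    rw [e, mul_one_div]
  · intro S _
    exact prod_nonneg fun π _ => by positivity

/-- the sum over all elements -/
theorem sum_all {c : ℝ} (hc : 0 ≤ c) (hc1 : c ≤ 1) (V : ℕ) : ∑ n ∈ PB V, mf (fun _ => c) n / nrm n ≤
    64 * Real.exp (c * ∑ π ∈ QB V, (1 : ℝ) / nrm π) := by
  choose! s q h1 h2 h3 using sq_dec
  have key : ∑ n ∈ PB V, mf (fun _ => c) n / nrm n ≤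
      ∑ x ∈ SB V ×ˢ PB V, (mf (fun _ => c) x.1 / nrm x.1) * (1 / (nrm x.2 : ℝ) ^ 2) := by
    refine sum_le_inj (fun n => (s n, q n)) ?_ ?_ ?_ ?_
    · intro n hn
      rw [mem_PB] at hn
      have hn0 := prm_ne_zero hn.2
      have g := h3 n hn.2
      rw [mem_product, mem_SB, mem_PB]
      refine ⟨⟨(norm_le_of_dvd hn0 ⟨_, g⟩).trans hn.1, h1 n hn.2⟩,
        (norm_le_of_dvd hn0 ⟨s n * q n, ?_⟩).trans hn.1, h2 n hn.2⟩
      exact g.trans (by ring)
    · intro n hn m hm h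
      rw [mem_PB] at hn hm
      simp only [Prod.mk.injEq] at h
      rw [h3 n hn.2, h3 m hm.2, h.1, h.2]
    · intro n hn
      rw [mem_PB] at hn
      simp only
      have hn0 := prm_ne_zero hn.2
      have g := h3 n hn.2
      have hs : PD (s n) ⊆ PD n := PD_subset hn0 ⟨_, g⟩
      have e : (nrm n : ℝ) = nrm (s n) * (nrm (q n) : ℝ) ^ 2 := by
        conv_lhs => rw [g, nrm_mul, pow_two, nrm_mul]
        push_cast
        ring
      have hle : mf (fun _ => c) n ≤ mf (fun _ => c) (s n) := by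
        unfold mf
        rw [prod_const, prod_const]
        exact pow_le_pow_of_le_one hc hc1 (card_le_card hs)
      rw [div_mul_div_comm, mul_one, ← e]
      exact div_le_div_of_nonneg_right hle (Nat.cast_nonneg _)
    · intro x _
      exact mul_nonneg (div_nonneg (mf_nonneg (fun _ => hc) _) (Nat.cast_nonneg _)) (by positivity)
  refine key.trans ?_
  rw [sum_product]
  have e1 : ∀ x ∈ SB V, ∑ y ∈ PB V, (mf (fun _ => c) x / nrm x) * (1 / (nrm y : ℝ) ^ 2) ≤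
      (mf (fun _ => c) x / nrm x) * 64 := by
    intro x _
    rw [← mul_sum]
    exact mul_le_mul_of_nonneg_left (sum_sq V)
      (div_nonneg (mf_nonneg (fun _ => hc) _) (Nat.cast_nonneg _))
  refine (sum_le_sum e1).trans ?_
  rw [← sum_mul, mul_comm]
  exact mul_le_mul_of_nonneg_left (sum_sf hc V) (by norm_num)

/-- combining the two steps -/
theorem hall_aux4 {g : Ei → ℝ} (h0 : ∀ π, 0 ≤ g π) (h1 : ∀ π, g π ≤ 1) {T : ℕ} (hT2 : 2 ≤ T) {A : ℝ}
    (hA1 : 1 ≤ A) (hA : ∑ n ∈ PB (T ^ 3), mf (fun π => 3 * g π) n / nrm n ≤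
      A * (lg T) ^ (9 / 4 : ℝ)) :
    ∑ n ∈ SB T, mf g n ≤ 21 * A ^ (1 / 3 : ℝ) * (T * (lg T) ^ (-(1 / 4) : ℝ)) := by
  have hl := lg_pos T
  have hl1 := one_le_lg T
  have A0 : 0 < A := by linarith
  have T0 : (0 : ℝ) < T := by exact_mod_cast (by omega : 0 < T)
  set S := ∑ n ∈ SB T, mf g n with hS
  set S1 := ∑ n ∈ SB T, mf g n / nrm n with hS1
  have hS0 : 0 ≤ S := sum_nonneg fun n _ => mf_nonneg h0 n
  have hS10 : 0 ≤ S1 := sum_nonneg fun n _ => div_nonneg (mf_nonneg h0 n) (Nat.cast_nonneg _)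
  have h2 := hall1 h0 h1 (by omega : 1 ≤ T)
  have h3 := (hall3 h0 h1 T).trans hA
  rw [← hS, ← hS1] at h2
  rw [← hS1] at h3
  have h4 : S1 ≤ A ^ (1 / 3 : ℝ) * (lg T) ^ (3 / 4 : ℝ) := by
    apply le_of_pow_le_pow_left₀ (n := 3) (by norm_num) (by positivity)
    refine h3.trans (le_of_eq ?_)
    rw [mul_pow, ← Real.rpow_natCast, ← Real.rpow_natCast, ← Real.rpow_mul A0.le,
      ← Real.rpow_mul hl.le]
    norm_num
  have h5 := lg_le_log hT2
  have h6 : (lg T) ^ (-(1 / 4) : ℝ) * lg T = (lg T) ^ (3 / 4 : ℝ) := by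
    have := Real.rpow_add hl (-(1 / 4)) 1
    rw [Real.rpow_one] at this
    rw [← this]
    norm_num
  have h7 : S * lg T ≤ 21 * T * (A ^ (1 / 3 : ℝ) * (lg T) ^ (3 / 4 : ℝ)) := by
    calc S * lg T ≤ S * (3 * Real.log T) := mul_le_mul_of_nonneg_left h5 hS0
      _ = 3 * (S * Real.log T) := by ring
      _ ≤ 3 * (7 * T * S1) := by linarith
      _ ≤ 3 * (7 * T * (A ^ (1 / 3 : ℝ) * (lg T) ^ (3 / 4 : ℝ))) := by
          have := mul_le_mul_of_nonneg_left h4 (show (0 : ℝ) ≤ 7 * T by positivity)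
          linarith
      _ = 21 * T * (A ^ (1 / 3 : ℝ) * (lg T) ^ (3 / 4 : ℝ)) := by ring
  have h8 : S * lg T ≤ (21 * A ^ (1 / 3 : ℝ) * (T * (lg T) ^ (-(1 / 4) : ℝ))) * lg T := by
    refine h7.trans (le_of_eq ?_)
    rw [← h6]
    ring
  exact le_of_mul_le_mul_right h8 hl

/-- the weight of a prime -/
noncomputable def wt (A B : Ei) (π : Ei) : ℝ :=
  (31 / 32) * ((1 + 2 * (xab A B π).re) / 3) + 1 / 32

theorem wt_nonneg {A B : Ei} (hA : PS A) (hB : PS B) (π : Ei) : 0 ≤ wt A B π := by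
  have := re_nonneg ((xab_ch hA hB).val π)
  unfold wt
  linarith

theorem wt_le {A B : Ei} (hA : PS A) (hB : PS B) (π : Ei) : wt A B π ≤ 1 := by
  have := re_le ((xab_ch hA hB).val π)
  unfold wt
  linarith

/-- **the mean value of the weight** -/
theorem hallW : ∃ K : ℝ, 1 ≤ K ∧ ∀ A B : Ei, PS A → PS B → A ≠ B → ∀ T : ℕ,
    ∑ n ∈ SB T, mf (wt A B) n ≤
      K * lg (nrm A * nrm B) * (T * (lg T) ^ (-(1 / 4) : ℝ)) := by
  obtain ⟨C, hC0, hC⟩ := M_le
  set K₀ : ℝ := (96 ^ 2 * 264) * (64 * (Real.exp (3 / 32 * C) * 3)) with hK₀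
  have hexp : 1 ≤ Real.exp (3 / 32 * C) := Real.one_le_exp (by positivity)
  have hK₀1 : 1 ≤ K₀ := by rw [hK₀]; nlinarith
  refine ⟨21 * K₀, by linarith, fun A B hA hB hAB T => ?_⟩
  have hl := one_le_lg (nrm A * nrm B)
  have hlT := one_le_lg T
  have hlT0 := lg_pos T
  by_cases hT : T ≤ 1
  · interval_cases T
    · rw [SB_empty rfl, sum_empty]
      have := lg_pos (nrm A * nrm B)
      positivity
    · have h2 : ∑ n ∈ SB 1, mf (wt A B) n ≤ 16 := by
        refine (sum_le_sum fun n _ => mf_le_one (wt_nonneg hA hB) (wt_le hA hB) n).trans ?_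
        rw [sum_const, nsmul_eq_mul, mul_one]
        refine (card_SB_le le_rfl).trans (le_of_eq (by norm_num))
      have h3 : lg 1 = 1 := by unfold lg; simp
      rw [h3, Real.one_rpow]
      push_cast
      nlinarith
  have hT2 : 2 ≤ T := by omega
  have hch := xab_ch hA hB
  have hf0 : ∀ π, 0 ≤ 1 + 2 * (xab A B π).re := fun π => re_nonneg (hch.val π)
  have h3T : 3 ≤ T ^ 3 := by
    have := Nat.pow_le_pow_left hT2 3
    omega
  -- the two factors
  have e1 : ∑ n ∈ PB (T ^ 3), mf (fun π => 3 * wt A B π) n / nrm n ≤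
      ∑ n ∈ PB (T ^ 3), mf (fun π => (1 + 2 * (xab A B π).re) + 3 / 32) n / nrm n := by
    refine sum_le_sum fun n _ => ?_
    refine div_le_div_of_nonneg_right (mf_mono (fun π => ?_) (fun π => ?_) n) (Nat.cast_nonneg _)
    · have := wt_nonneg hA hB π
      linarith
    · have := hf0 π
      unfold wt
      linarith
  have e2 := conv_two hf0 (fun _ => (by norm_num : (0 : ℝ) ≤ 3 / 32)) (T ^ 3)
  have e3 := conv_bound hch (chs_log hA hB hAB) (T ^ 3)
  have e4 := sum_all (c := 3 / 32) (by norm_num) (by norm_num) (T ^ 3)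
  have e5 := lg_cube T
  have e6 := lg_pos (T ^ 3)
  have e7 : (32 * lg (T ^ 3)) ^ 2 * (264 * lg (nrm A * nrm B)) ≤
      (96 ^ 2 * 264) * lg (nrm A * nrm B) * (lg T) ^ 2 := by
    have : (32 * lg (T ^ 3)) ^ 2 ≤ (96 * lg T) ^ 2 := by
      apply pow_le_pow_left₀ (by positivity)
      linarith
    calc (32 * lg (T ^ 3)) ^ 2 * (264 * lg (nrm A * nrm B)) ≤
          (96 * lg T) ^ 2 * (264 * lg (nrm A * nrm B)) := by
            apply mul_le_mul_of_nonneg_right this (by positivity)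
      _ = _ := by ring
  have hlogT : 0 < Real.log ((T ^ 3 : ℕ) : ℝ) := Real.log_pos (by exact_mod_cast (by omega : 1 < T ^ 3))
  have hloglg : Real.log ((T ^ 3 : ℕ) : ℝ) ≤ 3 * lg T := (log_le_lg (by omega)).trans e5
  have e8 : Real.exp (3 / 32 * ∑ π ∈ QB (T ^ 3), (1 : ℝ) / nrm π) ≤
      Real.exp (3 / 32 * C) * 3 * (lg T) ^ (1 / 4 : ℝ) := by
    have g1 := hC (T ^ 3) h3T
    have g2 : Real.exp (3 / 32 * ∑ π ∈ QB (T ^ 3), (1 : ℝ) / nrm π) ≤
        Real.exp (3 / 32 * C + Real.log (Real.log ((T ^ 3 : ℕ) : ℝ)) * (3 / 16)) := by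
      apply Real.exp_le_exp.2
      linarith
    refine g2.trans ?_
    rw [Real.exp_add, Real.exp_mul (Real.log _) (3 / 16), Real.exp_log hlogT, mul_assoc]
    refine mul_le_mul_of_nonneg_left ?_ (Real.exp_pos _).le
    calc (Real.log ((T ^ 3 : ℕ) : ℝ)) ^ (3 / 16 : ℝ) ≤ (3 * lg T) ^ (3 / 16 : ℝ) :=
          Real.rpow_le_rpow hlogT.le hloglg (by norm_num)
      _ ≤ (3 * lg T) ^ (1 / 4 : ℝ) :=
          Real.rpow_le_rpow_of_exponent_le (by linarith) (by norm_num)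
      _ = 3 ^ (1 / 4 : ℝ) * (lg T) ^ (1 / 4 : ℝ) := Real.mul_rpow (by norm_num) hlT0.le
      _ ≤ 3 * (lg T) ^ (1 / 4 : ℝ) := by
          refine mul_le_mul_of_nonneg_right ?_ (by positivity)
          calc (3 : ℝ) ^ (1 / 4 : ℝ) ≤ 3 ^ (1 : ℝ) :=
                Real.rpow_le_rpow_of_exponent_le (by norm_num) (by norm_num)
            _ = 3 := Real.rpow_one _
  have hAA : ∑ n ∈ PB (T ^ 3), mf (fun π => 3 * wt A B π) n / nrm n ≤
      (K₀ * lg (nrm A * nrm B)) * (lg T) ^ (9 / 4 : ℝ) := by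
    refine e1.trans (e2.trans ?_)
    have g3 : (0 : ℝ) ≤ ∑ n ∈ PB (T ^ 3), mf (fun _ => 3 / 32) n / nrm n :=
      sum_nonneg fun n _ => div_nonneg (mf_nonneg (fun _ => by norm_num) _) (Nat.cast_nonneg _)
    have g4 : ∑ n ∈ PB (T ^ 3), mf (fun _ => 3 / 32) n / nrm n ≤
        64 * (Real.exp (3 / 32 * C) * 3 * (lg T) ^ (1 / 4 : ℝ)) := e4.trans (by linarith)
    calc _ ≤ ((96 ^ 2 * 264) * lg (nrm A * nrm B) * (lg T) ^ 2) *
          (64 * (Real.exp (3 / 32 * C) * 3 * (lg T) ^ (1 / 4 : ℝ))) :=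
          mul_le_mul (e3.trans e7) g4 g3 (by positivity)
      _ = K₀ * lg (nrm A * nrm B) * ((lg T) ^ 2 * (lg T) ^ (1 / 4 : ℝ)) := by rw [hK₀]; ring
      _ = _ := by
          congr 1
          rw [← Real.rpow_natCast, ← Real.rpow_add hlT0]
          norm_num
  have hmul : 1 ≤ K₀ * lg (nrm A * nrm B) := one_le_mul_of_one_le_of_one_le hK₀1 hl
  refine (hall_aux4 (wt_nonneg hA hB) (wt_le hA hB) hT2 hmul hAA).trans ?_
  have h9 : (K₀ * lg (nrm A * nrm B)) ^ (1 / 3 : ℝ) ≤ K₀ * lg (nrm A * nrm B) := by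
    calc (K₀ * lg (nrm A * nrm B)) ^ (1 / 3 : ℝ) ≤ (K₀ * lg (nrm A * nrm B)) ^ (1 : ℝ) :=
          Real.rpow_le_rpow_of_exponent_le hmul (by norm_num)
      _ = _ := Real.rpow_one _
  have h10 : (0 : ℝ) ≤ T * (lg T) ^ (-(1 / 4) : ℝ) := by positivity
  calc 21 * (K₀ * lg (nrm A * nrm B)) ^ (1 / 3 : ℝ) * (T * (lg T) ^ (-(1 / 4) : ℝ)) ≤
        21 * (K₀ * lg (nrm A * nrm B)) * (T * (lg T) ^ (-(1 / 4) : ℝ)) := by gcongr
    _ = _ := by ring

end Q283.T3
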