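import Pool.Agent.Q283.T3.Wk
import Pool.Agent.Y696.XL.Up

/-! Squarefree masks -/

set_option autoImplicit false
set_option linter.unusedSectionVars false

open scoped Classical

namespace Q283.T3B

open Finset Module NumberField Filter
open Pool.Agent.Y692.QS (Ei nr w)
open Pool.Agent.Y715.T.RecG (Pq)
open Pool.Agent.Y699.E (prm prm_one prm_mul prm_pow prm_prod pq_prm PD mem_PD PS eq_of_dvd nrm
  prm_ne_zero pq_ne exists_PP not_dvd_three PS_prod)
open Pool.Agent.Y703.CT (ClsE)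
open Pool.Agent.Y703.XK (SS c9)
open Pool.Agent.XL6 (SelK)
open Pool.Agent.Y696.CTK (ED Tri Parts parts ClsK Law3 CritK)
open Pool.Agent.Y696.XK (cls_iff img_ncard)
open Pool.Agent.Y703.XL (cr)
open Q283.T3A (AV t_ASYV)

/-- a product of a squarefree element and of the square of another is no cube -/
theorem sq_cube {a b x : Ei} (ha : PS a) (hb : PS b) (h : x ^ 3 = a * b ^ 2) : a = b := by
  have hPD : PD a = PD b := by
    ext π
    constructor
    · intro hπ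
      obtain ⟨hq, hd⟩ := (mem_PD ha.ne).1 hπ
      by_contra hb'
      have hpr := hq.prime
      have hnb : ¬ π ∣ b := fun h' => hb' ((mem_PD hb.ne).2 ⟨hq, h'⟩)
      have h1 : π ∣ x := hpr.dvd_of_dvd_pow (by rw [h]; exact Dvd.dvd.mul_right hd _)
      have h2 : π ^ 3 ∣ a * b ^ 2 := by rw [← h]; exact pow_dvd_pow_of_dvd h1 3
      have h3 : π ^ 3 ∣ a := hpr.pow_dvd_of_dvd_mul_right 3 (fun h' => hnb (hpr.dvd_of_dvd_pow h')) h2
      exact hpr.not_isUnit (ha.sqf π ((Dvd.intro π (by ring)).trans h3))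
    · intro hπ
      obtain ⟨hq, hd⟩ := (mem_PD hb.ne).1 hπ
      by_contra ha'
      have hpr := hq.prime
      have hna : ¬ π ∣ a := fun h' => ha' ((mem_PD ha.ne).2 ⟨hq, h'⟩)
      have h1 : π ∣ x := hpr.dvd_of_dvd_pow (by
        rw [h]; exact Dvd.dvd.mul_left (Dvd.dvd.pow hd two_ne_zero) _)
      have h2 : π ^ 3 ∣ a * b ^ 2 := by rw [← h]; exact pow_dvd_pow_of_dvd h1 3
      have h3 : π ^ 3 ∣ b ^ 2 := hpr.pow_dvd_of_dvd_mul_left 3 hna h2
      obtain ⟨n, rfl⟩ := hd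
      have h4 : π ^ 2 * π ∣ π ^ 2 * n ^ 2 := by
        have e : π ^ 2 * π = π ^ 3 := by ring
        rw [e, ← mul_pow]
        exact h3
      have h5 := (mul_dvd_mul_iff_left (pow_ne_zero 2 hpr.ne_zero)).1 h4
      have h6 := hpr.dvd_of_dvd_pow h5
      exact hpr.not_isUnit (hb.sqf π (mul_dvd_mul_left π h6))
  rw [← ha.prod, ← hb.prod, hPD]

theorem ps_mul {a b : Ei} (ha : PS a) (hb : PS b) (h : Disjoint (PD a) (PD b)) : PS (a * b) := by
  have e : a * b = ∏ π ∈ PD a ∪ PD b, π := by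
    rw [prod_union h, ha.prod, hb.prod]
  rw [e]
  refine (PS_prod fun π hπ => ?_).1
  rcases mem_union.1 hπ with h | h
  · exact ((mem_PD ha.ne).1 h).1
  · exact ((mem_PD hb.ne).1 h).1

variable {K : Type} [Field K] [NumberField K]

/-- squarefree masks, dividing `B` -/
structure Msq {M : ℕ} (B : 𝓞 K) (m : Fin M → 𝓞 K) : Prop where
  inj : Function.Injective m
  three : ∀ k, (3 : 𝓞 K) ∣ m k - 1
  nine : ∀ k, (9 : ℤ) ∣ Algebra.norm ℤ (m k) - 1
  sqf : ∀ k, Squarefree (m k)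
  dvd : ∀ k, m k ∣ B

theorem ps_of (j : Ei ≃+* 𝓞 K) {z : Ei} (h3 : (3 : 𝓞 K) ∣ j z - 1) (hs : Squarefree (j z)) : PS z := by
  refine ⟨?_, ?_⟩
  · have h1 : j z - 1 = j (z - 1) := by rw [map_sub, map_one]
    rw [h1, ← map_ofNat j 3, map_dvd_iff j] at h3
    exact h3
  · intro x hx
    exact (MulEquiv.isUnit_map j).1 (hs (j x) (by rw [← map_mul]; exact map_dvd j hx))

theorem Msq.msk [IsCyclotomicExtension {3} ℚ K] {M : ℕ} {B : 𝓞 K} {m : Fin M → 𝓞 K}
    (h : Msq B m) : Msk m := by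
  refine ⟨h.three, h.nine, fun k l hkl ⟨x, hx⟩ => hkl (h.inj ?_)⟩
  obtain ⟨⟨j, hj⟩, -⟩ := Pool.Agent.Y455.CTK.jex K
  obtain ⟨a, ha⟩ := j.surjective (m k)
  obtain ⟨b, hb⟩ := j.surjective (m l)
  obtain ⟨y, rfl⟩ := j.surjective x
  have h1 := h.three k
  have h2 := h.sqf k
  have h3 := h.three l
  have h4 := h.sqf l
  rw [← ha] at h1 h2 hx ⊢
  rw [← hb] at h3 h4 hx ⊢
  rw [← map_pow, ← map_pow, ← map_mul] at hx
  rw [sq_cube (ps_of j h1 h2) (ps_of j h3 h4) (j.injective hx)]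

theorem Msq.cls [IsCyclotomicExtension {3} ℚ K] {M : ℕ} {B : 𝓞 K} {m : Fin M → 𝓞 K}
    (hB : B ≠ 0) (h : Msq B m) {D : 𝓞 K} (hD : ClsK D) (hN : NC D B) (k : Fin M) :
    ClsK (D * m k) := by
  refine ⟨?_, ?_, ?_⟩
  · have e : D * m k - 1 = (D - 1) * m k + (m k - 1) := by ring
    rw [e]
    exact dvd_add (Dvd.dvd.mul_right hD.1 _) (h.three k)
  · obtain ⟨⟨j, hj⟩, -⟩ := Pool.Agent.Y455.CTK.jex K
    obtain ⟨z, rfl⟩ := j.surjective D
    obtain ⟨b, rfl⟩ := j.surjective B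
    obtain ⟨a, ha⟩ := j.surjective (m k)
    have hb : b ≠ 0 := fun h => hB (by rw [h, map_zero])
    have hz := ps_of j hD.1 hD.2.1
    have h1 := h.three k
    have h2 := h.sqf k
    rw [← ha] at h1 h2 ⊢
    have haP := ps_of j h1 h2
    have hd : Disjoint (PD z) (PD b) := (nc_iff j hz.prm hb).1 hN
    have hab : a ∣ b := by
      have := h.dvd k
      rw [← ha] at this
      exact (map_dvd_iff j).1 this
    have hsub : PD a ⊆ PD b := fun π hπ => by
      obtain ⟨h3, h4⟩ := (mem_PD haP.ne).1 hπ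
      exact (mem_PD hb).2 ⟨h3, h4.trans hab⟩
    have h5 := (ps_mul hz haP (disjoint_of_subset_right hsub hd)).sqf
    rw [← map_mul]
    intro x hx
    obtain ⟨y, rfl⟩ := j.surjective x
    rw [← map_mul, map_dvd_iff j] at hx
    exact (MulEquiv.isUnit_map j).2 (h5 y hx)
  · rw [map_mul]
    obtain ⟨t, ht⟩ := h.nine k
    have ht' : Algebra.norm ℤ (m k) = 1 + 9 * t := by linarith
    rw [ht']
    intro ⟨s, hs⟩
    apply hD.2.2
    exact ⟨s - Algebra.norm ℤ D * t, by linarith⟩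

end Q283.T3B
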