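import Pool.Agent.Q283.T3.Box
import Pool.Agent.Y696.XL.Fin

/-! The translation for one curve -/

set_option autoImplicit false
set_option linter.unusedSectionVars false

open scoped Classical

namespace Q283.T3B

open Finset Module NumberField
open Pool.Agent.Y692.QS (Ei nr w)
open Pool.Agent.Y715.T.Rec (cs)
open Pool.Agent.Y715.T.RecG (Pq)
open Pool.Agent.Y699.E (prm prm_one prm_mul prm_pow prm_prod pq_prm pp_induction PD mem_PD PD_one
  PD_pow_mul notMem_PD PS eq_of_dvd nrm prm_ne_zero pq_ne)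
open Pool.Agent.Y703.CT (Dt pD Ker ClsE Tw Sel1 ShK MwK)
open Pool.Agent.Y715.T.Gi Pool.Agent.Y715.T.Nr Pool.Agent.Y715.T.Df Pool.Agent.Y715.T.Ell
open Pool.Agent.XL6 (KerV SelH SelK sel_card selK_card rk_le rank_le)
open Pool.Agent.Y696.CTK (ED Tri Parts TrfData)
open Pool.Agent.Y155.CT (a_mul a_cont)
open Q283.T3 (ex KT mem_KT)

theorem exp_ex : ∀ n, prm n → ∃ f : Ei → ℕ, (∀ π, π ∉ PD n → f π = 0) ∧
    n = ∏ π ∈ PD n, π ^ f π := by
  refine pp_induction ?_ ?_
  · refine ⟨0, fun _ _ => rfl, ?_⟩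
    rw [PD_one, prod_empty]
  · rintro π m k hπ hm hd hk ⟨f, hf, hmf⟩
    have hπm : π ∉ PD m := notMem_PD hm hd
    refine ⟨Function.update f π k, fun ρ hρ => ?_, ?_⟩
    · rw [PD_pow_mul hπ hm hk, mem_insert, not_or] at hρ
      rw [Function.update_of_ne hρ.1]
      exact hf ρ hρ.2
    · rw [PD_pow_mul hπ hm hk, prod_insert hπm, Function.update_self]
      have h1 : ∏ ρ ∈ PD m, ρ ^ Function.update f π k ρ = ∏ ρ ∈ PD m, ρ ^ f ρ := by
        refine prod_congr rfl fun ρ hρ => ?_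
        rw [Function.update_of_ne]
        rintro rfl
        exact hπm hρ
      rw [h1, ← hmf]

/-- the exponents of a primary element -/
noncomputable def fx (n : Ei) : Ei → ℕ := if h : prm n then (exp_ex n h).choose else 0

/-- the exponents modulo three -/
noncomputable def mu (m π : Ei) : ZMod 3 := (fx m π : ZMod 3)

theorem fx_zero {n π : Ei} (h : π ∉ PD n) : fx n π = 0 := by
  unfold fx
  by_cases hn : prm n
  · rw [dif_pos hn]
    exact (exp_ex n hn).choose_spec.1 π h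
  · rw [dif_neg hn]
    rfl

theorem fx_prod {n : Ei} (hn : prm n) {T : Finset Ei} (hT : PD n ⊆ T) :
    n = ∏ π ∈ T, π ^ fx n π := by
  have h1 : n = ∏ π ∈ PD n, π ^ fx n π := by
    unfold fx
    rw [dif_pos hn]
    exact (exp_ex n hn).choose_spec.2
  refine h1.trans ?_
  refine prod_subset hT fun π _ hπ => ?_
  rw [fx_zero hπ, pow_zero]

theorem mu_zero {m π : Ei} (h : π ∉ PD m) : mu m π = 0 := by
  unfold mu
  rw [fx_zero h, Nat.cast_zero]

theorem dec {D m : Ei} (hD : PS D) (hm : prm m) {W : Finset Ei} (hW : PD m ⊆ W)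
    (hWq : ∀ π ∈ W, Pq π) : ∃ x, prm x ∧
      D * m = x ^ 3 * ∏ π ∈ PD D ∪ W, π ^ (ex (mu m) (PD D) π).val := by
  set T := PD D ∪ W with hT
  have hTq : ∀ π ∈ T, Pq π := fun π hπ => (mem_union.1 hπ).elim
    (fun h => ((mem_PD hD.ne).1 h).1) (hWq π)
  set g : Ei → ℕ := fun π => (if π ∈ PD D then 1 else 0) + fx m π with hg
  have h1 : D * m = ∏ π ∈ T, π ^ g π := by
    have e1 : D = ∏ π ∈ T, π ^ (if π ∈ PD D then 1 else 0) := by
      conv_lhs => rw [← hD.prod]
      have : ∀ π ∈ PD D, (π : Ei) = π ^ (if π ∈ PD D then 1 else 0) := fun π hπ => by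
        rw [if_pos hπ, pow_one]
      rw [prod_congr rfl this]
      refine prod_subset subset_union_left fun π _ hπ => ?_
      rw [if_neg hπ, pow_zero]
    have e2 := fx_prod hm (hW.trans (subset_union_right (s₁ := PD D)))
    rw [← hT] at e2
    conv_lhs => rw [e1, e2]
    rw [← prod_mul_distrib]
    exact prod_congr rfl fun π _ => by rw [hg, pow_add]
  refine ⟨∏ π ∈ T, π ^ (g π / 3), ?_, ?_⟩
  · have : ∀ S : Finset Ei, (∀ π ∈ S, prm π) → prm (∏ π ∈ S, π ^ (g π / 3)) := by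
      intro S
      induction S using Finset.induction_on with
      | empty => intro _; rw [prod_empty]; exact prm_one
      | insert a s ha ih =>
        intro h
        rw [prod_insert ha]
        exact prm_mul (prm_pow (h a (mem_insert_self _ _)) _)
          (ih fun π hπ => h π (mem_insert_of_mem hπ))
    exact this T fun π hπ => pq_prm (hTq π hπ)
  · rw [h1, ← prod_pow, ← prod_mul_distrib]
    refine prod_congr rfl fun π _ => ?_
    have e1 : ex (mu m) (PD D) π = ((g π : ℕ) : ZMod 3) := by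
      unfold ex mu
      rw [hg]
      push_cast
      rfl
    rw [e1, ZMod.val_natCast, ← pow_mul, ← pow_add]
    congr 1
    omega

section set
variable {T : Finset Ei} {e : Ei → ZMod 3}

/-- the index set -/
abbrev JT (T : Finset Ei) (e : Ei → ZMod 3) : Type := {π : T // e π ≠ 0}

theorem sumJ {f : T → ZMod 3} (hf : ∀ π : T, e π = 0 → f π = 0) :
    ∑ t : JT T e, f t.1 = ∑ π : T, f π := by
  have h1 : ∑ t : JT T e, f t.1 = ∑ π ∈ univ.filter (fun π : T => e π ≠ 0), f π :=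
    (Finset.sum_subtype _ (fun π => by simp) f).symm
  rw [h1, sum_filter]
  refine sum_congr rfl fun π _ => ?_
  by_cases h : e π = 0
  · rw [if_neg (not_not.2 h), hf π h]
  · rw [if_pos h]

theorem pD_eq : pD (fun t : JT T e => (t.1.1 : Ei)) (fun t => e t.1) = ∏ π ∈ T, π ^ (e π).val := by
  unfold pD
  have h1 : ∏ t : JT T e, (t.1.1 : Ei) ^ (e t.1).val =
      ∏ π ∈ univ.filter (fun π : T => e π ≠ 0), (π : Ei) ^ (e π).val :=
    (Finset.prod_subtype _ (fun π => by simp) (fun π : T => (π : Ei) ^ (e π).val)).symm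
  rw [h1, prod_filter, ← prod_coe_sort T fun π => π ^ (e π).val]
  refine prod_congr rfl fun π _ => ?_
  by_cases h : e π = 0
  · rw [if_neg (not_not.2 h), h, ZMod.val_zero, pow_zero]
  · rw [if_pos h]

theorem dt_of (hT : ∀ π ∈ T, Pq π) :
    Dt (fun t : JT T e => (t.1.1 : Ei)) (fun t => e t.1) :=
  ⟨fun t => hT _ t.1.2, fun s t hst hd => hst (Subtype.ext (Subtype.ext
    (eq_of_dvd (hT _ t.1.2) (hT _ s.1.2) hd).symm)), fun t => t.2⟩

/-- the extension by zero -/
noncomputable def exv (v : JT T e → ZMod 3) (π : T) : ZMod 3 :=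
  if h : e π ≠ 0 then v ⟨π, h⟩ else 0

theorem exv_coe (v : JT T e → ZMod 3) (t : JT T e) : exv v t.1 = v t := dif_pos t.2

theorem exv_zero (v : JT T e → ZMod 3) {π : T} (h : e π = 0) : exv v π = 0 :=
  dif_neg (not_not.2 h)

/-- the number of the elements of the kernel -/
theorem card_ker : (KerV (fun t : JT T e => (t.1.1 : Ei)) (fun t => e t.1)).ncard =
    3 ^ finrank (ZMod 3) (KT T e) := by
  have h1 : Nat.card (KT T e) = 3 ^ finrank (ZMod 3) (KT T e) := by
    rw [Module.natCard_eq_pow_finrank (K := ZMod 3), Nat.card_zmod]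
  rw [← h1, ← Nat.card_coe_set_eq]
  symm
  refine Nat.card_congr ⟨fun x => ⟨fun t => x.1 t.1, ?_⟩,
    fun v => ⟨exv v.1, ?_⟩, ?_, ?_⟩
  · intro s
    have h2 := x.2.2 s.1
    have h3 : ∑ ρ : T, e s.1 * e ρ * cs s.1 ρ * (x.1 ρ - x.1 s.1) =
        e s.1 * ∑ t : JT T e, e t.1 * cs s.1.1 t.1.1 * (x.1 t.1 - x.1 s.1) := by
      rw [mul_sum]
      rw [sumJ (f := fun ρ : T => e s.1 * (e ρ * cs s.1.1 ρ * (x.1 ρ - x.1 s.1)))
        (fun π hπ => by rw [hπ]; ring)]
      exact sum_congr rfl fun ρ _ => by ring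
    rw [h3] at h2
    exact (mul_eq_zero.1 h2).resolve_left s.2
  · refine mem_KT.2 ⟨fun π hπ => exv_zero _ hπ, fun π => ?_⟩
    by_cases hπ : e π = 0
    · refine sum_eq_zero fun ρ _ => ?_
      have : e π * e ρ * cs π ρ = 0 := by rw [hπ]; ring
      rw [this, zero_mul]
    · have h2 := v.2 ⟨π, hπ⟩
      have h3 : ∑ t : JT T e, e t.1 * cs π.1 t.1.1 * (exv v.1 t.1 - exv v.1 π) = 0 := by
        refine Eq.trans ?_ h2
        refine sum_congr rfl fun t _ => ?_
        rw [exv_coe, exv_coe v.1 ⟨π, hπ⟩]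
      rw [sumJ (f := fun ρ : T => e ρ * cs π.1 ρ * (exv v.1 ρ - exv v.1 π))
        (fun ρ hρ => by rw [hρ]; ring)] at h3
      have h4 : ∑ ρ : T, e π * e ρ * cs π ρ * (exv v.1 ρ - exv v.1 π) =
          e π * ∑ ρ : T, e ρ * cs π.1 ρ * (exv v.1 ρ - exv v.1 π) := by
        rw [mul_sum]
        exact sum_congr rfl fun ρ _ => by ring
      rw [h4, h3, mul_zero]
  · intro x
    apply Subtype.ext
    funext π
    by_cases hπ : e π = 0
    · show exv _ π = x.1 π
      rw [exv_zero _ hπ, x.2.1 π hπ]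
    · exact exv_coe (fun t : JT T e => x.1 t.1) ⟨π, hπ⟩
  · intro v
    apply Subtype.ext
    funext t
    exact exv_coe v.1 t

end set

theorem nr_prm {x : Ei} (hx : prm x) : (3 : ℤ) ∣ nr x - 1 := by
  obtain ⟨y, hy⟩ := hx
  have hx' : x = 1 + 3 * y := by rw [← hy]; ring
  have h1 : nr x = 1 + 3 * (2 * y.re - y.im + 3 * nr y) := by
    have e1 : nr x = x.re ^ 2 - x.re * x.im + x.im ^ 2 := rfl
    have e2 : nr y = y.re ^ 2 - y.re * y.im + y.im ^ 2 := rfl
    have t1 : (1 : Ei).re = 1 := rfl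
    have t2 : (1 : Ei).im = 0 := rfl
    have t3 : (3 : Ei).re = 3 := rfl
    have t4 : (3 : Ei).im = 0 := rfl
    have e3 : x.re = 1 + 3 * y.re := by
      rw [hx']
      simp [t1, t3, t4]
    have e4 : x.im = 3 * y.im := by
      rw [hx']
      simp [t2, t3, t4]
    rw [e1, e2, e3, e4]
    ring
  exact ⟨2 * y.re - y.im + 3 * nr y, by rw [h1]; ring⟩

end Q283.T3B
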